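import Pool.Agent.Run7.h768.CS.Mot

/-!
# The weak motivic conjecture: descent
-/

set_option autoImplicit false

namespace Pool.Agent.Run7.h768.CS

open MvPolynomial Pool.Agent.W428.MOT Pool.Agent.N101.CB
open Pool.Agent.H628R4.TP (IsBFunction IsLocalBFunction)
open Pool.Agent.W375.MG (ratRing_mono)
open Pool.Agent.W63.MTFin (geo_mul geo_mem X_mem C_mem)
open Pool.Agent.Y229.MS (shn rescale_mem rescale_X' rescale_C' shn_pos)

/-- finitely many denominators suffice -/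
theorem ratRing_fin {K : Type} [Field K] {S : Set (ℤ × ℤ)} {z : PowerSeries (MK K)}
    (hz : z ∈ ratRing K S) : ∃ S0 : Finset (ℤ × ℤ), (S0 : Set (ℤ × ℤ)) ⊆ S ∧
      z ∈ ratRing K (S0 : Set (ℤ × ℤ)) := by
  classical
  unfold ratRing at hz
  refine Algebra.adjoin_induction (p := fun z _ => ∃ S0 : Finset (ℤ × ℤ),
    (S0 : Set (ℤ × ℤ)) ⊆ S ∧ z ∈ ratRing K (S0 : Set (ℤ × ℤ))) ?_ ?_ ?_ ?_ hz
  · rintro x (hx | ⟨p, hp, rfl⟩)
    · rw [Set.mem_singleton_iff] at hx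
      rw [hx]
      exact ⟨∅, by simp, X_mem _⟩
    · refine ⟨{p}, ?_, geo_mem (by simp)⟩
      intro q hq
      rw [Finset.coe_singleton, Set.mem_singleton_iff] at hq
      rw [hq]
      exact hp
  · intro r
    exact ⟨∅, by simp, (ratRing K _).algebraMap_mem r⟩
  · rintro x y _ _ ⟨S1, h1, h2⟩ ⟨S2, h3, h4⟩
    refine ⟨S1 ∪ S2, ?_, (ratRing K _).add_mem (ratRing_mono ?_ h2) (ratRing_mono ?_ h4)⟩
    · rw [Finset.coe_union]
      exact Set.union_subset h1 h3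
    · rw [Finset.coe_union]
      exact Set.subset_union_left
    · rw [Finset.coe_union]
      exact Set.subset_union_right
  · rintro x y _ _ ⟨S1, h1, h2⟩ ⟨S2, h3, h4⟩
    refine ⟨S1 ∪ S2, ?_, (ratRing K _).mul_mem (ratRing_mono ?_ h2) (ratRing_mono ?_ h4)⟩
    · rw [Finset.coe_union]
      exact Set.union_subset h1 h3
    · rw [Finset.coe_union]
      exact Set.subset_union_left
    · rw [Finset.coe_union]
      exact Set.subset_union_right

/-- the substitution `T ↦ 𝕃 ^ κ T` -/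
noncomputable def usk (k : ℕ) : PowerSeries (MK ℂ) →+* PowerSeries (MK ℂ) :=
  PowerSeries.rescale (((Lu ℂ) ^ (k : ℤ) : (MK ℂ)ˣ) : MK ℂ)

theorem usk_rsk (k : ℕ) (Z : PowerSeries (MK ℂ)) : usk k (rsk k Z) = Z := by
  unfold usk rsk
  rw [PowerSeries.rescale_rescale, ← Units.val_mul, ← zpow_add, neg_add_cancel, zpow_zero,
    Units.val_one, PowerSeries.rescale_one]
  rfl

theorem usk_mem {S : Set (ℤ × ℤ)} (hS : ∀ p ∈ S, 0 < p.2) {z : PowerSeries (MK ℂ)} (k : ℕ)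
    (hz : z ∈ ratRing ℂ S) : usk k z ∈ ratRing ℂ (shn k S) := by
  induction k with
  | zero =>
    have h1 : usk 0 z = z := by
      unfold usk
      rw [Nat.cast_zero, zpow_zero, Units.val_one, PowerSeries.rescale_one]
      rfl
    rw [h1]
    refine ratRing_mono ?_ hz
    intro p hp
    exact ⟨p, hp, by simp⟩
  | succ k ih =>
    have h1 : usk (k + 1) z = PowerSeries.rescale ((Lu ℂ : (MK ℂ)ˣ) : MK ℂ) (usk k z) := by
      unfold usk
      rw [PowerSeries.rescale_rescale, ← Units.val_mul]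
      congr 3
      rw [Nat.cast_succ, zpow_add_one, mul_comm]
    rw [h1]
    refine ratRing_mono ?_ (rescale_mem (shn_pos hS) ih)
    rintro p ⟨q, ⟨r, hr, rfl⟩, rfl⟩
    refine ⟨r, hr, ?_⟩
    rw [Prod.mk.injEq]
    refine ⟨?_, rfl⟩
    push_cast
    ring

theorem alg1 {R : Type} [CommRing R] {a c X U D g : R} (ea : a * c = 1) (g1 : (1 - a * X) * g = 1)
    (h3 : (1 - c * (a * X)) * U = c * (1 - a * X) * D) : D = a * (1 - X) * U * g := by
  calc D = (a * c) * ((1 - a * X) * g) * D := by rw [ea, g1]; ring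
    _ = a * (c * (1 - a * X) * D) * g := by ring
    _ = a * ((1 - c * (a * X)) * U) * g := by rw [h3]
    _ = a * ((1 - (a * c) * X) * U) * g := by ring
    _ = _ := by rw [ea]; ring

theorem alg2 {R : Type} [CommRing R] {Z D q y g : R} (g2 : (1 - y) * g = 1)
    (hD : D = (1 - y) * Z - q) : Z = (D + q) * g := by
  calc Z = ((1 - y) * g) * Z := by rw [g2, one_mul]
    _ = _ := by rw [hD]; ring

theorem cX_mem (S : Set (ℤ × ℤ)) (a : MK ℂ) :
    (1 - PowerSeries.C a * PowerSeries.X : PowerSeries (MK ℂ)) ∈ ratRing ℂ S :=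
  (ratRing ℂ S).sub_mem (ratRing ℂ S).one_mem ((ratRing ℂ S).mul_mem (C_mem _ _) (X_mem _))

theorem q_mem (S : Set (ℤ × ℤ)) (n : ℕ) :
    cYk n * (1 - cYk 1) * PowerSeries.X ∈ ratRing ℂ S :=
  (ratRing ℂ S).mul_mem ((ratRing ℂ S).mul_mem (C_mem _ _) ((ratRing ℂ S).sub_mem
      (ratRing ℂ S).one_mem (C_mem _ _))) (X_mem _)

theorem usk_form {n m : ℕ} {f : MvPolynomial (Fin n) ℂ} {F : MvPolynomial (Fin m) ℂ} {κ : ℕ}
    (hf0 : constantCoeff f = 0) (h : Rf f F κ) :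
    Dl f = PowerSeries.C (((Lu ℂ) ^ (κ : ℤ) : (MK ℂ)ˣ) : MK ℂ) * (1 - PowerSeries.X) *
      usk κ (Dl F) * geo ℂ κ 1 := by
  have h3 := congrArg (usk κ) (h.loc hf0)
  have eX : usk κ PowerSeries.X = PowerSeries.C (((Lu ℂ) ^ (κ : ℤ) : (MK ℂ)ˣ) : MK ℂ) *
    PowerSeries.X := rescale_X' _
  have eC : usk κ (cYk κ) = cYk κ := rescale_C' _ _
  rw [map_mul, map_mul, map_mul, map_sub, map_sub, map_mul, map_one, eX, eC, usk_rsk] at h3
  refine alg1 ?_ ?_ h3
  · rw [cYk, ← map_mul, ← Units.val_mul, ← zpow_add, add_neg_cancel, zpow_zero,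
      Units.val_one, map_one]
  · have := geo_mul (K := ℂ) κ 1 one_pos
    rwa [show (1 : ℤ).toNat = 1 from rfl, pow_one] at this

theorem zmot_form {n : ℕ} (f : MvPolynomial (Fin n) ℂ) :
    Zmot f {0} = (Dl f + cYk n * (1 - cYk 1) * PowerSeries.X) * geo ℂ (-1) 1 := by
  refine alg2 (y := cYk 1 * PowerSeries.X) ?_ rfl
  have := geo_mul (K := ℂ) (-1) 1 one_pos
  rw [show (1 : ℤ).toNat = 1 from rfl, pow_one] at this
  exact this

theorem dl_mem {n : ℕ} {f : MvPolynomial (Fin n) ℂ} {S : Set (ℤ × ℤ)}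
    (hZ : Zmot f {0} ∈ ratRing ℂ S) : Dl f ∈ ratRing ℂ S :=
  (ratRing ℂ S).sub_mem ((ratRing ℂ S).mul_mem (cX_mem S _) hZ) (q_mem S n)

/-- **The local zeta function of `f` from the one of `F`.** -/
theorem loc_rat {n m : ℕ} {f : MvPolynomial (Fin n) ℂ} {F : MvPolynomial (Fin m) ℂ} {κ : ℕ}
    (hf0 : constantCoeff f = 0) (h : Rf f F κ) {S S' : Set (ℤ × ℤ)} (hS : ∀ p ∈ S, 0 < p.2)
    (hS' : shn κ S ⊆ S') (h1 : ((κ : ℤ), (1 : ℤ)) ∈ S') (h2 : ((-1 : ℤ), (1 : ℤ)) ∈ S')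
    (hZ : Zmot F {0} ∈ ratRing ℂ S) : Zmot f {0} ∈ ratRing ℂ S' := by
  have hD' : usk κ (Dl F) ∈ ratRing ℂ S' := ratRing_mono hS' (usk_mem hS κ (dl_mem hZ))
  have e1 : (1 - PowerSeries.X : PowerSeries (MK ℂ)) ∈ ratRing ℂ S' :=
    (ratRing ℂ S').sub_mem (ratRing ℂ S').one_mem (X_mem _)
  have e2 : Dl f ∈ ratRing ℂ S' := by
    rw [usk_form hf0 h]
    exact (ratRing ℂ S').mul_mem ((ratRing ℂ S').mul_mem ((ratRing ℂ S').mul_mem (C_mem _ _) e1)
      hD') (geo_mem (p := ((κ : ℤ), (1 : ℤ))) h1)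
  rw [zmot_form]
  exact (ratRing ℂ S').mul_mem ((ratRing ℂ S').add_mem e2 (q_mem S' n)) (geo_mem (p := ((-1 : ℤ), (1 : ℤ))) h2)

/-- `l` is a monodromy eigenvalue of `f` at points near the origin, by the theorem of Malgrange and
Kashiwara: every polynomial `b` with a local functional equation `b(s) f ^ s = P(s) f ^ (s + 1)` at the
origin, in particular the local Bernstein-Sato polynomial, has a root `α` with `exp(2 π i α) = l`. -/
def LEig {n : ℕ} (f : MvPolynomial (Fin n) ℂ) (l : ℂ) : Prop :=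
  ∀ b : Polynomial ℂ, IsLocalBFunction f b →
    ∃ α : ℂ, b.eval α = 0 ∧ Complex.exp (2 * Real.pi * Complex.I * α) = l

theorem lEig_of {n m : ℕ} {f : MvPolynomial (Fin n) ℂ} {F : MvPolynomial (Fin m) ℂ} {κ : ℕ}
    (hf : f.totalDegree ≠ 0) (hf0 : constantCoeff f = 0) (h : Rl f F κ) (l : ℂ)
    (hl : LEig F l) : LEig f l := by
  intro b hb
  obtain ⟨h2, h3⟩ := h.lb hf hf0 b hb
  obtain ⟨c, hc⟩ := exists_factor h2
  obtain ⟨α, h4, h5⟩ := hl _ (h3 c hc)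
  rw [Polynomial.eval_mul] at h4
  rcases mul_eq_zero.1 h4 with h6 | h6
  · refine ⟨-1, h2, ?_⟩
    rw [Polynomial.eval_add, Polynomial.eval_X, Polynomial.eval_one] at h6
    rw [← h5, eq_neg_of_add_eq_zero_left h6]
  · refine ⟨α + κ, ?_, ?_⟩
    · rw [Polynomial.eval_comp, Polynomial.eval_add, Polynomial.eval_X, Polynomial.eval_C] at h6
      rw [hc, Polynomial.eval_mul, h6, mul_zero]
    · rw [← h5, Complex.exp_eq_exp_iff_exists_int]
      exact ⟨κ, by push_cast; ring⟩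

theorem lEig_int {n : ℕ} {f : MvPolynomial (Fin n) ℂ}
    (h : ∀ b : Polynomial ℂ, IsLocalBFunction f b → b.eval (-1) = 0) (k : ℤ) :
    LEig f (Complex.exp (2 * Real.pi * Complex.I * k)) := by
  intro b hb
  refine ⟨-1, h b hb, ?_⟩
  rw [Complex.exp_eq_exp_iff_exists_int]
  exact ⟨-1 - k, by push_cast; ring⟩

/-- the weak local motivic monodromy conjecture -/
def MConj {n : ℕ} (f : MvPolynomial (Fin n) ℂ) : Prop :=
  ∃ S : Finset (ℤ × ℤ), (∀ p ∈ S, 0 < p.2 ∧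
    LEig f (Complex.exp (2 * Real.pi * Complex.I * ((p.1 : ℂ) / p.2)))) ∧
    Zmot f {0} ∈ ratRing ℂ (S : Set (ℤ × ℤ))

theorem mconj_of {n m : ℕ} {f : MvPolynomial (Fin n) ℂ} {F : MvPolynomial (Fin m) ℂ} {κ : ℕ}
    (hf : f.totalDegree ≠ 0) (hf0 : constantCoeff f = 0) (h : Rl f F κ) (h' : Rf f F κ)
    (hF : MConj F) : MConj f := by
  obtain ⟨S, h1, h2⟩ := hF
  set S' : Set (ℤ × ℤ) := {p | 0 < p.2 ∧
    LEig f (Complex.exp (2 * Real.pi * Complex.I * ((p.1 : ℂ) / p.2)))} with hS'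
  have hm1 : ∀ b : Polynomial ℂ, IsLocalBFunction f b → b.eval (-1) = 0 := fun b hb =>
    (h.lb hf hf0 b hb).1
  have h3 : Zmot f {0} ∈ ratRing ℂ S' := by
    refine loc_rat hf0 h' (S := (S : Set (ℤ × ℤ))) (fun p hp => (h1 p hp).1) ?_ ?_ ?_ h2
    · rintro p ⟨q, hq, rfl⟩
      obtain ⟨h4, h5⟩ := h1 q hq
      refine ⟨h4, ?_⟩
      have h6 := lEig_of hf hf0 h _ h5
      have h7 : Complex.exp (2 * Real.pi * Complex.I * (((q.1 + κ * q.2 : ℤ) : ℂ) / (q.2 : ℤ))) =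
          Complex.exp (2 * Real.pi * Complex.I * ((q.1 : ℂ) / q.2)) := by
        rw [Complex.exp_eq_exp_iff_exists_int]
        refine ⟨κ, ?_⟩
        have h8 : (q.2 : ℂ) ≠ 0 := by exact_mod_cast h4.ne'
        push_cast
        field_simp
      rw [h7]
      exact h6
    · refine ⟨one_pos, ?_⟩
      have := lEig_int hm1 κ
      simpa using this
    · refine ⟨one_pos, ?_⟩
      have := lEig_int hm1 (-1)
      simpa using this
  obtain ⟨S0, h4, h5⟩ := ratRing_fin h3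
  exact ⟨S0, fun p hp => h4 hp, h5⟩

end Pool.Agent.Run7.h768.CS
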