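import Pool.Agent.Run7.h768.CS.AcE
import Pool.Agent.Run7.h768.CS.MotW

/-!
# Zeta functions with angular component one: descent of the conjectures
-/

set_option autoImplicit false
set_option linter.unusedSectionVars false

namespace Pool.Agent.Run7.h768.CS

open MvPolynomial Pool.Agent.W428.MOT Pool.Agent.N101.CB Pool.Agent.Y229.MS
open Pool.Agent.W375.MG (JetG zetaG Good ratRing_mono good_one)
open Pool.Agent.W63.MTFin (mapMeas geo_mul geo_mem X_mem C_mem L_mul)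
open Pool.Agent.H628R4.TP (IsBFunction IsLocalBFunction)

section
variable {K : Type} [Field K] [CharZero K] {n : ℕ}

/-- `𝕃` -/
noncomputable abbrev LL (K : Type) [Field K] : MK K := ((Lu K : (MK K)ˣ) : MK K)

/-- **The zeta functions of `f`, `f + y z`, `f + y z + y' z'` at the origin.** -/
theorem elimL (f : MvPolynomial (Fin n) K) (hf : constantCoeff f = 0)
    {E : Set (AlgebraicClosure K)} (hE : Good E) :
    fst' K * zetaG f {0} E = PowerSeries.C ((((Lu K)⁻¹ : (MK K)ˣ) : MK K) ^ 3) *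
      ((PowerSeries.C (LL K) * PowerSeries.C (LL K) + PowerSeries.C (LL K)) *
        PowerSeries.rescale (LL K) (fst' K * zetaG (addyz f) {0} E) -
        PowerSeries.rescale (LL K) (PowerSeries.rescale (LL K)
          (fst' K * zetaG (addyz (addyz f)) {0} E))) := by
  obtain ⟨M₀, hM₀⟩ := Pool.Agent.W417.MT.K0.main K
  set M := mapMeas M₀ (algebraMap (K0 K) (MK K)) with hM
  set Y : MK K := (((Lu K)⁻¹ : (MK K)ˣ) : MK K) with hY
  have hL : M.L * Y = 1 := L_mul hM₀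
  have hML : M.L = ((Lu K : (MK K)ˣ) : MK K) := by
    have h2 : ((Lu K : (MK K)ˣ) : MK K) * Y = 1 := Units.mul_inv _
    calc M.L = M.L * (((Lu K : (MK K)ˣ) : MK K) * Y) := by rw [h2, mul_one]
      _ = (M.L * Y) * ((Lu K : (MK K)ˣ) : MK K) := by ring
      _ = _ := by rw [hL, one_mul]
  have hz : ∀ {a : ℕ} (g : MvPolynomial (Fin a) K) (V : Set (Pt K (Fin a))),
      zetaG g V E = zs M Y g V E := by
    intro a g V
    ext N
    rw [zetaG, zs, PowerSeries.coeff_mk, PowerSeries.coeff_mk, zpow_neg, zpow_natCast, ← inv_pow,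
      Units.val_pow_eq_pow_val, ← hM₀]
    rfl
  have c0 : Constr ({0} : Set (Pt K (Fin n))) := constr_zero
  have c1 : Constr ({0} : Set (Pt K (Fin (n + 2)))) := constr_zero
  have e0 := zero_aeval f hf
  have e1 : ∀ z ∈ ({0} : Set (Pt K (Fin (n + 2)))), aeval z (addyz f) = 0 := by
    have := wo_eval f e0
    rwa [wo_zero] at this
  have r0 := rel1L M Y hL f c0 e0 hE
  have r1 := rel1L M Y hL (addyz f) c1 e1 hE
  have r2 := rel2L M Y hL f c0 e0
  rw [wo_zero] at r0 r1 r2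
  set e : MK K := M.χ (Fin 1) {a | a 0 ∈ E} * (M.L - 1) with he
  have hps := psum_mul (phiL M Y f {0})
  have hps1 := psum_mul (phiL M Y (addyz f) {0})
  have key := elim M.L Y hL (zs M Y f {0} E) (zs M Y (addyz f) {0} E)
    (zs M Y (addyz (addyz f)) {0} E) (PowerSeries.C e * phiL M Y f {0})
    (PowerSeries.C e * phiL M Y (addyz f) {0})
    (by
      rw [r0]
      linear_combination (PowerSeries.C e) * hps)
    (by
      rw [r1]
      linear_combination (PowerSeries.C e) * hps1)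
    (by
      rw [map_mul, rescale_C', r2]
      rw [map_mul PowerSeries.C M.L (M.L - 1), map_sub PowerSeries.C M.L 1, map_one]
      linear_combination (PowerSeries.C e * PowerSeries.C M.L * (PowerSeries.C M.L - 1) *
        PowerSeries.X) * hps)
  rw [hz, hz, hz]
  unfold fst'
  rw [← hY, key, hML]

/-- **The zeta functions of `f`, `f + y z`, `f + y z + y' z'`, all origins.** -/
theorem elimG (f : MvPolynomial (Fin n) K) {E : Set (AlgebraicClosure K)} (hE : Good E) :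
    fst' K * zetaG f Set.univ E = PowerSeries.C ((((Lu K)⁻¹ : (MK K)ˣ) : MK K) ^ 3) *
      ((PowerSeries.C (LL K) * PowerSeries.C (LL K) + PowerSeries.C (LL K)) *
        PowerSeries.rescale (LL K) (fst' K * zetaG (addyz f) Set.univ E) -
        PowerSeries.rescale (LL K) (PowerSeries.rescale (LL K)
          (fst' K * zetaG (addyz (addyz f)) Set.univ E))) := by
  obtain ⟨M₀, hM₀⟩ := Pool.Agent.W417.MT.K0.main K
  set M := mapMeas M₀ (algebraMap (K0 K) (MK K)) with hM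
  set Y : MK K := (((Lu K)⁻¹ : (MK K)ˣ) : MK K) with hY
  have hL : M.L * Y = 1 := L_mul hM₀
  have hML : M.L = ((Lu K : (MK K)ˣ) : MK K) := by
    have h2 : ((Lu K : (MK K)ˣ) : MK K) * Y = 1 := Units.mul_inv _
    calc M.L = M.L * (((Lu K : (MK K)ˣ) : MK K) * Y) := by rw [h2, mul_one]
      _ = (M.L * Y) * ((Lu K : (MK K)ˣ) : MK K) := by ring
      _ = _ := by rw [hL, one_mul]
  have hz : ∀ {a : ℕ} (g : MvPolynomial (Fin a) K) (V : Set (Pt K (Fin a))),
      zetaG g V E = zs M Y g V E := by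
    intro a g V
    ext N
    rw [zetaG, zs, PowerSeries.coeff_mk, PowerSeries.coeff_mk, zpow_neg, zpow_natCast, ← inv_pow,
      Units.val_pow_eq_pow_val, ← hM₀]
    rfl
  have r0 := rel1 t1 Pool.Agent.Y812.MS.two M Y hL f (W := Set.univ) Constr.univ (ce_good hE)
  have r1 := rel1 t1 Pool.Agent.Y812.MS.two M Y hL (addyz f) (W := Set.univ) Constr.univ
    (ce_good hE)
  have r2 := rel2 t1 Pool.Agent.Y812.MS.two M Y hL f (W := Set.univ) Constr.univ
  rw [wyz_univ] at r0 r1 r2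
  set e : MK K := M.χ (Fin 1) {a | a 0 ∈ E} * (M.L - 1) with he
  have hps := psum_mul (phiS M Y f Set.univ)
  have hps1 := psum_mul (phiS M Y (addyz f) Set.univ)
  have key := elim M.L Y hL (zs M Y f Set.univ E) (zs M Y (addyz f) Set.univ E)
    (zs M Y (addyz (addyz f)) Set.univ E) (PowerSeries.C e * phiS M Y f Set.univ)
    (PowerSeries.C e * phiS M Y (addyz f) Set.univ)
    (by
      rw [r0]
      linear_combination (PowerSeries.C e) * hps)
    (by
      rw [r1]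
      linear_combination (PowerSeries.C e) * hps1)
    (by
      rw [map_mul, rescale_C', r2]
      rw [map_mul PowerSeries.C M.L (M.L - 1), map_sub PowerSeries.C M.L 1, map_one]
      linear_combination (PowerSeries.C e * PowerSeries.C M.L * (PowerSeries.C M.L - 1) *
        PowerSeries.X) * hps)
  rw [hz, hz, hz]
  unfold fst'
  rw [← hY, key, hML]

theorem witr_univ : ∀ j : ℕ, Witr (Set.univ : Set (Pt K (Fin n))) j = Set.univ
  | 0 => rfl
  | j + 1 => by
    show Wyz (Witr Set.univ j) = Set.univ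
    rw [witr_univ j, wyz_univ]

end

section
variable {K : Type} [Field K] [Algebra K ℂ] {n m : ℕ}

/-- the descent of the membership at the origin -/
theorem descL {f : MvPolynomial (Fin n) K} {F : MvPolynomial (Fin m) K} {κ : ℕ}
    (hm : m = n + 2 * κ) (hf0 : constantCoeff f = 0) (he : Eqv (itr f κ) F)
    {E : Set (AlgebraicClosure K)} (hE : Good E) {S1 S2 : Set (ℤ × ℤ)}
    (hS1 : ∀ p ∈ S1, 0 < p.2) (hS2 : ∀ p ∈ S2, 0 < p.2)
    (h1 : fst' K * zetaG F {0} E ∈ ratRing K S1)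
    (h2 : fst' K * zetaG (addyz F) {0} E ∈ ratRing K S2) :
    fst' K * zetaG f {0} E ∈ ratRing K (shn κ S1 ∪ shn (κ + 1) S2) := by
  have hk : CharZero K := RingHom.charZero (algebraMap K ℂ)
  refine descendL f hf0 hE κ S1 S2 hS1 hS2 ?_ ?_
  · rw [← zetaG_eqv hm.symm he (ce_good hE)]
    exact h1
  · rw [← zetaG_eqv (by rw [hm]) he.addyz (ce_good hE)]
    exact h2

/-- the descent of the membership, all origins -/
theorem descG {f : MvPolynomial (Fin n) K} {F : MvPolynomial (Fin m) K} {κ : ℕ}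
    (hm : m = n + 2 * κ) (he : Eqv (itr f κ) F)
    {E : Set (AlgebraicClosure K)} (hE : Good E) {S1 S2 : Set (ℤ × ℤ)}
    (hS1 : ∀ p ∈ S1, 0 < p.2) (hS2 : ∀ p ∈ S2, 0 < p.2)
    (h1 : fst' K * zetaG F Set.univ E ∈ ratRing K S1)
    (h2 : fst' K * zetaG (addyz F) Set.univ E ∈ ratRing K S2) :
    fst' K * zetaG f Set.univ E ∈ ratRing K (shn κ S1 ∪ shn (κ + 1) S2) := by
  have hk : CharZero K := RingHom.charZero (algebraMap K ℂ)
  refine descend' f Constr.univ (ce_good hE) κ S1 S2 hS1 hS2 ?_ ?_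
  · rw [witr_univ, ← zetaG_eqv' hm.symm he (ce_good hE)]
    exact h1
  · rw [witr_univ, wyz_univ, ← zetaG_eqv' (by rw [hm]) he.addyz (ce_good hE)]
    exact h2

/-- `s` is a root of the reduced local Bernstein-Sato polynomial -/
def LRoot (f : MvPolynomial (Fin n) K) (s : ℂ) : Prop :=
  ∀ c : Polynomial ℂ, IsLocalBFunction (cK f) ((Polynomial.X + 1) * c) → c.eval s = 0

/-- `s` is a root of the reduced Bernstein-Sato polynomial -/
def GRoot (f : MvPolynomial (Fin n) K) (s : ℂ) : Prop :=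
  ∀ c : Polynomial ℂ, IsBFunction (cK f) ((Polynomial.X + 1) * c) → c.eval s = 0

theorem eval_shift (c : Polynomial ℂ) (κ : ℕ) (q : ℤ × ℤ) (hq : 0 < q.2)
    (h : (c.comp (Polynomial.X + Polynomial.C (κ : ℂ))).eval ((q.1 : ℂ) / q.2) = 0) :
    c.eval (((q.1 + κ * q.2 : ℤ) : ℂ) / (q.2 : ℤ)) = 0 := by
  rw [Polynomial.eval_comp, Polynomial.eval_add, Polynomial.eval_X, Polynomial.eval_C] at h
  have h8 : (q.2 : ℂ) ≠ 0 := by exact_mod_cast hq.ne'
  have h9 : (((q.1 + κ * q.2 : ℤ) : ℂ) / (q.2 : ℤ)) = (q.1 : ℂ) / q.2 + κ := by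
    push_cast
    field_simp
  rw [h9]
  exact h

/-- the refined conjecture at the origin -/
def LRef (f : MvPolynomial (Fin n) K) : Prop :=
  ∃ S : Finset (ℤ × ℤ), (∀ p ∈ S, 0 < p.2 ∧ LRoot f ((p.1 : ℂ) / p.2)) ∧
    fst' K * zetaG f {0} {1} ∈ ratRing K (S : Set (ℤ × ℤ))

/-- the refined conjecture -/
def GRef (f : MvPolynomial (Fin n) K) : Prop :=
  ∃ S : Finset (ℤ × ℤ), (∀ p ∈ S, 0 < p.2 ∧ GRoot f ((p.1 : ℂ) / p.2)) ∧
    fst' K * zetaG f Set.univ {1} ∈ ratRing K (S : Set (ℤ × ℤ))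

theorem lref_of {f : MvPolynomial (Fin n) K} {F : MvPolynomial (Fin m) K} {κ : ℕ}
    (hm : m = n + 2 * κ) (hf : f.totalDegree ≠ 0) (hf0 : constantCoeff f = 0)
    (he : Eqv (itr f κ) F) (h : Rk f F κ) (h1 : LRef F) (h2 : LRef (addyz F)) : LRef f := by
  obtain ⟨S1, a1, m1⟩ := h1
  obtain ⟨S2, a2, m2⟩ := h2
  have h3 := descL hm hf0 he good_one (fun p hp => (a1 p hp).1) (fun p hp => (a2 p hp).1) m1 m2
  set S' : Set (ℤ × ℤ) := {p | 0 < p.2 ∧ LRoot f ((p.1 : ℂ) / p.2)} with hS'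
  have h4 : fst' K * zetaG f {0} {1} ∈ ratRing K S' := by
    refine ratRing_mono ?_ h3
    rintro p (⟨q, hq, rfl⟩ | ⟨q, hq, rfl⟩)
    · obtain ⟨b1, b2⟩ := a1 q hq
      exact ⟨b1, fun c hc => eval_shift c κ q b1 (b2 _ ((h.lb hf hf0 _ hc).2 c rfl))⟩
    · obtain ⟨b1, b2⟩ := a2 q hq
      exact ⟨b1, fun c hc => eval_shift c (κ + 1) q b1 (b2 _ ((h.snoc.lb hf hf0 _ hc).2 c rfl))⟩
  obtain ⟨S0, h5, h6⟩ := ratRing_fin h4
  exact ⟨S0, fun p hp => h5 hp, h6⟩

theorem gref_of {f : MvPolynomial (Fin n) K} {F : MvPolynomial (Fin m) K} {κ : ℕ}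
    (hm : m = n + 2 * κ) (hf : f.totalDegree ≠ 0)
    (he : Eqv (itr f κ) F) (h : Rk f F κ) (h1 : GRef F) (h2 : GRef (addyz F)) : GRef f := by
  obtain ⟨S1, a1, m1⟩ := h1
  obtain ⟨S2, a2, m2⟩ := h2
  have h3 := descG hm he good_one (fun p hp => (a1 p hp).1) (fun p hp => (a2 p hp).1) m1 m2
  set S' : Set (ℤ × ℤ) := {p | 0 < p.2 ∧ GRoot f ((p.1 : ℂ) / p.2)} with hS'
  have h4 : fst' K * zetaG f Set.univ {1} ∈ ratRing K S' := by
    refine ratRing_mono ?_ h3
    rintro p (⟨q, hq, rfl⟩ | ⟨q, hq, rfl⟩)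
    · obtain ⟨b1, b2⟩ := a1 q hq
      exact ⟨b1, fun c hc => eval_shift c κ q b1 (b2 _ ((h.b hf _ hc).2 c rfl))⟩
    · obtain ⟨b1, b2⟩ := a2 q hq
      exact ⟨b1, fun c hc => eval_shift c (κ + 1) q b1 (b2 _ ((h.snoc.b hf _ hc).2 c rfl))⟩
  obtain ⟨S0, h5, h6⟩ := ratRing_fin h4
  exact ⟨S0, fun p hp => h5 hp, h6⟩

/-- the refined conjecture implies the conjecture at the origin -/
theorem lref_strong {f : MvPolynomial (Fin n) K} (hf : f.totalDegree ≠ 0)
    (hf0 : constantCoeff f = 0) (h : LRef f) :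
    ∃ S : Finset (ℤ × ℤ), (∀ p ∈ S, 0 < p.2 ∧ ∀ b : Polynomial ℂ, IsLocalBFunction (cK f) b →
      b.eval ((p.1 : ℂ) / p.2) = 0) ∧ zetaG f {0} {1} ∈ ratRing K (S : Set (ℤ × ℤ)) := by
  classical
  obtain ⟨S, a, m⟩ := h
  refine ⟨insert (-1, 1) S, fun p hp => ?_, ?_⟩
  · rcases Finset.mem_insert.1 hp with rfl | hp
    · refine ⟨one_pos, fun b hb => ?_⟩
      have := ((Rk.refl f).lb hf hf0 b hb).1
      simpa using this
    · refine ⟨(a p hp).1, fun b hb => ?_⟩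
      obtain ⟨c, hc⟩ := exists_factor ((Rk.refl f).lb hf hf0 b hb).1
      rw [hc] at hb
      rw [hc, Polynomial.eval_mul, (a p hp).2 c hb, mul_zero]
  · rw [Finset.coe_insert]
    exact zeta_of_fst f _ _ _ m

/-- the refined conjecture implies the conjecture -/
theorem gref_strong {f : MvPolynomial (Fin n) K} (hf : f.totalDegree ≠ 0) (h : GRef f) :
    ∃ S : Finset (ℤ × ℤ), (∀ p ∈ S, 0 < p.2 ∧ ∀ b : Polynomial ℂ, IsBFunction (cK f) b →
      b.eval ((p.1 : ℂ) / p.2) = 0) ∧ zetaG f Set.univ {1} ∈ ratRing K (S : Set (ℤ × ℤ)) := by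
  classical
  obtain ⟨S, a, m⟩ := h
  refine ⟨insert (-1, 1) S, fun p hp => ?_, ?_⟩
  · rcases Finset.mem_insert.1 hp with rfl | hp
    · refine ⟨one_pos, fun b hb => ?_⟩
      have := ((Rk.refl f).b hf b hb).1
      simpa using this
    · refine ⟨(a p hp).1, fun b hb => ?_⟩
      obtain ⟨c, hc⟩ := exists_factor ((Rk.refl f).b hf b hb).1
      rw [hc] at hb
      rw [hc, Polynomial.eval_mul, (a p hp).2 c hb, mul_zero]
  · rw [Finset.coe_insert]
    exact zeta_of_fst f _ _ _ m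

/-- `l` is a monodromy eigenvalue of `f` at some point (Malgrange, Kashiwara) -/
def GEig (f : MvPolynomial (Fin n) K) (l : ℂ) : Prop :=
  ∀ b : Polynomial ℂ, IsBFunction (cK f) b →
    ∃ α : ℂ, b.eval α = 0 ∧ Complex.exp (2 * Real.pi * Complex.I * α) = l

theorem gEig_of {f : MvPolynomial (Fin n) K} {F : MvPolynomial (Fin m) K} {κ : ℕ}
    (hf : f.totalDegree ≠ 0) (h : Rk f F κ) (l : ℂ)
    (hl : GEig F l) : GEig f l := by
  intro b hb
  obtain ⟨h2, h3⟩ := h.b hf b hb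
  obtain ⟨c, hc⟩ := exists_factor h2
  obtain ⟨α, h4, h5⟩ := hl _ (h3 c hc)
  rw [Polynomial.eval_mul] at h4
  rcases mul_eq_zero.1 h4 with h6 | h6
  · refine ⟨-1, h2, ?_⟩
    rw [Polynomial.eval_add, Polynomial.eval_X, Polynomial.eval_one] at h6
    rw [← h5, eq_neg_of_add_eq_zero_left h6]
  · refine ⟨α + κ, ?_, ?_⟩
    · rw [Polynomial.eval_comp, Polynomial.eval_add, Polynomial.eval_X, Polynomial.eval_C] at h6
      rw [hc, Polynomial.eval_mul, h6, mul_zero]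
    · rw [← h5, Complex.exp_eq_exp_iff_exists_int]
      exact ⟨κ, by push_cast; ring⟩

theorem exp_shift (κ : ℕ) (q : ℤ × ℤ) (hq : 0 < q.2) :
    Complex.exp (2 * Real.pi * Complex.I * (((q.1 + κ * q.2 : ℤ) : ℂ) / (q.2 : ℤ))) =
      Complex.exp (2 * Real.pi * Complex.I * ((q.1 : ℂ) / q.2)) := by
  rw [Complex.exp_eq_exp_iff_exists_int]
  refine ⟨κ, ?_⟩
  have h8 : (q.2 : ℂ) ≠ 0 := by exact_mod_cast hq.ne'
  push_cast
  field_simp

/-- the weak conjecture -/
def GWeak (f : MvPolynomial (Fin n) K) : Prop :=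
  ∃ S : Finset (ℤ × ℤ), (∀ p ∈ S, 0 < p.2 ∧
    GEig f (Complex.exp (2 * Real.pi * Complex.I * ((p.1 : ℂ) / p.2)))) ∧
    zetaG f Set.univ {1} ∈ ratRing K (S : Set (ℤ × ℤ))

theorem fst_mem {S : Set (ℤ × ℤ)} {Z : PowerSeries (MK K)} (h : Z ∈ ratRing K S) :
    fst' K * Z ∈ ratRing K S :=
  (ratRing K S).mul_mem ((ratRing K S).sub_mem (ratRing K S).one_mem
    ((ratRing K S).mul_mem (C_mem _ _) (X_mem _))) h

theorem gweak_of {f : MvPolynomial (Fin n) K} {F : MvPolynomial (Fin m) K} {κ : ℕ}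
    (hm : m = n + 2 * κ) (hf : f.totalDegree ≠ 0)
    (he : Eqv (itr f κ) F) (h : Rk f F κ) (h1 : GWeak F) (h2 : GWeak (addyz F)) : GWeak f := by
  obtain ⟨S1, a1, m1⟩ := h1
  obtain ⟨S2, a2, m2⟩ := h2
  have h3 := descG hm he good_one (fun p hp => (a1 p hp).1) (fun p hp => (a2 p hp).1)
    (fst_mem m1) (fst_mem m2)
  set S' : Set (ℤ × ℤ) := {p | 0 < p.2 ∧
    GEig f (Complex.exp (2 * Real.pi * Complex.I * ((p.1 : ℂ) / p.2)))} with hS'
  have h4 : zetaG f Set.univ {1} ∈ ratRing K S' := by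
    refine ratRing_mono ?_ (zeta_of_fst f _ _ _ h3)
    rintro p (rfl | ⟨q, hq, rfl⟩ | ⟨q, hq, rfl⟩)
    · refine ⟨one_pos, fun b hb => ⟨-1, ((Rk.refl f).b hf b hb).1, ?_⟩⟩
      congr 1
      push_cast
      ring
    · obtain ⟨b1, b2⟩ := a1 q hq
      refine ⟨b1, ?_⟩
      rw [exp_shift κ q b1]
      exact gEig_of hf h _ b2
    · obtain ⟨b1, b2⟩ := a2 q hq
      refine ⟨b1, ?_⟩
      rw [exp_shift (κ + 1) q b1]
      exact gEig_of hf h.snoc _ b2
  obtain ⟨S0, h5, h6⟩ := ratRing_fin h4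
  exact ⟨S0, fun p hp => h5 hp, h6⟩

end

end Pool.Agent.Run7.h768.CS
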