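import Pool.Agent.Run7.h768.CS.Aut

/-!
# Stable equivalence: `F` is the image of `f + ∑ t_i w_i` under an automorphism
-/

set_option autoImplicit false

namespace Pool.Agent.Run7.h768.CS

open MvPolynomial Pool.Agent.N101.CB

section
variable {K : Type} [Field K]

/-- `f(x) + t_1 w_1 + ... + t_κ w_κ`, in the variables `x, t, w` -/
noncomputable def hyp {n : ℕ} (κ : ℕ) (f : MvPolynomial (Fin n) K) :
    MvPolynomial (Fin n ⊕ (Fin κ ⊕ Fin κ)) K :=
  rename Sum.inl f + ∑ j : Fin κ, X (Sum.inr (Sum.inl j)) * X (Sum.inr (Sum.inr j))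

/-- `F` is the image of `f(x) + t_1 w_1 + ... + t_κ w_κ` under a polynomial automorphism which fixes the
origin. -/
def StabEq {n m : ℕ} (f : MvPolynomial (Fin n) K) (F : MvPolynomial (Fin m) K) (κ : ℕ) : Prop :=
  ∃ Φ : MvPolynomial (Fin n ⊕ (Fin κ ⊕ Fin κ)) K ≃ₐ[K] MvPolynomial (Fin m) K,
    (∀ v, constantCoeff (Φ (X v)) = 0) ∧ Φ (hyp κ f) = F

theorem StabEq.refl {n : ℕ} (f : MvPolynomial (Fin n) K) : StabEq f f 0 := by
  refine ⟨renameEquiv K (Equiv.sumEmpty (Fin n) (Fin 0 ⊕ Fin 0)), fun v => ?_, ?_⟩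
  · rw [renameEquiv_apply, rename_X, constantCoeff_X]
  · unfold hyp
    rw [Finset.sum_of_isEmpty, add_zero, renameEquiv_apply, rename_rename]
    have h : (Equiv.sumEmpty (Fin n) (Fin 0 ⊕ Fin 0)) ∘ Sum.inl = id := by
      funext i
      rfl
    rw [h, rename_id_apply]

/-- `x_i ↦ x_i + p` in the variables `x, t, w` -/
noncomputable def exH {n : ℕ} {τ : Type} [DecidableEq τ] (i : Fin n) (p : MvPolynomial (Fin n) K) :
    MvPolynomial (Fin n ⊕ τ) K →ₐ[K] MvPolynomial (Fin n ⊕ τ) K :=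
  aeval (Function.update X (Sum.inl i) (X (Sum.inl i) + rename Sum.inl p))

theorem exH_inl {n : ℕ} {τ : Type} [DecidableEq τ] (i : Fin n) (p g : MvPolynomial (Fin n) K) :
    exH (τ := τ) i p (rename Sum.inl g) = rename Sum.inl (elH i p g) := by
  have h : (exH (τ := τ) i p).comp (rename Sum.inl) =
      (rename Sum.inl : MvPolynomial (Fin n) K →ₐ[K] MvPolynomial (Fin n ⊕ τ) K).comp
        (elH i p) := by
    apply MvPolynomial.algHom_ext
    intro j
    rw [AlgHom.comp_apply, AlgHom.comp_apply, rename_X]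
    by_cases hj : j = i
    · subst hj
      rw [elH_self, map_add, rename_X]
      unfold exH
      rw [aeval_X, Function.update_self]
    · rw [elH_ne hj, rename_X]
      unfold exH
      rw [aeval_X, Function.update_of_ne (fun h => hj (Sum.inl.inj h))]
  exact DFunLike.congr_fun h g

theorem exH_inr {n : ℕ} {τ : Type} [DecidableEq τ] (i : Fin n) (p : MvPolynomial (Fin n) K)
    (a : τ) : exH i p (X (Sum.inr a) : MvPolynomial (Fin n ⊕ τ) K) = X (Sum.inr a) := by
  unfold exH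
  rw [aeval_X, Function.update_of_ne (fun h => Sum.inr_ne_inl h)]

theorem exH_comp {n : ℕ} {τ : Type} [DecidableEq τ] {i : Fin n} {p p' : MvPolynomial (Fin n) K}
    (hp' : Fr i p') (h : p + p' = 0) :
    (exH (τ := τ) i p).comp (exH i p') = AlgHom.id K _ := by
  apply MvPolynomial.algHom_ext
  rintro (j | a)
  · have h1 : exH (τ := τ) i p' (X (Sum.inl j)) = rename Sum.inl (elH i p' (X j)) := by
      rw [← exH_inl, rename_X]
    rw [AlgHom.comp_apply, h1, exH_inl]
    have h2 := DFunLike.congr_fun (elH_comp (p := p) hp' h) (X j)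
    rw [AlgHom.comp_apply, AlgHom.id_apply] at h2
    rw [h2, rename_X, AlgHom.id_apply]
  · rw [AlgHom.comp_apply, exH_inr, exH_inr, AlgHom.id_apply]

/-- the extension of an elementary automorphism -/
noncomputable def exE {n : ℕ} {τ : Type} [DecidableEq τ] (i : Fin n) (p : MvPolynomial (Fin n) K)
    (hp : Fr i p) : MvPolynomial (Fin n ⊕ τ) K ≃ₐ[K] MvPolynomial (Fin n ⊕ τ) K :=
  AlgEquiv.ofAlgHom (exH i p) (exH i (-p)) (exH_comp hp.neg (add_neg_cancel p))
    (exH_comp hp (neg_add_cancel p))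

theorem const_alg {σ τ : Type} (φ : MvPolynomial σ K →ₐ[K] MvPolynomial τ K)
    (h : ∀ v, constantCoeff (φ (X v)) = 0) (g : MvPolynomial σ K) :
    constantCoeff (φ g) = constantCoeff g := by
  induction g using MvPolynomial.induction_on with
  | C a =>
    rw [show φ (C a) = C a from φ.commutes a, constantCoeff_C, constantCoeff_C]
  | add p q hp hq => rw [map_add, map_add, map_add, hp, hq]
  | mul_X q j hq => rw [map_mul, map_mul, map_mul, h, constantCoeff_X, mul_zero, mul_zero]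

theorem StabEq.el {n m : ℕ} {g p : MvPolynomial (Fin n) K} {i : Fin n} (hp : Fr i p)
    (hp0 : constantCoeff p = 0) {F : MvPolynomial (Fin m) K} {κ : ℕ}
    (h : StabEq (elE i p hp g) F κ) : StabEq g F κ := by
  obtain ⟨Φ, h1, h2⟩ := h
  refine ⟨(exE i p hp).trans Φ, fun v => ?_, ?_⟩
  · show constantCoeff (Φ (exH i p (X v))) = 0
    have h3 := const_alg Φ.toAlgHom (fun v => h1 v) (exH i p (X v))
    refine h3.trans ?_
    rcases v with j | a
    · have h4 : exH (τ := Fin κ ⊕ Fin κ) i p (X (Sum.inl j)) =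
          rename Sum.inl (elH i p (X j)) := by
        rw [← exH_inl, rename_X]
      rw [h4, constantCoeff_rename, el_const hp0, constantCoeff_X]
    · rw [exH_inr, constantCoeff_X]
  · show Φ (exH i p (hyp κ g)) = F
    rw [← h2]
    congr 1
    unfold hyp
    rw [map_add, map_sum, exH_inl]
    congr 1
    refine Finset.sum_congr rfl fun j _ => ?_
    rw [map_mul, exH_inr, exH_inr]

/-- the new variables -/
def fwd (n κ : ℕ) : Fin n ⊕ (Fin (κ + 1) ⊕ Fin (κ + 1)) → Fin (n + 2) ⊕ (Fin κ ⊕ Fin κ)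
  | Sum.inl i => Sum.inl (Fin.castAdd 2 i)
  | Sum.inr (Sum.inl j) => Fin.lastCases (motive := fun _ => Fin (n + 2) ⊕ (Fin κ ⊕ Fin κ))
      (Sum.inl (vt n)) (fun j => Sum.inr (Sum.inl j)) j
  | Sum.inr (Sum.inr j) => Fin.lastCases (motive := fun _ => Fin (n + 2) ⊕ (Fin κ ⊕ Fin κ))
      (Sum.inl (vw n)) (fun j => Sum.inr (Sum.inr j)) j

/-- the old variables -/
def bwd (n κ : ℕ) : Fin (n + 2) ⊕ (Fin κ ⊕ Fin κ) → Fin n ⊕ (Fin (κ + 1) ⊕ Fin (κ + 1))
  | Sum.inl i => Fin.addCases (motive := fun _ => Fin n ⊕ (Fin (κ + 1) ⊕ Fin (κ + 1)))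
      (fun i => Sum.inl i) ![Sum.inr (Sum.inl (Fin.last κ)), Sum.inr (Sum.inr (Fin.last κ))] i
  | Sum.inr (Sum.inl j) => Sum.inr (Sum.inl (Fin.castSucc j))
  | Sum.inr (Sum.inr j) => Sum.inr (Sum.inr (Fin.castSucc j))

theorem bwd_fwd (n κ : ℕ) (v : Fin n ⊕ (Fin (κ + 1) ⊕ Fin (κ + 1))) :
    bwd n κ (fwd n κ v) = v := by
  rcases v with i | j | j
  · simp only [fwd, bwd, Fin.addCases_left]
  · refine Fin.lastCases ?_ (fun j => ?_) j
    · simp only [fwd, Fin.lastCases_last, bwd, vt, Fin.addCases_right]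
      rfl
    · simp only [fwd, Fin.lastCases_castSucc, bwd]
  · refine Fin.lastCases ?_ (fun j => ?_) j
    · simp only [fwd, Fin.lastCases_last, bwd, vw, Fin.addCases_right]
      rfl
    · simp only [fwd, Fin.lastCases_castSucc, bwd]

theorem fwd_bwd (n κ : ℕ) (v : Fin (n + 2) ⊕ (Fin κ ⊕ Fin κ)) : fwd n κ (bwd n κ v) = v := by
  rcases v with i | j | j
  · refine Fin.addCases (fun i => ?_) (fun i => ?_) i
    · simp only [bwd, Fin.addCases_left, fwd]
    · have b0 : bwd n κ (Sum.inl (Fin.natAdd n 0)) = Sum.inr (Sum.inl (Fin.last κ)) := by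
        simp only [bwd, Fin.addCases_right]
        rfl
      have b1 : bwd n κ (Sum.inl (Fin.natAdd n 1)) = Sum.inr (Sum.inr (Fin.last κ)) := by
        simp only [bwd, Fin.addCases_right]
        rfl
      fin_cases i
      · show fwd n κ (bwd n κ (Sum.inl (Fin.natAdd n 0))) = Sum.inl (Fin.natAdd n 0)
        rw [b0]
        simp only [fwd, Fin.lastCases_last]
      · show fwd n κ (bwd n κ (Sum.inl (Fin.natAdd n 1))) = Sum.inl (Fin.natAdd n 1)
        rw [b1]
        simp only [fwd, Fin.lastCases_last]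
  · simp only [bwd, fwd, Fin.lastCases_castSucc]
  · simp only [bwd, fwd, Fin.lastCases_castSucc]

/-- the identification of the variables -/
def eqv (n κ : ℕ) : Fin n ⊕ (Fin (κ + 1) ⊕ Fin (κ + 1)) ≃ Fin (n + 2) ⊕ (Fin κ ⊕ Fin κ) where
  toFun := fwd n κ
  invFun := bwd n κ
  left_inv := bwd_fwd n κ
  right_inv := fwd_bwd n κ

theorem StabEq.stp {n m : ℕ} {f : MvPolynomial (Fin n) K} {F : MvPolynomial (Fin m) K} {κ : ℕ}
    (h : StabEq (stp f 0 0) F κ) : StabEq f F (κ + 1) := by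
  obtain ⟨Φ, h1, h2⟩ := h
  refine ⟨(renameEquiv K (eqv n κ)).trans Φ, fun v => ?_, ?_⟩
  · show constantCoeff (Φ (renameEquiv K (eqv n κ) (X v))) = 0
    rw [renameEquiv_apply, rename_X]
    exact h1 _
  · show Φ (renameEquiv K (eqv n κ) (hyp (κ + 1) f)) = F
    rw [← h2]
    congr 1
    unfold hyp Pool.Agent.N101.CB.stp
    have e0 : ∀ v, eqv n κ v = fwd n κ v := fun _ => rfl
    have e1 : ∀ j : Fin κ, eqv n κ (Sum.inr (Sum.inl (Fin.castSucc j))) =
        Sum.inr (Sum.inl j) := by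
      intro j
      rw [e0]
      simp only [fwd, Fin.lastCases_castSucc]
    have e2 : ∀ j : Fin κ, eqv n κ (Sum.inr (Sum.inr (Fin.castSucc j))) =
        Sum.inr (Sum.inr j) := by
      intro j
      rw [e0]
      simp only [fwd, Fin.lastCases_castSucc]
    have e3 : eqv n κ (Sum.inr (Sum.inl (Fin.last κ))) = Sum.inl (Fin.natAdd n 0) := by
      rw [e0]
      simp only [fwd, Fin.lastCases_last, vt]
    have e4 : eqv n κ (Sum.inr (Sum.inr (Fin.last κ))) = Sum.inl (Fin.natAdd n 1) := by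
      rw [e0]
      simp only [fwd, Fin.lastCases_last, vw]
    have e5 : eqv n κ ∘ Sum.inl = Sum.inl ∘ Fin.castAdd 2 := rfl
    rw [renameEquiv_apply, map_add, map_sum, rename_rename, e5, Fin.sum_univ_castSucc]
    simp only [map_mul, rename_X, map_zero, add_zero, sub_zero, map_add, rename_rename, e1, e2,
      e3, e4]
    ring

/-- **Every polynomial is stably equivalent to a quadratic polynomial plus cubes of variables.** -/
theorem exists_stabEq (h6 : (6 : K) ≠ 0) {n : ℕ} (f : MvPolynomial (Fin n) K) :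
    ∃ (κ m : ℕ) (F : MvPolynomial (Fin m) K), m = n + 2 * κ ∧ QC F ∧ StabEq f F κ := by
  refine red_cubes (P := fun n f => ∃ (κ m : ℕ) (F : MvPolynomial (Fin m) K),
    m = n + 2 * κ ∧ QC F ∧ StabEq f F κ)
    (fun n f u v hu hv h => step_of (fun n f => ∃ (κ m : ℕ) (F : MvPolynomial (Fin m) K),
      m = n + 2 * κ ∧ QC F ∧ StabEq f F κ) ?_ ?_ n f u v hu hv h) h6 ?_ n f
  · rintro n g p i hp hp0 ⟨κ, m, F, h1, h2, h3⟩
    exact ⟨κ, m, F, h1, h2, h3.el hp hp0⟩
  · rintro n f ⟨κ, m, F, h1, h2, h3⟩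
    exact ⟨κ + 1, m, F, by omega, h2, h3.stp⟩
  · intro n F hF
    exact ⟨0, n, F, rfl, hF, StabEq.refl F⟩

end

end Pool.Agent.Run7.h768.CS
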