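import Pool.Agent.Run7.h768.CS.AcL
import Pool.Agent.Run7.h768.CS.StabEq

/-!
# Isomorphic polynomials, `f + ∑ t_i w_i` and the normal form, over a subfield of `ℂ`
-/

set_option autoImplicit false
set_option linter.unusedSectionVars false

namespace Pool.Agent.Run7.h768.CS

open MvPolynomial Pool.Agent.W428.MOT Pool.Agent.N101.CB Pool.Agent.Y229.MS
open Pool.Agent.W375.MG (JetG zetaG Good ratRing_mono)
open Pool.Agent.H628R4.TP (IsBFunction IsLocalBFunction)

section
variable {K : Type} [Field K]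

/-- `g` is the image of `f` under an isomorphism which fixes the origin -/
def Eqv {a b : ℕ} (f : MvPolynomial (Fin a) K) (g : MvPolynomial (Fin b) K) : Prop :=
  ∃ ψ : MvPolynomial (Fin a) K ≃ₐ[K] MvPolynomial (Fin b) K,
    (∀ i, constantCoeff (ψ (X i)) = 0) ∧ ψ f = g

theorem Eqv.refl {a : ℕ} (f : MvPolynomial (Fin a) K) : Eqv f f :=
  ⟨AlgEquiv.refl, fun _ => constantCoeff_X _ _, rfl⟩

theorem Eqv.trans {a b c : ℕ} {f : MvPolynomial (Fin a) K} {g : MvPolynomial (Fin b) K}
    {h : MvPolynomial (Fin c) K} (h1 : Eqv f g) (h2 : Eqv g h) : Eqv f h := by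
  obtain ⟨φ, h3, rfl⟩ := h1
  obtain ⟨ψ, h4, rfl⟩ := h2
  refine ⟨φ.trans ψ, fun i => ?_, rfl⟩
  show constantCoeff (ψ (φ (X i))) = 0
  have := const_alg ψ.toAlgHom (fun v => h4 v) (φ (X i))
  exact this.trans (h3 i)

/-- the extension by two variables -/
noncomputable def ext2 {a b : ℕ} (φ : MvPolynomial (Fin a) K →ₐ[K] MvPolynomial (Fin b) K) :
    MvPolynomial (Fin (a + 2)) K →ₐ[K] MvPolynomial (Fin (b + 2)) K :=
  aeval (Fin.addCases (motive := fun _ => MvPolynomial (Fin (b + 2)) K)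
    (fun i => rename (Fin.castAdd 2) (φ (X i))) fun j => X (Fin.natAdd b j))

theorem ext2_nat {a b : ℕ} (φ : MvPolynomial (Fin a) K →ₐ[K] MvPolynomial (Fin b) K) (j : Fin 2) :
    ext2 φ (X (Fin.natAdd a j)) = X (Fin.natAdd b j) := by
  unfold ext2
  rw [aeval_X, Fin.addCases_right]

theorem ext2_rename {a b : ℕ} (φ : MvPolynomial (Fin a) K →ₐ[K] MvPolynomial (Fin b) K)
    (p : MvPolynomial (Fin a) K) :
    ext2 φ (rename (Fin.castAdd 2) p) = rename (Fin.castAdd 2) (φ p) := by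
  have h : (ext2 φ).comp (rename (Fin.castAdd 2)) = (rename (Fin.castAdd 2)).comp φ := by
    apply MvPolynomial.algHom_ext
    intro i
    rw [AlgHom.comp_apply, AlgHom.comp_apply, rename_X]
    unfold ext2
    rw [aeval_X, Fin.addCases_left]
  exact DFunLike.congr_fun h p

theorem ext2_comp {a b c : ℕ} (φ : MvPolynomial (Fin b) K →ₐ[K] MvPolynomial (Fin c) K)
    (ψ : MvPolynomial (Fin a) K →ₐ[K] MvPolynomial (Fin b) K) (h : MvPolynomial (Fin a) K →ₐ[K]
      MvPolynomial (Fin c) K) (hh : φ.comp ψ = h) : (ext2 φ).comp (ext2 ψ) = ext2 h := by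
  subst hh
  apply MvPolynomial.algHom_ext
  intro i
  refine Fin.addCases (fun i => ?_) (fun j => ?_) i
  · have e : ∀ {d : ℕ} (χ : MvPolynomial (Fin a) K →ₐ[K] MvPolynomial (Fin d) K),
        ext2 χ (X (Fin.castAdd 2 i)) = rename (Fin.castAdd 2) (χ (X i)) := by
      intro d χ
      rw [← ext2_rename, rename_X]
    rw [AlgHom.comp_apply, e, e, ext2_rename, AlgHom.comp_apply]
  · rw [AlgHom.comp_apply, ext2_nat, ext2_nat, ext2_nat]

theorem ext2_id {a : ℕ} : ext2 (AlgHom.id K (MvPolynomial (Fin a) K)) = AlgHom.id K _ := by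
  apply MvPolynomial.algHom_ext
  intro i
  refine Fin.addCases (fun i => ?_) (fun j => ?_) i
  · rw [← rename_X (Fin.castAdd 2) i, ext2_rename]
    rfl
  · rw [ext2_nat]
    rfl

/-- the extension of an isomorphism -/
noncomputable def ext2E {a b : ℕ} (φ : MvPolynomial (Fin a) K ≃ₐ[K] MvPolynomial (Fin b) K) :
    MvPolynomial (Fin (a + 2)) K ≃ₐ[K] MvPolynomial (Fin (b + 2)) K :=
  AlgEquiv.ofAlgHom (ext2 φ.toAlgHom) (ext2 φ.symm.toAlgHom)
    (by
      rw [ext2_comp _ _ (AlgHom.id K _), ext2_id]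
      apply AlgHom.ext
      intro x
      exact φ.apply_symm_apply x)
    (by
      rw [ext2_comp _ _ (AlgHom.id K _), ext2_id]
      apply AlgHom.ext
      intro x
      exact φ.symm_apply_apply x)

theorem Eqv.addyz {a b : ℕ} {f : MvPolynomial (Fin a) K} {g : MvPolynomial (Fin b) K}
    (h : Eqv f g) : Eqv (addyz f) (addyz g) := by
  obtain ⟨φ, h1, rfl⟩ := h
  refine ⟨ext2E φ, fun i => ?_, ?_⟩
  · show constantCoeff (ext2 φ.toAlgHom (X i)) = 0
    refine Fin.addCases (fun i => ?_) (fun j => ?_) i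
    · rw [← rename_X (Fin.castAdd 2) i, ext2_rename, constantCoeff_rename]
      exact h1 i
    · rw [ext2_nat, constantCoeff_X]
  · show ext2 φ.toAlgHom (Pool.Agent.Y229.MS.addyz f) = Pool.Agent.Y229.MS.addyz (φ f)
    unfold Pool.Agent.Y229.MS.addyz
    rw [map_add, map_mul, ext2_rename, ext2_nat, ext2_nat]
    rfl

theorem Eqv.itr {a b : ℕ} {f : MvPolynomial (Fin a) K} {g : MvPolynomial (Fin b) K}
    (h : Eqv f g) : ∀ j : ℕ, Eqv (itr f j) (itr g j)
  | 0 => h
  | j + 1 => (Eqv.itr h j).addyz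

theorem eqv_itr {n : ℕ} (f : MvPolynomial (Fin n) K) :
    ∀ j : ℕ, Eqv (itr f (j + 1)) (itr (addyz f) j)
  | 0 => Eqv.refl (addyz f)
  | j + 1 => (eqv_itr f j).addyz

theorem stp_zero {n : ℕ} (f : MvPolynomial (Fin n) K) : stp f 0 0 = addyz f := by
  unfold stp addyz
  rw [map_zero, add_zero, sub_zero]

theorem pull_zero {a b : ℕ} (ψ : MvPolynomial (Fin a) K ≃ₐ[K] MvPolynomial (Fin b) K)
    (h : ∀ i, constantCoeff (ψ (X i)) = 0) :
    {w : Pt K (Fin b) | (fun i => aeval w (ψ (X i))) ∈ ({0} : Set (Pt K (Fin a)))} = {0} := by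
  have h0 : ∀ {c : ℕ} (p : MvPolynomial (Fin c) K), constantCoeff p = 0 →
      aeval (0 : Pt K (Fin c)) p = 0 := fun p hp => zero_aeval p hp 0 rfl
  ext w
  simp only [Set.mem_ofPred_eq, Set.mem_singleton_iff]
  constructor
  · intro hw
    funext j
    have h1 : ∀ p : MvPolynomial (Fin a) K, aeval w (ψ p) = aeval (fun i => aeval w (ψ (X i))) p :=
      fun p => (Pool.Agent.Z864.MS.aeval_cmp ψ.toAlgHom w p).symm
    have h2 := h1 (ψ.symm (X j))
    rw [AlgEquiv.apply_symm_apply, aeval_X, hw] at h2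
    rw [h2]
    refine h0 _ ?_
    have h3 := const_alg ψ.toAlgHom (fun v => h v) (ψ.symm (X j))
    refine h3.symm.trans ?_
    show constantCoeff (ψ (ψ.symm (X j))) = 0
    rw [AlgEquiv.apply_symm_apply, constantCoeff_X]
  · rintro rfl
    funext i
    exact h0 _ (h i)

theorem zetaG_eqv [CharZero K] {a b : ℕ} (hab : a = b) {f : MvPolynomial (Fin a) K}
    {g : MvPolynomial (Fin b) K} (h : Eqv f g) {E : Set (AlgebraicClosure K)} (hE : CE E) :
    zetaG g {0} E = zetaG f {0} E := by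
  obtain ⟨ψ, h1, rfl⟩ := h
  have h2 := zeta_iso Pool.Agent.Z864.MS.three hab ψ f constr_zero hE
  rwa [pull_zero ψ h1] at h2

theorem zetaG_eqv' [CharZero K] {a b : ℕ} (hab : a = b) {f : MvPolynomial (Fin a) K}
    {g : MvPolynomial (Fin b) K} (h : Eqv f g) {E : Set (AlgebraicClosure K)} (hE : CE E) :
    zetaG g Set.univ E = zetaG f Set.univ E := by
  obtain ⟨ψ, h1, rfl⟩ := h
  exact zeta_iso Pool.Agent.Z864.MS.three hab ψ f Constr.univ hE

theorem QC.addyz {n : ℕ} {F : MvPolynomial (Fin n) K} (h : QC F) : QC (addyz F) :=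
  h.rename.add (q2_XX _ _)

theorem addyz_deg {n : ℕ} (f : MvPolynomial (Fin n) K) : (addyz f).totalDegree ≠ 0 := by
  rw [← stp_zero]
  exact stp_deg f 0 0

end

section
variable {K : Type} [Field K] [Algebra K ℂ]

/-- the polynomial with complex coefficients -/
noncomputable abbrev cK {n : ℕ} (f : MvPolynomial (Fin n) K) : MvPolynomial (Fin n) ℂ :=
  map (algebraMap K ℂ) f

theorem cK_inj {n : ℕ} : Function.Injective (cK : MvPolynomial (Fin n) K → _) :=
  map_injective _ (algebraMap K ℂ).injective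

theorem cK_deg {n : ℕ} {f : MvPolynomial (Fin n) K} (hf : f.totalDegree ≠ 0) :
    (cK f).totalDegree ≠ 0 := by
  intro h
  apply hf
  rw [totalDegree_eq_zero_iff_eq_C] at h
  have h1 : f = C (coeff 0 f) := by
    apply cK_inj
    rw [h]
    unfold cK
    rw [coeff_map, map_C]
  rw [h1, totalDegree_C]

theorem cK_const {n : ℕ} (f : MvPolynomial (Fin n) K) :
    constantCoeff (cK f) = algebraMap K ℂ (constantCoeff f) := constantCoeff_map _ _

theorem cK_aeval {n k : ℕ} (g : Fin n → MvPolynomial (Fin k) K) (q : MvPolynomial (Fin n) K) :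
    cK (aeval g q) = aeval (fun j => cK (g j)) (cK q) := by
  unfold cK
  induction q using MvPolynomial.induction_on with
  | C a =>
    rw [map_C, aeval_C, aeval_C, MvPolynomial.algebraMap_eq, MvPolynomial.algebraMap_eq, map_C]
  | add p q hp hq => rw [map_add, map_add, map_add, map_add, hp, hq]
  | mul_X q j hq => rw [map_mul, map_mul, map_mul, map_mul, hq, map_X, aeval_X, aeval_X]

theorem cK_update {n : ℕ} (i : Fin n) (r : MvPolynomial (Fin n) K) :
    (fun j => cK (Function.update (X : Fin n → MvPolynomial (Fin n) K) i r j)) =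
      Function.update (X : Fin n → MvPolynomial (Fin n) ℂ) i (cK r) := by
  funext j
  by_cases hj : j = i
  · subst hj
    rw [Function.update_self, Function.update_self]
  · rw [Function.update_of_ne hj, Function.update_of_ne hj]
    exact map_X _ _

theorem cK_fr {n : ℕ} {i : Fin n} {q : MvPolynomial (Fin n) K} (h : Fr i q) : Fr i (cK q) := by
  have h0 : aeval (Function.update X i 0) (cK q) = cK q := by
    have h1 := congrArg cK (h 0)
    rw [cK_aeval, cK_update] at h1
    have h2 : cK (0 : MvPolynomial (Fin n) K) = 0 := map_zero _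
    rwa [h2] at h1
  intro r
  conv_lhs => rw [← h0]
  have h3 : (aeval (Function.update (X : Fin n → MvPolynomial (Fin n) ℂ) i r)).comp
      (aeval (Function.update (X : Fin n → MvPolynomial (Fin n) ℂ) i 0)) =
      aeval (Function.update (X : Fin n → MvPolynomial (Fin n) ℂ) i 0) := by
    apply MvPolynomial.algHom_ext
    intro j
    rw [AlgHom.comp_apply, aeval_X]
    by_cases hj : j = i
    · subst hj
      rw [Function.update_self, map_zero]
    · rw [Function.update_of_ne hj, aeval_X, Function.update_of_ne hj]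
  have h4 := DFunLike.congr_fun h3 (cK q)
  rw [AlgHom.comp_apply] at h4
  rw [h4, h0]

theorem cK_el {n : ℕ} {i : Fin n} {q : MvPolynomial (Fin n) K} (h : Fr i q)
    (g : MvPolynomial (Fin n) K) :
    cK (elE i q h g) = elE i (cK q) (cK_fr h) (cK g) := by
  rw [elE_apply, elE_apply]
  unfold elH
  rw [cK_aeval, cK_update]
  congr 3
  unfold cK
  rw [map_add, map_X]

theorem cK_stp {n : ℕ} (f : MvPolynomial (Fin n) K) :
    cK (stp f 0 0) = stp (cK f) 0 0 := by
  unfold stp cK
  rw [map_add, map_mul, map_zero, add_zero, sub_zero, map_zero, add_zero, sub_zero, map_X, map_X,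
    map_rename]

/-- The relations between the functional equations of `f` and `F`, in `n + 2 κ` variables. -/
structure Rk {n m : ℕ} (f : MvPolynomial (Fin n) K) (F : MvPolynomial (Fin m) K) (κ : ℕ) :
    Prop where
  deg : f.totalDegree ≠ 0 → F.totalDegree ≠ 0
  const : constantCoeff f = 0 → constantCoeff F = 0
  b : f.totalDegree ≠ 0 → ∀ b : Polynomial ℂ, IsBFunction (cK f) b → b.eval (-1) = 0 ∧
    ∀ c : Polynomial ℂ, b = (Polynomial.X + 1) * c →
      IsBFunction (cK F) ((Polynomial.X + 1) * c.comp (Polynomial.X + Polynomial.C (κ : ℂ)))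
  lb : f.totalDegree ≠ 0 → constantCoeff f = 0 → ∀ b : Polynomial ℂ, IsLocalBFunction (cK f) b →
    b.eval (-1) = 0 ∧ ∀ c : Polynomial ℂ, b = (Polynomial.X + 1) * c →
      IsLocalBFunction (cK F) ((Polynomial.X + 1) * c.comp (Polynomial.X + Polynomial.C (κ : ℂ)))

theorem Rk.refl {n : ℕ} (f : MvPolynomial (Fin n) K) : Rk f f 0 where
  deg h := h
  const h := h
  b hf b hb := (Rl.refl (cK f)).b (cK_deg hf) b hb
  lb hf h0 b hb := (Rl.refl (cK f)).lb (cK_deg hf) (by rw [cK_const, h0, map_zero]) b hb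

theorem Rk.el {n m : ℕ} {g q : MvPolynomial (Fin n) K} {i : Fin n} (hq : Fr i q)
    (hq0 : constantCoeff q = 0) {F : MvPolynomial (Fin m) K} {κ : ℕ}
    (h : Rk (elE i q hq g) F κ) : Rk g F κ where
  deg h1 := h.deg (el_deg hq h1)
  const h1 := h.const (by rw [elE_apply, el_const hq0]; exact h1)
  b h1 b hb := h.b (el_deg hq h1) b (by
    rw [cK_el]
    exact b_el (cK_fr hq) (cK g) hb)
  lb h1 h2 b hb := h.lb (el_deg hq h1) (by rw [elE_apply, el_const hq0]; exact h2) b (by
    rw [cK_el]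
    exact lb_el (cK_fr hq) (by rw [cK_const, hq0, map_zero]) (cK g) hb)

theorem Rk.stp {n m : ℕ} {f : MvPolynomial (Fin n) K} {F : MvPolynomial (Fin m) K} {κ : ℕ}
    (h : Rk (stp f 0 0) F κ) : Rk f F (κ + 1) where
  deg _ := h.deg (stp_deg f 0 0)
  const h1 := h.const (stp_const f 0 0 h1 (map_zero _) (map_zero _))
  b hf b hb := by
    obtain ⟨h1, h2⟩ := bg (cK f) 0 0 (cK_deg hf) b hb
    refine ⟨h1, fun c hc => ?_⟩
    have h3 := h2 c hc
    rw [← cK_stp] at h3
    have h4 := (h.b (stp_deg f 0 0) _ h3).2 _ rfl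
    rwa [comp_succ] at h4
  lb hf h0 b hb := by
    have hne : cK f ≠ 0 := by
      intro h1
      have := cK_deg hf
      rw [h1, totalDegree_zero] at this
      exact this rfl
    obtain ⟨h1, h2⟩ := bl (cK f) 0 0 hne (by rw [cK_const, h0, map_zero]) (map_zero _)
      (map_zero _) b hb
    refine ⟨h1, fun c hc => ?_⟩
    have h3 := h2 c hc
    rw [← cK_stp] at h3
    have h4 := (h.lb (stp_deg f 0 0) (stp_const f 0 0 h0 (map_zero _) (map_zero _)) _ h3).2 _ rfl
    rwa [comp_succ] at h4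

theorem Rk.snoc {n m : ℕ} {f : MvPolynomial (Fin n) K} {F : MvPolynomial (Fin m) K} {κ : ℕ}
    (h : Rk f F κ) : Rk f (addyz F) (κ + 1) where
  deg _ := addyz_deg F
  const h1 := by
    rw [← stp_zero]
    exact stp_const F 0 0 (h.const h1) (map_zero _) (map_zero _)
  b hf b hb := by
    obtain ⟨h1, h2⟩ := h.b hf b hb
    refine ⟨h1, fun c hc => ?_⟩
    have h3 := (bg (cK F) 0 0 (cK_deg (h.deg hf)) _ (h2 c hc)).2 _ rfl
    rw [← cK_stp, stp_zero, Polynomial.comp_assoc] at h3
    have h4 : (Polynomial.X + Polynomial.C (κ : ℂ)).comp (Polynomial.X + 1) =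
        Polynomial.X + Polynomial.C ((κ + 1 : ℕ) : ℂ) := by
      rw [Polynomial.add_comp, Polynomial.X_comp, Polynomial.C_comp]
      push_cast
      rw [map_add, map_one]
      ring
    rwa [h4] at h3
  lb hf h0 b hb := by
    obtain ⟨h1, h2⟩ := h.lb hf h0 b hb
    refine ⟨h1, fun c hc => ?_⟩
    have hne : cK F ≠ 0 := by
      intro h1
      have := cK_deg (h.deg hf)
      rw [h1, totalDegree_zero] at this
      exact this rfl
    have h3 := (bl (cK F) 0 0 hne (by rw [cK_const, h.const h0, map_zero]) (map_zero _)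
      (map_zero _) _ (h2 c hc)).2 _ rfl
    rw [← cK_stp, stp_zero, Polynomial.comp_assoc] at h3
    have h4 : (Polynomial.X + Polynomial.C (κ : ℂ)).comp (Polynomial.X + 1) =
        Polynomial.X + Polynomial.C ((κ + 1 : ℕ) : ℂ) := by
      rw [Polynomial.add_comp, Polynomial.X_comp, Polynomial.C_comp]
      push_cast
      rw [map_add, map_one]
      ring
    rwa [h4] at h3

/-- **The normal form of a polynomial over a subfield of `ℂ`.** -/
theorem exists_qck {n : ℕ} (f : MvPolynomial (Fin n) K) :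
    ∃ (κ m : ℕ) (F : MvPolynomial (Fin m) K), m = n + 2 * κ ∧ QC F ∧ StabEq f F κ ∧
      Eqv (itr f κ) F ∧ Rk f F κ := by
  have hk : CharZero K := RingHom.charZero (algebraMap K ℂ)
  have h6 : (6 : K) ≠ 0 := by norm_num
  refine red_cubes (K := K) (P := fun n f => ∃ (κ m : ℕ) (F : MvPolynomial (Fin m) K),
    m = n + 2 * κ ∧ QC F ∧ StabEq f F κ ∧ Eqv (itr f κ) F ∧ Rk f F κ)
    (fun n f u v hu hv h => step_of (fun n f => ∃ (κ m : ℕ) (F : MvPolynomial (Fin m) K),
      m = n + 2 * κ ∧ QC F ∧ StabEq f F κ ∧ Eqv (itr f κ) F ∧ Rk f F κ) ?_ ?_ n f u v hu hv h)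
    h6 ?_ n f
  · rintro n g p i hp hp0 ⟨κ, m, F, h1, h2, h5, h3, h4⟩
    refine ⟨κ, m, F, h1, h2, h5.el hp hp0, Eqv.trans (Eqv.itr ?_ κ) h3, h4.el hp hp0⟩
    refine ⟨elE i p hp, fun j => ?_, rfl⟩
    rw [elE_apply, el_const hp0, constantCoeff_X]
  · rintro n f ⟨κ, m, F, h1, h2, h5, h3, h4⟩
    refine ⟨κ + 1, m, F, by omega, h2, h5.stp, ?_, h4.stp⟩
    rw [stp_zero] at h3
    exact (eqv_itr f κ).trans h3
  · intro n F hF
    exact ⟨0, n, F, rfl, hF, StabEq.refl F, Eqv.refl F, Rk.refl F⟩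

end

end Pool.Agent.Run7.h768.CS
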