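import Pool.Agent.Y229.MS.Fin
import Pool.Agent.N101.CB.Form

/-!
# Zeta functions with a condition on the angular component, at the origin: from `f + y z` to `f`
-/

set_option autoImplicit false
set_option linter.unusedSectionVars false

namespace Pool.Agent.Run7.h768.CS

open MvPolynomial Pool.Agent.W428.MOT Pool.Agent.N101.CB Pool.Agent.Y229.MS
open Pool.Agent.W375.MG (JetG zetaG Good ratRing_mono)
open Pool.Agent.W63.MTFin (mapMeas geo_mul geo_mem X_mem C_mem L_mul)

section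
variable {K : Type} [Field K] {n : ℕ} {R : Type} [CommRing R]

/-- the tails, from `2` on -/
noncomputable def phiL (M : Meas K R) (Y : R) (f : MvPolynomial (Fin n) K)
    (W : Set (Pt K (Fin n))) : PowerSeries R :=
  PowerSeries.mk fun i => if 2 ≤ i then M.χ _ (Tl f W i i) * Y ^ (n * i) else 0

theorem tl_one (f : MvPolynomial (Fin n) K) {W : Set (Pt K (Fin n))}
    (h0 : ∀ z ∈ W, aeval z f = 0) (N : ℕ) : Tl f W 1 N = Tl f W 0 N := by
  ext z
  constructor
  · rintro ⟨h1, -⟩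
    exact ⟨h1, fun j hj => absurd hj (Nat.not_lt_zero j)⟩
  · rintro ⟨h1, -⟩
    refine ⟨h1, fun j hj => ?_⟩
    have hj0 : j = 0 := by omega
    rw [hj0, Pool.Agent.Z864.MS.coeff_zero_aeval]
    exact h0 _ h1

theorem sum_two {a b : ℕ → R} (c y : R) {N : ℕ} (hN : 1 ≤ N) (a0 : a 0 = 0) (a1 : a 1 = 0)
    (b0 : b 0 = c) (b1 : b 1 = c) (h : ∀ i, 2 ≤ i → i ≤ N → a i = b i * y) :
    ∑ i ∈ Finset.range (N + 1), a i = (∑ i ∈ Finset.range (N + 1), b i - 2 * c) * y := by
  obtain ⟨k, rfl⟩ := Nat.exists_eq_add_of_le hN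
  have h1 : ∀ g : ℕ → R, ∑ i ∈ Finset.range (1 + k + 1), g i =
      ∑ i ∈ Finset.range k, g (i + 1 + 1) + g 1 + g 0 := by
    intro g
    rw [show 1 + k + 1 = k + 1 + 1 by ring, Finset.sum_range_succ', Finset.sum_range_succ']
  have h2 : ∑ i ∈ Finset.range k, a (i + 1 + 1) = (∑ i ∈ Finset.range k, b (i + 1 + 1)) * y := by
    rw [Finset.sum_mul]
    refine Finset.sum_congr rfl fun i hi => ?_
    rw [Finset.mem_range] at hi
    exact h _ (by omega) (by omega)
  rw [h1, h1, a0, a1, b0, b1, h2]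
  ring

/-- the formula for one level -/
theorem lvlL (M : Meas K R) (Y : R) (hL : M.L * Y = 1)
    (f : MvPolynomial (Fin n) K) {W : Set (Pt K (Fin n))} (hW : Constr W)
    (h0 : ∀ z ∈ W, aeval z f = 0) {E : Set (AlgebraicClosure K)} (hE : CE E) {N : ℕ}
    (hN : 1 ≤ N) :
    M.L ^ N * (M.χ _ (JetG (addyz f) (Wo W) E N) * Y ^ ((n + 2) * N)) =
      M.L * (M.χ _ (JetG f W E N) * Y ^ (n * N)) + M.χ (Fin 1) {a | a 0 ∈ E} * (M.L - 1) *
        PowerSeries.coeff N (psum (phiL M Y f W)) := by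
  have h1 := t1 K R M f W E hW hE N
  have h2 := Pool.Agent.N101.CB.loc K R M f W E hW hE h0 N hN
  have h3 : PowerSeries.coeff N (psum (phiL M Y f W)) =
      (∑ i ∈ Finset.range (N + 1), M.χ _ (Tl f W i N) - 2 * (M.χ (Fin n) W * M.L ^ (n * N))) *
        Y ^ (n * N) := by
    rw [Pool.Agent.Y229.MS.psum, PowerSeries.coeff_mk]
    have e0 : M.χ _ (Tl f W 0 N) = M.χ (Fin n) W * M.L ^ (n * N) := chi_Tl M f hW _
    refine sum_two _ _ hN ?_ ?_ e0 ?_ ?_
    · rw [phiL, PowerSeries.coeff_mk, if_neg (by omega)]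
    · rw [phiL, PowerSeries.coeff_mk, if_neg (by omega)]
    · rw [tl_one f h0]
      exact e0
    · intro i h2i hiN
      rw [phiL, PowerSeries.coeff_mk, if_pos h2i,
        phi_level' Pool.Agent.Y812.MS.two M Y hL f W hW i N hiN]
  rw [h3]
  have h4 : M.L ^ N * Y ^ N = 1 := by rw [← mul_pow, hL, one_pow]
  have h5 : Y ^ ((n + 2) * N) = Y ^ (n * N) * (Y ^ N * Y ^ N) := by
    rw [← pow_add, ← pow_add]
    congr 1
    ring
  have h6 : M.χ _ (JetG (addyz f) (Wo W) E N) = M.χ _ (JetG f W E N) * M.L ^ (N + 1) +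
      M.χ (Fin 1) {a | a 0 ∈ E} * (M.L - 1) * M.L ^ N *
        (∑ i ∈ Finset.range (N + 1), M.χ _ (Tl f W i N) -
          2 * (M.χ (Fin n) W * M.L ^ (n * N))) := by
    linear_combination h1 - h2
  rw [h6, h5, pow_succ]
  set A := M.χ _ (JetG f W E N)
  set B := ∑ i ∈ Finset.range (N + 1), M.χ _ (Tl f W i N) - 2 * (M.χ (Fin n) W * M.L ^ (n * N))
  set e := M.χ (Fin 1) {a | a 0 ∈ E}
  linear_combination ((A * M.L + e * (M.L - 1) * B) * Y ^ (n * N) *
    (M.L ^ N * Y ^ N + 1)) * h4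

theorem jet_zero (f : MvPolynomial (Fin n) K) {W : Set (Pt K (Fin n))}
    (h0 : ∀ z ∈ W, aeval z f = 0) {E : Set (AlgebraicClosure K)}
    (hE : (0 : AlgebraicClosure K) ∉ E) : JetG f W E 0 = ∅ := by
  ext z
  simp only [Set.mem_empty_iff_false, iff_false]
  rintro ⟨h1, -, h3⟩
  rw [Pool.Agent.Z864.MS.coeff_zero_aeval, h0 _ h1] at h3
  exact hE h3

theorem wo_eval (f : MvPolynomial (Fin n) K) {W : Set (Pt K (Fin n))}
    (h0 : ∀ z ∈ W, aeval z f = 0) : ∀ z ∈ Wo W, aeval z (addyz f) = 0 := by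
  rintro z ⟨h1, h2, h3⟩
  rw [addyz, map_add, map_mul, aeval_X, aeval_X, aeval_rename, h2, zero_mul, add_zero]
  exact h0 _ h1

/-- **The relation of the zeta functions.** -/
theorem rel1L (M : Meas K R) (Y : R) (hL : M.L * Y = 1)
    (f : MvPolynomial (Fin n) K) {W : Set (Pt K (Fin n))} (hW : Constr W)
    (h0 : ∀ z ∈ W, aeval z f = 0) {E : Set (AlgebraicClosure K)} (hE : Good E) :
    PowerSeries.rescale M.L (zs M Y (addyz f) (Wo W) E) =
      PowerSeries.C M.L * zs M Y f W E +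
        PowerSeries.C (M.χ (Fin 1) {a | a 0 ∈ E} * (M.L - 1)) * psum (phiL M Y f W) := by
  ext N
  rw [PowerSeries.coeff_rescale, map_add, PowerSeries.coeff_C_mul, PowerSeries.coeff_C_mul, zs, zs,
    PowerSeries.coeff_mk, PowerSeries.coeff_mk]
  rcases Nat.eq_zero_or_pos N with rfl | hN
  · rw [jet_zero f h0 hE.zero, jet_zero (addyz f) (wo_eval f h0) hE.zero, Pool.Agent.Y229.MS.psum,
      PowerSeries.coeff_mk, Finset.sum_range_succ, Finset.sum_range_zero, phiL,
      PowerSeries.coeff_mk, if_neg (by omega), Pool.Agent.W375.MT.chi_empty, Pool.Agent.W375.MT.chi_empty]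
    ring
  · exact lvlL M Y hL f hW h0 (ce_good hE) hN

/-- **The relation of the tails.** -/
theorem rel2L (M : Meas K R) (Y : R) (hL : M.L * Y = 1)
    (f : MvPolynomial (Fin n) K) {W : Set (Pt K (Fin n))} (hW : Constr W)
    (h0 : ∀ z ∈ W, aeval z f = 0) :
    PowerSeries.rescale M.L (phiL M Y (addyz f) (Wo W)) =
      PowerSeries.C M.L * PowerSeries.C M.L * phiL M Y f W +
        PowerSeries.C (M.L * (M.L - 1)) * (PowerSeries.X * psum (phiL M Y f W)) := by
  ext N
  rw [PowerSeries.coeff_rescale, map_add, mul_assoc, PowerSeries.coeff_C_mul,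
    PowerSeries.coeff_C_mul, PowerSeries.coeff_C_mul]
  rcases N with _ | N
  · rw [PowerSeries.coeff_zero_X_mul, mul_zero, add_zero, pow_zero, one_mul, phiL, phiL,
      PowerSeries.coeff_mk, PowerSeries.coeff_mk, if_neg (by omega), if_neg (by omega)]
    ring
  · rw [PowerSeries.coeff_succ_X_mul]
    rcases Nat.eq_zero_or_pos N with rfl | hN
    · rw [Pool.Agent.Y229.MS.psum, PowerSeries.coeff_mk, Finset.sum_range_succ,
        Finset.sum_range_zero, phiL, phiL,
        PowerSeries.coeff_mk, PowerSeries.coeff_mk, PowerSeries.coeff_mk, if_neg (by omega),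
        if_neg (by omega), if_neg (by omega)]
      ring
    · have h1 := lvlL M Y hL f hW h0 (E := {0}) ce_zero hN
      rw [chi_pt, one_mul] at h1
      have h2 : PowerSeries.coeff (N + 1) (phiL M Y (addyz f) (Wo W)) =
          M.χ _ (JetG (addyz f) (Wo W) {0} N) * Y ^ ((n + 2) * N) := by
        rw [phiL, PowerSeries.coeff_mk, if_pos (by omega)]
        exact phi_succ Pool.Agent.Y812.MS.two M Y hL (addyz f) (Wo W) (constr_Wo hW) N
      have h3 : PowerSeries.coeff (N + 1) (phiL M Y f W) =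
          M.χ _ (JetG f W {0} N) * Y ^ (n * N) := by
        rw [phiL, PowerSeries.coeff_mk, if_pos (by omega)]
        exact phi_succ Pool.Agent.Y812.MS.two M Y hL f W hW N
      rw [h2, h3, pow_succ]
      linear_combination M.L * h1

end

section
variable {K : Type} [Field K] [CharZero K] {n : ℕ}

/-- **One step**, at the origin. -/
theorem stepL (f : MvPolynomial (Fin n) K) (hf : constantCoeff f = 0)
    {E : Set (AlgebraicClosure K)} (hE : Good E)
    {S1 S2 : Set (ℤ × ℤ)} (hS1 : ∀ p ∈ S1, 0 < p.2) (hS2 : ∀ p ∈ S2, 0 < p.2)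
    (hz1 : fst' K * zetaG (addyz f) {0} E ∈ ratRing K S1)
    (hz2 : fst' K * zetaG (addyz (addyz f)) {0} E ∈ ratRing K S2) :
    fst' K * zetaG f {0} E ∈ ratRing K (shn 1 S1 ∪ shn 1 (shn 1 S2)) := by
  obtain ⟨M₀, hM₀⟩ := Pool.Agent.W417.MT.K0.main K
  set M := mapMeas M₀ (algebraMap (K0 K) (MK K)) with hM
  set Y : MK K := (((Lu K)⁻¹ : (MK K)ˣ) : MK K) with hY
  have hL : M.L * Y = 1 := L_mul hM₀
  have hML : M.L = ((Lu K : (MK K)ˣ) : MK K) := by
    have h2 : ((Lu K : (MK K)ˣ) : MK K) * Y = 1 := Units.mul_inv _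
    calc M.L = M.L * (((Lu K : (MK K)ˣ) : MK K) * Y) := by rw [h2, mul_one]
      _ = (M.L * Y) * ((Lu K : (MK K)ˣ) : MK K) := by ring
      _ = _ := by rw [hL, one_mul]
  have hz : ∀ {a : ℕ} (g : MvPolynomial (Fin a) K) (V : Set (Pt K (Fin a))),
      zetaG g V E = zs M Y g V E := by
    intro a g V
    ext N
    rw [zetaG, zs, PowerSeries.coeff_mk, PowerSeries.coeff_mk, zpow_neg, zpow_natCast, ← inv_pow,
      Units.val_pow_eq_pow_val, ← hM₀]
    rfl
  have c0 : Constr ({0} : Set (Pt K (Fin n))) := constr_zero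
  have c1 : Constr ({0} : Set (Pt K (Fin (n + 2)))) := constr_zero
  have e0 := zero_aeval f hf
  have e1 : ∀ z ∈ ({0} : Set (Pt K (Fin (n + 2)))), aeval z (addyz f) = 0 := by
    have := wo_eval f e0
    rwa [wo_zero] at this
  have r0 := rel1L M Y hL f c0 e0 hE
  have r1 := rel1L M Y hL (addyz f) c1 e1 hE
  have r2 := rel2L M Y hL f c0 e0
  rw [wo_zero] at r0 r1 r2
  set e : MK K := M.χ (Fin 1) {a | a 0 ∈ E} * (M.L - 1) with he
  have hps := psum_mul (phiL M Y f {0})
  have hps1 := psum_mul (phiL M Y (addyz f) {0})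
  have key := elim M.L Y hL (zs M Y f {0} E) (zs M Y (addyz f) {0} E)
    (zs M Y (addyz (addyz f)) {0} E) (PowerSeries.C e * phiL M Y f {0})
    (PowerSeries.C e * phiL M Y (addyz f) {0})
    (by
      rw [r0]
      linear_combination (PowerSeries.C e) * hps)
    (by
      rw [r1]
      linear_combination (PowerSeries.C e) * hps1)
    (by
      rw [map_mul, rescale_C', r2]
      rw [map_mul PowerSeries.C M.L (M.L - 1), map_sub PowerSeries.C M.L 1, map_one]
      linear_combination (PowerSeries.C e * PowerSeries.C M.L * (PowerSeries.C M.L - 1) *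
        PowerSeries.X) * hps)
  rw [hz] at hz1 hz2 ⊢
  unfold fst' at hz1 hz2 ⊢
  rw [← hY] at hz1 hz2 ⊢
  rw [key, hML]
  have m1 : PowerSeries.rescale ((Lu K : (MK K)ˣ) : MK K)
      ((1 - PowerSeries.C Y * PowerSeries.X) * zs M Y (addyz f) {0} E) ∈
      ratRing K (shn 1 S1 ∪ shn 1 (shn 1 S2)) :=
    ratRing_mono Set.subset_union_left (rescale_mem hS1 hz1)
  have m2 : PowerSeries.rescale ((Lu K : (MK K)ˣ) : MK K)
      (PowerSeries.rescale ((Lu K : (MK K)ˣ) : MK K)
        ((1 - PowerSeries.C Y * PowerSeries.X) * zs M Y (addyz (addyz f)) {0} E)) ∈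
      ratRing K (shn 1 S1 ∪ shn 1 (shn 1 S2)) :=
    ratRing_mono Set.subset_union_right (rescale_mem (shn_pos hS2) (rescale_mem hS2 hz2))
  exact (ratRing K _).mul_mem (C_mem _ _) ((ratRing K _).sub_mem ((ratRing K _).mul_mem
    ((ratRing K _).add_mem ((ratRing K _).mul_mem (C_mem _ _) (C_mem _ _)) (C_mem _ _)) m1) m2)

theorem itr_const (f : MvPolynomial (Fin n) K) (hf : constantCoeff f = 0) :
    ∀ j : ℕ, constantCoeff (itr f j) = 0
  | 0 => hf
  | j + 1 => by
    show constantCoeff (addyz (itr f j)) = 0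
    rw [addyz, map_add, map_mul, constantCoeff_X, zero_mul, add_zero, constantCoeff_rename]
    exact itr_const f hf j

/-- **Descent**, at the origin. -/
theorem descendL (f : MvPolynomial (Fin n) K) (hf : constantCoeff f = 0)
    {E : Set (AlgebraicClosure K)} (hE : Good E) :
    ∀ (κ : ℕ) (S1 S2 : Set (ℤ × ℤ)), (∀ p ∈ S1, 0 < p.2) → (∀ p ∈ S2, 0 < p.2) →
      fst' K * zetaG (itr f κ) {0} E ∈ ratRing K S1 →
      fst' K * zetaG (addyz (itr f κ)) {0} E ∈ ratRing K S2 →
      fst' K * zetaG f {0} E ∈ ratRing K (shn κ S1 ∪ shn (κ + 1) S2) := by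
  intro κ
  induction κ with
  | zero =>
    intro S1 S2 _ _ hz1 _
    refine ratRing_mono ?_ hz1
    intro p hp
    refine Or.inl ⟨p, hp, ?_⟩
    simp
  | succ κ ih =>
    intro S1 S2 hS1 hS2 hz1 hz2
    have h3 := stepL (itr f κ) (itr_const f hf κ) hE hS1 hS2 hz1 hz2
    have h4 := ih (shn 1 S1 ∪ shn 1 (shn 1 S2)) S1 ?_ hS1 h3 hz1
    · rw [shn_union, shn_shn, shn_shn, shn_shn] at h4
      refine ratRing_mono ?_ h4
      rintro p ((hp | hp) | hp)
      · exact Or.inl hp
      · right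
        rw [show κ + (1 + 1) = κ + 1 + 1 by ring] at hp
        exact hp
      · exact Or.inl hp
    · rintro p (hp | hp)
      · exact shn_pos hS1 p hp
      · exact shn_pos (shn_pos hS2) p hp

end

end Pool.Agent.Run7.h768.CS
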