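import Pool.Agent.Run7.h768.CS.AcC

/-!
# The local zeta function with angular component one
-/

set_option autoImplicit false
set_option linter.unusedSectionVars false

namespace Pool.Agent.Run7.h768.CS

open MvPolynomial Pool.Agent.W428.MOT Pool.Agent.N101.CB Pool.Agent.Y229.MS
open Pool.Agent.W375.MG (JetG zetaG Good ratRing_mono good_one)

theorem cls_empty {K : Type} [Field K] [CharZero K] (ι : Type) [Fintype ι] :
    cls ι (∅ : Set (Pt K ι)) = 0 := by
  obtain ⟨M₀, hM₀⟩ := Pool.Agent.W417.MT.K0.main K
  rw [← hM₀, Pool.Agent.W375.MT.chi_empty]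

/-- the local zeta function at the origin -/
theorem zeta_zero {K : Type} [Field K] [CharZero K] {n : ℕ} (f : MvPolynomial (Fin n) K)
    (hf : constantCoeff f = 0) : zeta f 0 = zetaG f {0} {1} := by
  ext N
  rw [zeta, zetaG, PowerSeries.coeff_mk, PowerSeries.coeff_mk]
  by_cases hN : N = 0
  · subst hN
    rw [if_pos rfl, jet_zero f (zero_aeval f hf) (by simp), cls_empty, map_zero, zero_mul]
  · rw [if_neg hN]
    congr 3
    ext z
    simp only [Jet, JetG, Set.mem_ofPred_eq, Set.mem_singleton_iff]
    constructor
    · rintro ⟨h1, h2⟩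
      refine ⟨?_, fun j hj => ?_, ?_⟩
      · funext i
        rw [h1 i]
        exact map_zero _
      · rw [h2 j hj.le, if_neg hj.ne]
      · rw [h2 N le_rfl, if_pos rfl]
    · rintro ⟨h1, h2, h3⟩
      refine ⟨fun i => ?_, fun j hj => ?_⟩
      · have := congrFun h1 i
        rw [this]
        exact (map_zero _).symm
      · by_cases h : j = N
        · rw [if_pos h, h, h3]
        · rw [if_neg h, h2 j (by omega)]

end Pool.Agent.Run7.h768.CS
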