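import Pool.Agent.Run7.h768.CS.Red
import Pool.Agent.N101.CB.Main
import Pool.Agent.N101.CB.Form

/-!
# Elementary automorphisms and the step `f ↦ f + (t + v(x, w)) (w - u(x))`
-/

set_option autoImplicit false

namespace Pool.Agent.Run7.h768.CS

open MvPolynomial Pool.Agent.W428.MOT Pool.Agent.N101.CB

section
variable {K : Type} [Field K] {n : ℕ}

/-- `p` does not depend on the variable `x_i` -/
def Fr (i : Fin n) (p : MvPolynomial (Fin n) K) : Prop :=
  ∀ q : MvPolynomial (Fin n) K, aeval (Function.update X i q) p = p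

theorem fr_rename {m : ℕ} (e : Fin m → Fin n) {i : Fin n} (h : ∀ j, e j ≠ i)
    (p : MvPolynomial (Fin m) K) : Fr i (rename e p) := by
  intro q
  rw [aeval_rename]
  have h1 : Function.update (X : Fin n → MvPolynomial (Fin n) K) i q ∘ e = X ∘ e := by
    funext j
    exact Function.update_of_ne (h j) _ _
  rw [h1, ← aeval_rename, aeval_X_left_apply]

/-- `x_i ↦ x_i + p` -/
noncomputable def elH (i : Fin n) (p : MvPolynomial (Fin n) K) :
    MvPolynomial (Fin n) K →ₐ[K] MvPolynomial (Fin n) K :=
  aeval (Function.update X i (X i + p))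

theorem elH_self (i : Fin n) (p : MvPolynomial (Fin n) K) : elH i p (X i) = X i + p := by
  unfold elH
  rw [aeval_X, Function.update_self]

theorem elH_ne {i j : Fin n} (h : j ≠ i) (p : MvPolynomial (Fin n) K) :
    elH i p (X j) = X j := by
  unfold elH
  rw [aeval_X, Function.update_of_ne h]

theorem elH_fr {i : Fin n} (p : MvPolynomial (Fin n) K) {q : MvPolynomial (Fin n) K}
    (hq : Fr i q) : elH i p q = q := hq _

theorem elH_comp {i : Fin n} {p p' : MvPolynomial (Fin n) K} (hp' : Fr i p') (h : p + p' = 0) :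
    (elH i p).comp (elH i p') = AlgHom.id K _ := by
  apply MvPolynomial.algHom_ext
  intro j
  rw [AlgHom.comp_apply, AlgHom.id_apply]
  by_cases hj : j = i
  · subst hj
    rw [elH_self, map_add, elH_self, elH_fr p hp', add_assoc, h, add_zero]
  · rw [elH_ne hj, elH_ne hj]

theorem Fr.neg {i : Fin n} {p : MvPolynomial (Fin n) K} (h : Fr i p) : Fr i (-p) := by
  intro q
  rw [map_neg, h q]

/-- the elementary automorphism `x_i ↦ x_i + p`, `p` not depending on `x_i` -/
noncomputable def elE (i : Fin n) (p : MvPolynomial (Fin n) K) (hp : Fr i p) :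
    MvPolynomial (Fin n) K ≃ₐ[K] MvPolynomial (Fin n) K :=
  AlgEquiv.ofAlgHom (elH i p) (elH i (-p)) (elH_comp hp.neg (add_neg_cancel p))
    (elH_comp hp (neg_add_cancel p))

theorem elE_apply (i : Fin n) (p : MvPolynomial (Fin n) K) (hp : Fr i p)
    (g : MvPolynomial (Fin n) K) : elE i p hp g = elH i p g := rfl

theorem fr_u (u : MvPolynomial (Fin n) K) : Fr (vw n) (rename (Fin.castAdd 2) (-u)) :=
  fr_rename _ (fun j => castAdd_ne_w j) _

theorem fr_v (v : MvPolynomial (Fin (n + 1)) K) : Fr (vt n) (rename (xw n) v) :=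
  fr_rename _ (fun j => by
    refine Fin.lastCases ?_ (fun j => ?_) j
    · rw [xw_last]
      exact t_ne_w.symm
    · rw [xw_castSucc]
      exact castAdd_ne_t j) _

theorem elH_rename {m : ℕ} (e : Fin m → Fin n) {i : Fin n} (h : ∀ j, e j ≠ i)
    (q : MvPolynomial (Fin n) K) (p : MvPolynomial (Fin m) K) :
    elH i q (rename e p) = rename e p := elH_fr q (fr_rename e h p)

/-- **The step is the composition of the stabilisation and of two elementary automorphisms.** -/
theorem stq_eq (f u : MvPolynomial (Fin n) K) (v : MvPolynomial (Fin (n + 1)) K) :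
    elE (vt n) (rename (xw n) v) (fr_v v)
      (elE (vw n) (rename (Fin.castAdd 2) (-u)) (fr_u u) (stp f 0 0)) = stq f u v := by
  unfold stp stq
  rw [elE_apply, elE_apply, map_zero, add_zero, sub_zero, map_add, map_mul,
    elH_rename _ (fun j => castAdd_ne_w j), elH_self, elH_ne t_ne_w, map_add, map_mul, map_add,
    elH_rename _ (fun j => castAdd_ne_t j), elH_rename _ (fun j => castAdd_ne_t j), elH_self,
    elH_ne t_ne_w.symm, map_neg, sub_eq_add_neg]

/-! ### invariance -/

/-- A property of polynomials which is invariant under the elementary automorphisms which fix the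
origin and descends along `f ↦ f + t w` descends along the steps. -/
theorem step_of (P : ∀ n : ℕ, MvPolynomial (Fin n) K → Prop)
    (h1 : ∀ (n : ℕ) (g p : MvPolynomial (Fin n) K) (i : Fin n) (hp : Fr i p),
      constantCoeff p = 0 → P n (elE i p hp g) → P n g)
    (h2 : ∀ (n : ℕ) (f : MvPolynomial (Fin n) K), P (n + 2) (stp f 0 0) → P n f)
    (n : ℕ) (f u : MvPolynomial (Fin n) K) (v : MvPolynomial (Fin (n + 1)) K)
    (hu : constantCoeff u = 0) (hv : constantCoeff v = 0) (h : P (n + 2) (stq f u v)) :
    P n f := by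
  rw [← stq_eq] at h
  exact h2 n f (h1 _ _ _ _ _ (by rw [constantCoeff_rename, map_neg, hu, neg_zero])
    (h1 _ _ _ _ _ (by rw [constantCoeff_rename, hv]) h))

theorem const_aeval (g : MvPolynomial (Fin n) K) :
    constantCoeff g = aeval (fun _ => (0 : K)) g := by
  have h := aeval_zero (R := K) (S₁ := K) g
  have h2 : (fun _ : Fin n => (0 : K)) = 0 := rfl
  rw [h2, h]
  rfl

theorem el_const {i : Fin n} {p : MvPolynomial (Fin n) K} (hp0 : constantCoeff p = 0)
    (g : MvPolynomial (Fin n) K) : constantCoeff (elH i p g) = constantCoeff g := by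
  induction g using MvPolynomial.induction_on with
  | C a =>
    unfold elH
    rw [aeval_C]
    rfl
  | add p q hp hq => rw [map_add, map_add, map_add, hp, hq]
  | mul_X q j hq =>
    rw [map_mul, map_mul, map_mul, hq]
    congr 1
    by_cases hj : j = i
    · subst hj
      rw [elH_self, map_add, hp0, add_zero]
    · rw [elH_ne hj]

theorem el_deg {i : Fin n} {p : MvPolynomial (Fin n) K} (hp : Fr i p)
    {g : MvPolynomial (Fin n) K} (hg : g.totalDegree ≠ 0) : (elE i p hp g).totalDegree ≠ 0 := by
  intro h
  apply hg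
  rw [totalDegree_eq_zero_iff_eq_C] at h
  have h1 := congrArg (elE i p hp).symm h
  rw [AlgEquiv.symm_apply_apply] at h1
  rw [h1, show (elE i p hp).symm (C (coeff 0 ((elE i p hp) g))) =
    C (coeff 0 ((elE i p hp) g)) from (elE i p hp).symm.commutes _, totalDegree_C]

theorem zt_el_univ [CharZero K] {i : Fin n} {p : MvPolynomial (Fin n) K} (hp : Fr i p)
    (g : MvPolynomial (Fin n) K) : zt (elE i p hp g) Set.univ = zt g Set.univ := by
  obtain ⟨M, hM⟩ := clM_meas K
  have h := fun N => Pool.Agent.Z864.MS.three K _ M (elE i p hp) g Set.univ (Un K) Constr.univ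
    ce_Un N
  ext N
  rw [zt, zt, PowerSeries.coeff_mk, PowerSeries.coeff_mk, ← hM, ← hM, ← h N]
  simp only [Set.mem_univ, Set.ofPred_true]

theorem el_zero {i : Fin n} {p : MvPolynomial (Fin n) K} (hp : Fr i p)
    (hp0 : constantCoeff p = 0) :
    {w : Pt K (Fin n) | (fun j => aeval w (elE i p hp (X j))) ∈ ({0} : Set (Pt K (Fin n)))} =
      {0} := by
  have hz : ∀ w : Pt K (Fin n), (∀ j, j ≠ i → w j = 0) → aeval w p = 0 := by
    intro w hw
    have h1 := hp 0
    have h2 := congrArg (aeval w) h1
    rw [← h2]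
    have h3 : (aeval w).comp (aeval (Function.update X i 0) :
        MvPolynomial (Fin n) K →ₐ[K] MvPolynomial (Fin n) K) = aeval (fun _ => 0) := by
      apply MvPolynomial.algHom_ext
      intro j
      rw [AlgHom.comp_apply, aeval_X, aeval_X]
      by_cases hj : j = i
      · subst hj
        rw [Function.update_self, map_zero]
      · rw [Function.update_of_ne hj, aeval_X, hw j hj]
    have h4 := DFunLike.congr_fun h3 p
    rw [AlgHom.comp_apply] at h4
    rw [h4]
    have h5 := aeval_zero (R := K) (S₁ := AlgebraicClosure K) p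
    rw [hp0, map_zero] at h5
    exact h5
  ext w
  simp only [Set.mem_ofPred_eq, Set.mem_singleton_iff]
  constructor
  · intro h
    have h1 : ∀ j, j ≠ i → w j = 0 := by
      intro j hj
      have h2 := congrFun h j
      rw [elE_apply, elH_ne hj, aeval_X] at h2
      exact h2
    funext j
    by_cases hj : j = i
    · subst hj
      have h2 := congrFun h j
      rw [elE_apply, elH_self, map_add, aeval_X, hz w h1, add_zero] at h2
      exact h2
    · exact h1 j hj
  · rintro rfl
    funext j
    by_cases hj : j = i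
    · subst hj
      rw [elE_apply, elH_self, map_add, aeval_X, hz 0 (fun _ _ => rfl), add_zero]
    · rw [elE_apply, elH_ne hj, aeval_X]

theorem zt_el_zero [CharZero K] {i : Fin n} {p : MvPolynomial (Fin n) K} (hp : Fr i p)
    (hp0 : constantCoeff p = 0) (g : MvPolynomial (Fin n) K) :
    zt (elE i p hp g) {0} = zt g {0} := by
  obtain ⟨M, hM⟩ := clM_meas K
  have h := fun N => Pool.Agent.Z864.MS.three K _ M (elE i p hp) g {0} (Un K) constr_zero
    ce_Un N
  ext N
  rw [zt, zt, PowerSeries.coeff_mk, PowerSeries.coeff_mk, ← hM, ← hM, ← h N, el_zero hp hp0]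

end

section
variable {n : ℕ}

open Pool.Agent.H628R4.TP (IsBFunction IsLocalBFunction)

theorem b_el {i : Fin n} {p : MvPolynomial (Fin n) ℂ} (hp : Fr i p) (g : MvPolynomial (Fin n) ℂ)
    {b : Polynomial ℂ} (hb : IsBFunction g b) : IsBFunction (elE i p hp g) b := by
  have h := Pool.Agent.W578.SI.b_transfer (elE i p hp) (BGl.cj_all _) 1 one_ne_zero g b hb
  rwa [C_1, one_mul] at h

theorem el_coord {i : Fin n} {p : MvPolynomial (Fin n) ℂ} (hp : Fr i p) :
    Pool.Agent.Y229.GL.IsCoord (fun j => (elH i p (X j) : MvPowerSeries (Fin n) ℂ)) := by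
  unfold Pool.Agent.Y229.GL.IsCoord
  have hpi : coeff (Finsupp.single i 1) p = 0 := by
    have h1 := hp 0
    rw [← h1]
    have h2 : ∀ q : MvPolynomial (Fin n) ℂ,
        coeff (Finsupp.single i 1) (aeval (Function.update X i (0 : MvPolynomial (Fin n) ℂ)) q) = 0 := by
      intro q
      rw [MvPolynomial.aeval_def, eval₂_eq', coeff_sum]
      refine Finset.sum_eq_zero fun d _ => ?_
      rw [MvPolynomial.algebraMap_eq, coeff_C_mul]
      by_cases hd : d i = 0
      · have h3 : (∏ j, Function.update X i (0 : MvPolynomial (Fin n) ℂ) j ^ d j) =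
            monomial d 1 := by
          have h4 : (monomial d (1 : ℂ)) = ∏ j, (X j : MvPolynomial (Fin n) ℂ) ^ d j := by
            rw [monomial_eq, C_1, one_mul, Finsupp.prod_fintype _ _ (fun j => pow_zero _)]
          rw [h4]
          refine Finset.prod_congr rfl fun j _ => ?_
          by_cases hj : j = i
          · rw [hj, hd, pow_zero, pow_zero]
          · rw [Function.update_of_ne hj]
        rw [h3, coeff_monomial, if_neg, mul_zero]
        intro h5
        rw [h5, Finsupp.single_eq_same] at hd
        exact one_ne_zero hd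
      · have h3 : (∏ j, Function.update X i (0 : MvPolynomial (Fin n) ℂ) j ^ d j) = 0 := by
          refine Finset.prod_eq_zero (Finset.mem_univ i) ?_
          rw [Function.update_self, zero_pow hd]
        rw [h3, coeff_zero, mul_zero]
    exact h2 p
  have h3 : (Matrix.of fun j k => MvPowerSeries.coeff (Finsupp.single k 1)
      (elH i p (X j) : MvPowerSeries (Fin n) ℂ)) =
      (1 : Matrix (Fin n) (Fin n) ℂ).updateRow i
        (fun k => coeff (Finsupp.single k 1) (X i + p)) := by
    ext j k
    rw [Matrix.of_apply, MvPolynomial.coeff_coe]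
    by_cases hj : j = i
    · subst hj
      rw [Matrix.updateRow_self, elH_self]
    · rw [Matrix.updateRow_ne hj, elH_ne hj, BLx_coeff, Matrix.one_apply]
  rw [h3, ← Matrix.cramer_transpose_apply, Matrix.transpose_one, Matrix.cramer_one]
  show coeff (Finsupp.single i 1) (X i + p) ≠ 0
  rw [coeff_add, hpi, add_zero, BLx_coeff, if_pos rfl]
  exact one_ne_zero
where
  BLx_coeff {a b : Fin n} :
      coeff (Finsupp.single b 1) (X a : MvPolynomial (Fin n) ℂ) = if a = b then 1 else 0 := by
    classical
    rw [coeff_X]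
    by_cases h : a = b
    · subst h
      simp
    · rw [if_neg h, if_neg]
      intro h2
      exact h (Finsupp.single_left_injective one_ne_zero h2)

theorem lb_el {i : Fin n} {p : MvPolynomial (Fin n) ℂ} (hp : Fr i p)
    (hp0 : constantCoeff p = 0) (g : MvPolynomial (Fin n) ℂ) {b : Polynomial ℂ}
    (hb : IsLocalBFunction g b) : IsLocalBFunction (elE i p hp g) b := by
  have h0 : ∀ j, MvPowerSeries.constantCoeff (elH i p (X j) : MvPowerSeries (Fin n) ℂ) = 0 := by
    intro j
    have h1 : ∀ q : MvPolynomial (Fin n) ℂ,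
        MvPowerSeries.constantCoeff (q : MvPowerSeries (Fin n) ℂ) = constantCoeff q := by
      intro q
      rw [← MvPowerSeries.coeff_zero_eq_constantCoeff_apply, MvPolynomial.coeff_coe,
        MvPolynomial.constantCoeff_eq]
    rw [h1, el_const hp0, constantCoeff_X]
  have h4 := Pool.Agent.Y229.PS.coordB (el_coord hp) h0 (Pool.Agent.Y229.PS.formal_of_local hb)
  have hs := MvPowerSeries.hasSubst_of_constantCoeff_zero h0
  have h1 : ∀ q : MvPolynomial (Fin n) ℂ,
      MvPolynomial.aeval (fun j => (elH i p (X j) : MvPowerSeries (Fin n) ℂ)) q =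
      ((elH i p q : MvPolynomial (Fin n) ℂ) : MvPowerSeries (Fin n) ℂ) := by
    intro q
    induction q using MvPolynomial.induction_on with
    | C a =>
      rw [aeval_C]
      unfold elH
      rw [aeval_C, MvPolynomial.algebraMap_eq, MvPolynomial.coe_C]
      rfl
    | add p q hp hq => rw [map_add, map_add, hp, hq, MvPolynomial.coe_add]
    | mul_X p i hp => rw [map_mul, map_mul, hp, aeval_X, MvPolynomial.coe_mul]
  rw [MvPowerSeries.subst_coe, h1] at h4
  exact Pool.Agent.Y229.PS.local_of_formal h4

end

end Pool.Agent.Run7.h768.CS
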