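import Mathlib

/-!
# The number of solutions of `t w = c` in `ℤ / p ^ m`
-/

set_option autoImplicit false
set_option linter.unusedSectionVars false

namespace Pool.Agent.Run7.h768.CZ

section
variable {p : ℕ} [hp : Fact p.Prime] {m : ℕ}

theorem card_dvd (j : ℕ) (hj : j ≤ m) : Nat.card {t : ZMod (p ^ m) // (p : ZMod (p ^ m)) ^ j ∣ t} =
    p ^ (m - j) := by
  have hne : p ^ m ≠ 0 := pow_ne_zero _ hp.1.ne_zero
  have : NeZero (p ^ m) := ⟨hne⟩
  have h1 : Nat.card {t : ZMod (p ^ m) // (p : ZMod (p ^ m)) ^ j ∣ t} =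
      Nat.card (AddSubgroup.zmultiples ((p ^ j : ℕ) : ZMod (p ^ m))) := by
    refine Nat.card_congr (Equiv.subtypeEquivRight fun t => ?_)
    rw [AddSubgroup.mem_zmultiples_iff]
    constructor
    · rintro ⟨s, rfl⟩
      refine ⟨(s.val : ℤ), ?_⟩
      rw [zsmul_eq_mul, Int.cast_natCast, ZMod.natCast_zmod_val, Nat.cast_pow, mul_comm]
    · rintro ⟨k, rfl⟩
      rw [zsmul_eq_mul, Nat.cast_pow]
      exact Dvd.intro_left _ rfl
  rw [h1, Nat.card_zmultiples, ZMod.addOrderOf_coe _ hne, Nat.gcd_eq_right (pow_dvd_pow p hj),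
    Nat.pow_div hj hp.1.pos]

theorem card_ker (j : ℕ) (hj : j ≤ m) :
    Nat.card {w : ZMod (p ^ m) // (p : ZMod (p ^ m)) ^ j * w = 0} = p ^ j := by
  have hne : p ^ m ≠ 0 := pow_ne_zero _ hp.1.ne_zero
  have : NeZero (p ^ m) := ⟨hne⟩
  set φ : ZMod (p ^ m) →+ ZMod (p ^ m) := AddMonoidHom.mulLeft ((p : ZMod (p ^ m)) ^ j) with hφ
  have h1 := AddSubgroup.card_eq_card_quotient_mul_card_addSubgroup φ.ker
  have h2 : Nat.card (ZMod (p ^ m) ⧸ φ.ker) = Nat.card φ.range :=
    Nat.card_congr (QuotientAddGroup.quotientKerEquivRange φ).toEquiv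
  have h3 : Nat.card φ.range = p ^ (m - j) := by
    rw [← card_dvd j hj]
    refine Nat.card_congr (Equiv.subtypeEquivRight fun t => ?_)
    rw [AddMonoidHom.mem_range]
    constructor
    · rintro ⟨s, rfl⟩
      exact ⟨s, rfl⟩
    · rintro ⟨s, rfl⟩
      exact ⟨s, rfl⟩
  have h4 : Nat.card φ.ker = Nat.card {w : ZMod (p ^ m) // (p : ZMod (p ^ m)) ^ j * w = 0} := by
    refine Nat.card_congr (Equiv.subtypeEquivRight fun t => ?_)
    rw [AddMonoidHom.mem_ker]
    rfl
  rw [h2, h3, h4, Nat.card_zmod] at h1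
  have h5 : 0 < p ^ (m - j) := pow_pos hp.1.pos _
  apply Nat.eq_of_mul_eq_mul_left h5
  rw [← h1, ← pow_add, Nat.sub_add_cancel hj]

open Classical in
theorem card_pow_mul (j : ℕ) (hj : j ≤ m) (c : ZMod (p ^ m)) :
    Nat.card {w : ZMod (p ^ m) // (p : ZMod (p ^ m)) ^ j * w = c} =
      if (p : ZMod (p ^ m)) ^ j ∣ c then p ^ j else 0 := by
  split_ifs with h
  · obtain ⟨w0, rfl⟩ := h
    rw [← card_ker (m := m) j hj]
    refine Nat.card_congr ((Equiv.subRight w0).subtypeEquiv fun w => ?_)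
    rw [Equiv.subRight_apply, mul_sub, sub_eq_zero]
  · have : IsEmpty {w : ZMod (p ^ m) // (p : ZMod (p ^ m)) ^ j * w = c} :=
      ⟨fun w => h ⟨w.1, w.2.symm⟩⟩
    exact Nat.card_of_isEmpty

open Classical in
/-- the valuation, `m` for `0` -/
noncomputable def vv (t : ZMod (p ^ m)) : ℕ :=
  Nat.findGreatest (fun i => (p : ZMod (p ^ m)) ^ i ∣ t) m

theorem vv_le (t : ZMod (p ^ m)) : vv t ≤ m := Nat.findGreatest_le m

theorem vv_dvd (t : ZMod (p ^ m)) : (p : ZMod (p ^ m)) ^ vv t ∣ t := by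
  classical
  exact Nat.findGreatest_spec (P := fun i => (p : ZMod (p ^ m)) ^ i ∣ t) (Nat.zero_le m)
    (by rw [pow_zero]; exact one_dvd t)

theorem le_vv {t : ZMod (p ^ m)} {i : ℕ} (hi : i ≤ m) : (p : ZMod (p ^ m)) ^ i ∣ t ↔ i ≤ vv t := by
  classical
  constructor
  · intro h
    exact Nat.le_findGreatest hi h
  · intro h
    exact (pow_dvd_pow _ h).trans (vv_dvd t)

theorem exists_unit (t : ZMod (p ^ m)) : ∃ u : (ZMod (p ^ m))ˣ,
    t = (u : ZMod (p ^ m)) * (p : ZMod (p ^ m)) ^ vv t := by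
  have hne : p ^ m ≠ 0 := pow_ne_zero _ hp.1.ne_zero
  have : NeZero (p ^ m) := ⟨hne⟩
  obtain ⟨s, hs⟩ := vv_dvd t
  by_cases hm : vv t = m
  · have h0 : (p : ZMod (p ^ m)) ^ m = 0 := by
      have := ZMod.natCast_self (p ^ m)
      rwa [Nat.cast_pow] at this
    refine ⟨1, ?_⟩
    rw [hm, h0] at hs
    rw [hm, h0, mul_zero, hs, zero_mul]
  · have hlt : vv t < m := lt_of_le_of_ne (vv_le t) hm
    have hcop : s.val.Coprime (p ^ m) := by
      refine Nat.Coprime.pow_right _ ?_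
      rw [Nat.coprime_comm, hp.1.coprime_iff_not_dvd]
      rintro ⟨k, hk⟩
      have h1 : (p : ZMod (p ^ m)) ^ (vv t + 1) ∣ t := by
        refine ⟨k, ?_⟩
        have h2 : s = (p : ZMod (p ^ m)) * k := by
          rw [← Nat.cast_mul, ← hk, ZMod.natCast_zmod_val]
        conv_lhs => rw [hs, h2]
        ring
      have h3 := (le_vv (t := t) hlt).1 h1
      omega
    refine ⟨ZMod.unitOfCoprime s.val hcop, ?_⟩
    rw [ZMod.coe_unitOfCoprime, ZMod.natCast_zmod_val, mul_comm]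
    exact hs

open Classical in
theorem card_fix (t c : ZMod (p ^ m)) : Nat.card {w : ZMod (p ^ m) // t * w = c} =
    if (p : ZMod (p ^ m)) ^ vv t ∣ c then p ^ vv t else 0 := by
  obtain ⟨u, hu⟩ := exists_unit t
  have h1 : Nat.card {w : ZMod (p ^ m) // t * w = c} =
      Nat.card {w : ZMod (p ^ m) // (p : ZMod (p ^ m)) ^ vv t * w = ((u⁻¹ : (ZMod (p ^ m))ˣ) :
        ZMod (p ^ m)) * c} := by
    refine Nat.card_congr (Equiv.subtypeEquivRight fun w => ?_)
    constructor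
    · intro h
      rw [← h]
      conv_rhs => rw [hu]
      rw [mul_assoc, ← mul_assoc, Units.inv_mul, one_mul]
    · intro h
      conv_lhs => rw [hu]
      rw [mul_assoc, h, ← mul_assoc, Units.mul_inv, one_mul]
  rw [h1, card_pow_mul _ (vv_le t)]
  have h2 : (p : ZMod (p ^ m)) ^ vv t ∣ ((u⁻¹ : (ZMod (p ^ m))ˣ) : ZMod (p ^ m)) * c ↔
      (p : ZMod (p ^ m)) ^ vv t ∣ c := by
    constructor
    · intro h
      have h3 := h.mul_left (u : ZMod (p ^ m))
      rwa [← mul_assoc, Units.mul_inv, one_mul] at h3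
    · intro h
      exact h.mul_left _
  rw [if_congr h2 rfl rfl]

/-- the number of elements with given valuation -/
theorem card_vv (j : ℕ) (hj : j < m) :
    (Nat.card {t : ZMod (p ^ m) // vv t = j} : ℤ) = p ^ (m - j) - p ^ (m - (j + 1)) := by
  have hne : p ^ m ≠ 0 := pow_ne_zero _ hp.1.ne_zero
  have : NeZero (p ^ m) := ⟨hne⟩
  classical
  have h1 : Nat.card {t : ZMod (p ^ m) // (p : ZMod (p ^ m)) ^ j ∣ t} =
      Nat.card {t : ZMod (p ^ m) // vv t = j} +
        Nat.card {t : ZMod (p ^ m) // (p : ZMod (p ^ m)) ^ (j + 1) ∣ t} := by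
    rw [← Nat.card_sum]
    refine Nat.card_congr ?_
    have h2 : ∀ t : ZMod (p ^ m), (p : ZMod (p ^ m)) ^ j ∣ t ↔
        vv t = j ∨ (p : ZMod (p ^ m)) ^ (j + 1) ∣ t := by
      intro t
      rw [le_vv hj.le, le_vv hj]
      omega
    have h3 : Disjoint (fun t : ZMod (p ^ m) => vv t = j)
        (fun t => (p : ZMod (p ^ m)) ^ (j + 1) ∣ t) := by
      rw [Pi.disjoint_iff]
      intro t
      rw [disjoint_iff_inf_le]
      rintro ⟨h4, h5⟩
      rw [le_vv hj] at h5
      omega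
    exact (Equiv.subtypeEquivRight h2).trans (subtypeOrEquiv _ _ h3)
  rw [card_dvd j hj.le, card_dvd (j + 1) hj] at h1
  have h2 : ((p ^ (m - j) : ℕ) : ℤ) = _ := congrArg Nat.cast h1
  push_cast at h2
  linarith

theorem card_vv_m : Nat.card {t : ZMod (p ^ m) // vv t = m} = 1 := by
  have h1 : Nat.card {t : ZMod (p ^ m) // vv t = m} =
      Nat.card {t : ZMod (p ^ m) // (p : ZMod (p ^ m)) ^ m ∣ t} := by
    refine Nat.card_congr (Equiv.subtypeEquivRight fun t => ?_)
    rw [le_vv le_rfl]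
    have := vv_le t
    omega
  rw [h1, card_dvd m le_rfl, Nat.sub_self, pow_zero]

open Classical in
/-- **The number of solutions of `t w = c`.** -/
theorem card_prod (c : ZMod (p ^ m)) :
    (Nat.card {z : ZMod (p ^ m) × ZMod (p ^ m) // z.1 * z.2 = c} : ℤ) =
      ∑ j ∈ Finset.range (m + 1), (if (p : ZMod (p ^ m)) ^ j ∣ c then
        (if j = m then (p : ℤ) ^ m else (p : ℤ) ^ m - (p : ℤ) ^ (m - 1)) else 0) := by
  have hne : p ^ m ≠ 0 := pow_ne_zero _ hp.1.ne_zero
  have : NeZero (p ^ m) := ⟨hne⟩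
  have h1 : Nat.card {z : ZMod (p ^ m) × ZMod (p ^ m) // z.1 * z.2 = c} =
      ∑ t : ZMod (p ^ m), Nat.card {w : ZMod (p ^ m) // t * w = c} := by
    rw [← Nat.card_sigma]
    exact Nat.card_congr
      { toFun := fun z => ⟨z.1.1, z.1.2, z.2⟩
        invFun := fun z => ⟨(z.1, z.2.1), z.2.2⟩
        left_inv := fun _ => rfl
        right_inv := fun _ => rfl }
  rw [h1]
  push_cast
  simp only [card_fix]
  have h2 : ∀ t ∈ (Finset.univ : Finset (ZMod (p ^ m))), vv t ∈ Finset.range (m + 1) := by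
    intro t _
    rw [Finset.mem_range]
    have := vv_le t
    omega
  rw [← Finset.sum_fiberwise_of_maps_to h2]
  refine Finset.sum_congr rfl fun j hj => ?_
  have h3 : ∀ t ∈ (Finset.univ : Finset (ZMod (p ^ m))).filter (fun t => vv t = j),
      (((if (p : ZMod (p ^ m)) ^ vv t ∣ c then p ^ vv t else 0 : ℕ)) : ℤ) =
        if (p : ZMod (p ^ m)) ^ j ∣ c then (p : ℤ) ^ j else 0 := by
    intro t ht
    rw [(Finset.mem_filter.1 ht).2]
    push_cast
    rfl
  rw [Finset.sum_congr rfl h3, Finset.sum_const, nsmul_eq_mul]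
  have h4 : (((Finset.univ : Finset (ZMod (p ^ m))).filter (fun t => vv t = j)).card : ℤ) =
      (Nat.card {t : ZMod (p ^ m) // vv t = j} : ℤ) := by
    rw [Nat.card_eq_fintype_card, Fintype.card_subtype]
  rw [h4]
  split_ifs with h5 h6
  · subst h6
    rw [card_vv_m, Nat.cast_one, one_mul]
  · have h7 : j < m := by
      rw [Finset.mem_range] at hj
      omega
    rw [card_vv j h7, sub_mul, ← pow_add, ← pow_add]
    congr 2
    · omega
    · omega
  · rw [mul_zero]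

end

end Pool.Agent.Run7.h768.CZ
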