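import Pool.Agent.Run7.h768.CS.Rel

/-!
# The motivic conjectures: descent
-/

set_option autoImplicit false

namespace Pool.Agent.Run7.h768.CS

open MvPolynomial Pool.Agent.W428.MOT Pool.Agent.N101.CB
open Pool.Agent.H628R4.TP (IsBFunction IsLocalBFunction)

theorem isPole_Zmot {n : ℕ} (f : MvPolynomial (Fin n) ℂ) (W : Set (Pt ℂ (Fin n))) (s₀ : ℚ) :
    IsPole (Zmot f W) s₀ ↔ IsPole (zt f W) s₀ := by
  unfold IsPole Zmot
  rw [not_iff_not]
  constructor
  · intro h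
    have h1 := (ratRing ℂ {p : ℤ × ℤ | 0 < p.2 ∧ (p.1 : ℚ) / p.2 ≠ s₀}).mul_mem
      (Pool.Agent.W63.MTFin.C_mem _ (((Lu ℂ) ^ (n : ℤ) : (MK ℂ)ˣ) : MK ℂ)) h
    rw [← mul_assoc, ← map_mul, ← Units.val_mul, ← zpow_add, add_neg_cancel, zpow_zero,
      Units.val_one, map_one, one_mul] at h1
    exact h1
  · intro h
    exact (ratRing ℂ _).mul_mem (Pool.Agent.W63.MTFin.C_mem _ _) h

theorem conj_aux {s₀ : ℚ} (h0 : s₀ < 0) (κ : ℕ) (hκ : s₀ ≠ -1) {b c : Polynomial ℂ}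
    (hc : b = (Polynomial.X + 1) * c)
    (h : ((Polynomial.X + 1) * c.comp (Polynomial.X + Polynomial.C (κ : ℂ))).eval
      (((s₀ - κ : ℚ)) : ℂ) = 0) : b.eval (s₀ : ℂ) = 0 := by
  rw [hc, Polynomial.eval_mul]
  rw [Polynomial.eval_mul, Polynomial.eval_comp] at h
  rcases mul_eq_zero.1 h with h1 | h1
  · exfalso
    rw [Polynomial.eval_add, Polynomial.eval_X, Polynomial.eval_one] at h1
    have h2 : s₀ - κ + 1 = 0 := by exact_mod_cast h1
    rcases Nat.eq_zero_or_pos κ with h3 | h3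
    · apply hκ
      rw [h3] at h2
      push_cast at h2
      linarith
    · have h4 : (1 : ℚ) ≤ κ := by exact_mod_cast h3
      linarith
  · have h2 : (Polynomial.X + Polynomial.C (κ : ℂ)).eval ((s₀ - κ : ℚ) : ℂ) = (s₀ : ℂ) := by
      rw [Polynomial.eval_add, Polynomial.eval_X, Polynomial.eval_C]
      push_cast
      ring
    rw [h2] at h1
    rw [h1, mul_zero]

theorem exists_factor {b : Polynomial ℂ} (hb : b.eval (-1) = 0) :
    ∃ c : Polynomial ℂ, b = (Polynomial.X + 1) * c := by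
  obtain ⟨c, hc⟩ := Polynomial.dvd_iff_isRoot.2 (show b.IsRoot (-1) from hb)
  refine ⟨c, ?_⟩
  rw [hc, Polynomial.C_neg, Polynomial.C_1, sub_neg_eq_add]

/-- Q1 for `f`: every pole `s₀` of the motivic zeta function `Z^mot_f` is a root of every polynomial
`b` with `b(s) f ^ s = P(s) f ^ (s + 1)`, in particular of the Bernstein-Sato polynomial. (All the poles are
negative, by the formula with a resolution.) -/
def GlobalConj {n : ℕ} (f : MvPolynomial (Fin n) ℂ) : Prop :=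
  ∀ s₀ : ℚ, s₀ < 0 → IsPole (Zmot f Set.univ) s₀ →
    ∀ b : Polynomial ℂ, IsBFunction f b → b.eval (s₀ : ℂ) = 0

/-- Q2 for `f`: the same for the local zeta function `Z^mot_{f, 0}` and the local functional
equations at `0`. -/
def LocalConj {n : ℕ} (f : MvPolynomial (Fin n) ℂ) : Prop :=
  ∀ s₀ : ℚ, s₀ < 0 → IsPole (Zmot f {0}) s₀ →
    ∀ b : Polynomial ℂ, IsLocalBFunction f b → b.eval (s₀ : ℂ) = 0

theorem glob_of {n m : ℕ} {f : MvPolynomial (Fin n) ℂ} {F : MvPolynomial (Fin m) ℂ} {κ : ℕ}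
    (hf : f.totalDegree ≠ 0) (h : Rl f F κ) (hF : GlobalConj F) : GlobalConj f := by
  intro s₀ h0 h1 b hb
  obtain ⟨h2, h3⟩ := h.b hf b hb
  by_cases h4 : s₀ = -1
  · rw [h4]
    push_cast
    exact h2
  · obtain ⟨c, hc⟩ := exists_factor h2
    refine conj_aux h0 κ h4 hc (hF (s₀ - κ) ?_ ?_ _ (h3 c hc))
    · have : (0 : ℚ) ≤ κ := Nat.cast_nonneg κ
      linarith
    · rw [isPole_Zmot] at h1 ⊢
      exact h.pole s₀ h0 h4 h1

theorem loc_of {n m : ℕ} {f : MvPolynomial (Fin n) ℂ} {F : MvPolynomial (Fin m) ℂ} {κ : ℕ}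
    (hf : f.totalDegree ≠ 0) (hf0 : constantCoeff f = 0) (h : Rl f F κ) (hF : LocalConj F) :
    LocalConj f := by
  intro s₀ h0 h1 b hb
  obtain ⟨h2, h3⟩ := h.lb hf hf0 b hb
  by_cases h4 : s₀ = -1
  · rw [h4]
    push_cast
    exact h2
  · obtain ⟨c, hc⟩ := exists_factor h2
    refine conj_aux h0 κ h4 hc (hF (s₀ - κ) ?_ ?_ _ (h3 c hc))
    · have : (0 : ℚ) ≤ κ := Nat.cast_nonneg κ
      linarith
    · rw [isPole_Zmot] at h1 ⊢
      exact h.lpole hf0 s₀ h0 h4 h1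

end Pool.Agent.Run7.h768.CS
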