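import Pool.Agent.Run7.h768.CS.RelZ

/-!
# Poincare series: descent of the poles
-/

set_option autoImplicit false
set_option linter.unusedSectionVars false

namespace Pool.Agent.Run7.h768.CZ

open Polynomial
open Pool.Agent.W427.SMC
open Pool.Agent.H628R4.TP (IsBFunction)

/-- `P` is the expansion at `0` of a rational function, and `T₀` is a pole of this function (a root of its
reduced denominator). -/
def IsPoleAt (P : PowerSeries ℂ) (T₀ : ℂ) : Prop :=
  ∃ Φ : RatFunc ℂ, ((Φ.denom : ℂ[X]) : PowerSeries ℂ) * P = ((Φ.num : ℂ[X]) : PowerSeries ℂ) ∧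
    Φ.denom.eval T₀ = 0

theorem coe_ne {D : ℂ[X]} (h : D ≠ 0) : (D : PowerSeries ℂ) ≠ 0 := by
  intro h1
  exact h (Polynomial.coe_eq_zero_iff.1 h1)

theorem isPoleAt_iff (P : PowerSeries ℂ) (T₀ : ℂ) : IsPoleAt P T₀ ↔
    (∃ D N : ℂ[X], D ≠ 0 ∧ (D : PowerSeries ℂ) * P = (N : PowerSeries ℂ)) ∧
      ∀ D N : ℂ[X], (D : PowerSeries ℂ) * P = (N : PowerSeries ℂ) → D.eval T₀ = 0 := by
  constructor
  · rintro ⟨Φ, h1, h2⟩
    refine ⟨⟨Φ.denom, Φ.num, RatFunc.denom_ne_zero Φ, h1⟩, fun D N h3 => ?_⟩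
    have h4 : D * Φ.num = N * Φ.denom := by
      apply Polynomial.coe_injective ℂ
      rw [Polynomial.coe_mul, Polynomial.coe_mul, ← h1, ← h3]
      ring
    have h5 : Φ.denom ∣ D := by
      refine (RatFunc.isCoprime_num_denom Φ).symm.dvd_of_dvd_mul_right ?_
      rw [h4]
      exact dvd_mul_left _ _
    obtain ⟨E, rfl⟩ := h5
    rw [eval_mul, h2, zero_mul]
  · rintro ⟨⟨D, N, hD, h1⟩, h2⟩
    set Φ : RatFunc ℂ := algebraMap ℂ[X] (RatFunc ℂ) N / algebraMap ℂ[X] (RatFunc ℂ) D with hΦ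
    have h3 : D * Φ.num = N * Φ.denom := by
      have h4 := RatFunc.num_div_denom Φ
      have hd : algebraMap ℂ[X] (RatFunc ℂ) Φ.denom ≠ 0 := RatFunc.algebraMap_ne_zero
        (RatFunc.denom_ne_zero Φ)
      have hD' : algebraMap ℂ[X] (RatFunc ℂ) D ≠ 0 := RatFunc.algebraMap_ne_zero hD
      apply RatFunc.algebraMap_injective ℂ
      rw [map_mul, map_mul]
      rw [div_eq_iff hd] at h4
      rw [h4, hΦ]
      field_simp
    have h5 : ((Φ.denom : ℂ[X]) : PowerSeries ℂ) * P = ((Φ.num : ℂ[X]) : PowerSeries ℂ) := by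
      apply mul_left_cancel₀ (coe_ne hD)
      rw [← Polynomial.coe_mul, h3, Polynomial.coe_mul, ← h1]
      ring
    exact ⟨Φ, h5, h2 _ _ h5⟩

theorem coe_comp_C (b : ℂ) (D : ℂ[X]) :
    ((D.comp (C b * X) : ℂ[X]) : PowerSeries ℂ) = PowerSeries.rescale b (D : PowerSeries ℂ) := by
  ext n
  rw [Polynomial.coeff_coe, comp_C_mul_X_coeff, PowerSeries.coeff_rescale, Polynomial.coeff_coe,
    mul_comm]

/-- **Descent of the poles.** -/
theorem pole_descend {P Q : PowerSeries ℂ} {a q : ℂ} (ha : a ≠ 0) (hq : q ≠ 0)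
    (h : ((1 - C q⁻¹ * X : ℂ[X]) : PowerSeries ℂ) * Q =
      PowerSeries.rescale a (((1 - C q⁻¹ * X : ℂ[X]) : PowerSeries ℂ) * P)) {T₀ : ℂ} (hT : T₀ ≠ q)
    (hP : IsPoleAt P T₀) : IsPoleAt Q (a⁻¹ * T₀) := by
  rw [isPoleAt_iff] at hP ⊢
  obtain ⟨⟨D, N, hD, h1⟩, h2⟩ := hP
  refine ⟨⟨D.comp (C a * X) * (1 - C q⁻¹ * X), (N * (1 - C q⁻¹ * X)).comp (C a * X), ?_, ?_⟩,
    fun D N h3 => ?_⟩
  · refine mul_ne_zero (fun h3 => hD ?_) (fun h3 => ?_)
    · ext n
      have h4 := congrArg (fun R : ℂ[X] => R.coeff n) h3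
      simp only [comp_C_mul_X_coeff, coeff_zero] at h4
      rw [coeff_zero]
      rcases mul_eq_zero.1 h4 with h5 | h5
      · exact h5
      · exact absurd h5 (pow_ne_zero n ha)
    · have h4 := congrArg (fun R : ℂ[X] => R.coeff 0) h3
      simp at h4
  · rw [Polynomial.coe_mul, coe_comp_C, mul_assoc, h, ← map_mul, coe_comp_C]
    congr 1
    rw [Polynomial.coe_mul, ← h1]
    ring
  · have h4 := congrArg (fun R => PowerSeries.rescale a⁻¹ (((1 - C q⁻¹ * X : ℂ[X]) :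
      PowerSeries ℂ) * R)) h3
    have h5 : (1 - C q⁻¹ * X : ℂ[X]) * D.comp (C a⁻¹ * X) = (D.comp (C a⁻¹ * X)) *
      (1 - C q⁻¹ * X) := mul_comm _ _
    have h6 : ((D.comp (C a⁻¹ * X) * (1 - C q⁻¹ * X) : ℂ[X]) : PowerSeries ℂ) * P =
        (((1 - C q⁻¹ * X) * N).comp (C a⁻¹ * X) : ℂ[X]) := by
      rw [coe_comp_C, Polynomial.coe_mul, Polynomial.coe_mul, ← h4]
      have h7 : ((1 - C q⁻¹ * X : ℂ[X]) : PowerSeries ℂ) * ((D : PowerSeries ℂ) * Q) =
          (D : PowerSeries ℂ) * (((1 - C q⁻¹ * X : ℂ[X]) : PowerSeries ℂ) * Q) := by ring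
      rw [h7, h, map_mul, ← coe_comp_C, PowerSeries.rescale_rescale, mul_inv_cancel₀ ha,
        PowerSeries.rescale_one, RingHom.id_apply, mul_assoc]
    have h8 := h2 _ _ h6
    rw [eval_mul, eval_comp, eval_mul, eval_C, eval_X] at h8
    rcases mul_eq_zero.1 h8 with h9 | h9
    · exact h9
    · exfalso
      rw [eval_sub, eval_one, eval_mul, eval_C, eval_X] at h9
      apply hT
      field_simp at h9
      linear_combination -h9

/-- no poles in the open unit disc -/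
theorem no_pole {P : PowerSeries ℂ} (hP : ∀ n, ‖PowerSeries.coeff n P‖ ≤ 1) {T₀ : ℂ}
    (h : IsPoleAt P T₀) : 1 ≤ ‖T₀‖ := by
  by_contra hlt
  rw [not_le] at hlt
  obtain ⟨Φ, h1, h2⟩ := h
  have key : Φ.num.eval T₀ = 0 := by
    have sP : Summable (fun n => ‖PowerSeries.coeff n P * T₀ ^ n‖) := by
      refine Summable.of_nonneg_of_le (fun n => norm_nonneg _) (fun n => ?_)
        (summable_geometric_of_lt_one (norm_nonneg T₀) hlt)
      rw [norm_mul, norm_pow]
      exact mul_le_of_le_one_left (pow_nonneg (norm_nonneg _) _) (hP n)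
    have sD : ∀ D : ℂ[X], Summable (fun n => ‖D.coeff n * T₀ ^ n‖) := by
      intro D
      refine summable_of_ne_finset_zero (s := D.support) fun n hn => ?_
      rw [Polynomial.notMem_support_iff.1 hn, zero_mul, norm_zero]
    have eD : ∀ D : ℂ[X], ∑' n, D.coeff n * T₀ ^ n = D.eval T₀ := by
      intro D
      rw [tsum_eq_sum (s := D.support) fun n hn => by
        rw [Polynomial.notMem_support_iff.1 hn, zero_mul]]
      rw [eval_eq_sum, Polynomial.sum]
    have h3 := tsum_mul_tsum_eq_tsum_sum_antidiagonal_of_summable_norm (sD Φ.denom) sP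
    rw [eD, h2, zero_mul] at h3
    rw [← eD, h3]
    refine tsum_congr fun n => ?_
    have h4 := congrArg (PowerSeries.coeff n) h1
    rw [PowerSeries.coeff_mul, Polynomial.coeff_coe] at h4
    rw [← h4, Finset.sum_mul]
    refine Finset.sum_congr rfl fun x hx => ?_
    rw [Finset.HasAntidiagonal.mem_antidiagonal] at hx
    rw [Polynomial.coeff_coe, ← hx, pow_add]
    ring
  obtain ⟨A, B, hAB⟩ := RatFunc.isCoprime_num_denom Φ
  have h3 := congrArg (fun R : ℂ[X] => R.eval T₀) hAB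
  simp only [eval_add, eval_mul, key, h2, mul_zero, add_zero, eval_one] at h3
  exact zero_ne_one h3

section
variable (p : ℕ) [Fact p.Prime]

theorem poin_rel {n m : ℕ} {f : MvPolynomial (Fin n) ℤ} {F : MvPolynomial (Fin m) ℤ} {κ : ℕ}
    (h : Rz f F κ) :
    ((1 - C (p : ℂ)⁻¹ * X : ℂ[X]) : PowerSeries ℂ) * poincare p F =
      PowerSeries.rescale (((p : ℂ) ^ κ)⁻¹) (((1 - C (p : ℂ)⁻¹ * X : ℂ[X]) : PowerSeries ℂ) *
        poincare p f) := by
  have hp0 : (p : ℂ) ≠ 0 := by exact_mod_cast (Fact.out : p.Prime).ne_zero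
  have e1 : ((1 - C (p : ℂ)⁻¹ * X : ℂ[X]) : PowerSeries ℂ) =
      1 - PowerSeries.C (p : ℂ)⁻¹ * PowerSeries.X := by
    rw [Polynomial.coe_sub, Polynomial.coe_one, Polynomial.coe_mul, Polynomial.coe_C,
      Polynomial.coe_X]
  rw [e1]
  ext k
  rw [PowerSeries.coeff_rescale]
  rcases k with _ | e
  · simp only [sub_mul, one_mul, map_sub, mul_assoc, PowerSeries.coeff_C_mul,
      PowerSeries.coeff_zero_X_mul, mul_zero, sub_zero, pow_zero]
    rw [coeff_poincare, coeff_poincare, cN_zero, cN_zero]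
  · simp only [sub_mul, one_mul, map_sub, mul_assoc, PowerSeries.coeff_C_mul,
      PowerSeries.coeff_succ_X_mul]
    rw [coeff_poincare, coeff_poincare, coeff_poincare, coeff_poincare]
    have h1 := congrArg (fun x : ℝ => (x : ℂ)) (h.vol p e)
    push_cast at h1
    have h2 : ((p : ℂ) ^ κ) ^ (e + 1) ≠ 0 := pow_ne_zero _ (pow_ne_zero _ hp0)
    rw [pow_mul] at h1
    rw [inv_pow]
    field_simp
    linear_combination h1

theorem coeff_poin_le {n : ℕ} (f : MvPolynomial (Fin n) ℤ) (k : ℕ) :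
    ‖PowerSeries.coeff k (poincare p f)‖ ≤ 1 := by
  rw [coeff_poincare, Complex.norm_real, Real.norm_of_nonneg (cN_nonneg p f k)]
  exact cN_le_one p f k

/-- Denef's question for `f` and the prime `p`. -/
def PConj {n : ℕ} (f : MvPolynomial (Fin n) ℤ) : Prop :=
  ∀ T₀ : ℂ, IsPoleAt (poincare p f) T₀ → ∀ b : ℂ[X], IsBFunction (cx f) b →
    b.eval ((-Real.log ‖T₀‖ / Real.log p : ℝ) : ℂ) = 0

theorem pconj_of {n m : ℕ} {f : MvPolynomial (Fin n) ℤ} {F : MvPolynomial (Fin m) ℤ} {κ : ℕ}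
    (hf : f.totalDegree ≠ 0) (hκ : 2 ≤ κ) (h : Rz f F κ) (hF : PConj p F) : PConj p f := by
  intro T₀ hT b hb
  have hp0 : (p : ℂ) ≠ 0 := by exact_mod_cast (Fact.out : p.Prime).ne_zero
  have hp1 : (1 : ℝ) < p := by exact_mod_cast (Fact.out : p.Prime).one_lt
  have hlog : 0 < Real.log p := Real.log_pos hp1
  obtain ⟨h1, h2⟩ := h.b hf b hb
  by_cases hTp : T₀ = p
  · have h3 : -Real.log ‖T₀‖ / Real.log p = -1 := by
      rw [hTp, Complex.norm_natCast, neg_div, div_self hlog.ne']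
    rw [h3]
    push_cast
    exact h1
  · have hT1 : 1 ≤ ‖T₀‖ := no_pole (coeff_poin_le p f) hT
    have hTpos : 0 < ‖T₀‖ := by linarith
    obtain ⟨c, hc⟩ : ∃ c : ℂ[X], b = (X + 1) * c := by
      obtain ⟨c, hc⟩ := dvd_iff_isRoot.2 (show b.IsRoot (-1) from h1)
      refine ⟨c, ?_⟩
      rw [hc, C_neg, C_1, sub_neg_eq_add]
    have h3 := pole_descend (a := ((p : ℂ) ^ κ)⁻¹) (q := (p : ℂ)) (inv_ne_zero (pow_ne_zero _ hp0))
      hp0 (poin_rel p h) hTp hT
    have h4 := hF _ h3 _ (h2 c hc)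
    rw [inv_inv] at h4
    have h5 : -Real.log ‖(p : ℂ) ^ κ * T₀‖ / Real.log p = -Real.log ‖T₀‖ / Real.log p - κ := by
      rw [norm_mul, norm_pow, Complex.norm_natCast, Real.log_mul (by positivity) hTpos.ne',
        Real.log_pow]
      field_simp
      ring
    rw [h5] at h4
    set t : ℝ := -Real.log ‖T₀‖ / Real.log p with ht
    have ht0 : t ≤ 0 := by
      rw [ht, neg_div]
      have := div_nonneg (Real.log_nonneg hT1) hlog.le
      linarith
    rw [eval_mul, eval_comp, eval_add, eval_add, eval_X, eval_one, eval_C] at h4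
    rcases mul_eq_zero.1 h4 with h6 | h6
    · exfalso
      have h7 : t - κ + 1 = 0 := by exact_mod_cast h6
      have h8 : (2 : ℝ) ≤ κ := by exact_mod_cast hκ
      linarith
    · have h7 : ((t - κ : ℝ) : ℂ) + (κ : ℂ) = (t : ℂ) := by
        push_cast
        ring
      rw [h7] at h6
      rw [hc, eval_mul, h6, mul_zero]

end

end Pool.Agent.Run7.h768.CZ
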