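import Pool.Agent.Run7.h768.QI.Red

/-!
# Polynomials: reduction to a quadratic polynomial plus cubes of variables

The reduction principle: a property of polynomials which descends along
`f ↦ f + (t + v(x, w)) (w - u(x))` (two more variables `t`, `w`) and which holds for the polynomials
`q + ∑_{i ∈ T} x_i ^ 3`, `deg q ≤ 2`, holds for all polynomials.
-/

set_option autoImplicit false

namespace Pool.Agent.Run7.h768.CS

open MvPolynomial
open Pool.Agent.Run7.h768.QI (Ex ex_all)

section
variable {K : Type} [Field K]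

/-- degree at most two -/
def Q2 {n : ℕ} (p : MvPolynomial (Fin n) K) : Prop := p.totalDegree ≤ 2

theorem Q2.add {n : ℕ} {p q : MvPolynomial (Fin n) K} (hp : Q2 p) (hq : Q2 q) : Q2 (p + q) :=
  (totalDegree_add p q).trans (max_le hp hq)

theorem Q2.neg {n : ℕ} {p : MvPolynomial (Fin n) K} (hp : Q2 p) : Q2 (-p) := by
  unfold Q2
  rw [totalDegree_neg]
  exact hp

theorem Q2.sub {n : ℕ} {p q : MvPolynomial (Fin n) K} (hp : Q2 p) (hq : Q2 q) : Q2 (p - q) := by
  rw [sub_eq_add_neg]
  exact hp.add hq.neg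

theorem q2_C {n : ℕ} (c : K) : Q2 (C c : MvPolynomial (Fin n) K) := by
  unfold Q2
  rw [totalDegree_C]
  exact Nat.zero_le _

theorem q2_X {n : ℕ} (i : Fin n) : Q2 (X i : MvPolynomial (Fin n) K) := by
  unfold Q2
  rw [totalDegree_X]
  norm_num

theorem q2_XX {n : ℕ} (i j : Fin n) : Q2 (X i * X j : MvPolynomial (Fin n) K) := by
  refine (totalDegree_mul _ _).trans ?_
  rw [totalDegree_X, totalDegree_X]

theorem Q2.Cmul {n : ℕ} (c : K) {p : MvPolynomial (Fin n) K} (h : Q2 p) : Q2 (C c * p) := by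
  refine (totalDegree_mul _ _).trans ?_
  rw [totalDegree_C, zero_add]
  exact h

theorem Q2.rename {n m : ℕ} (e : Fin n → Fin m) {p : MvPolynomial (Fin n) K} (h : Q2 p) :
    Q2 (rename e p) := (totalDegree_rename_le e p).trans h

/-- `F = q + ∑_{i ∈ T} x_i ^ 3` with a polynomial `q` of degree at most two. -/
def QC {n : ℕ} (F : MvPolynomial (Fin n) K) : Prop :=
  ∃ T : Finset (Fin n), (F - ∑ i ∈ T, X i ^ 3).totalDegree ≤ 2

theorem QC.zero {n : ℕ} : QC (0 : MvPolynomial (Fin n) K) := ⟨∅, by simp⟩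

theorem QC.add {n : ℕ} {F q : MvPolynomial (Fin n) K} (h : QC F) (hq : Q2 q) : QC (F + q) := by
  obtain ⟨T, hT⟩ := h
  refine ⟨T, ?_⟩
  rw [show F + q - ∑ i ∈ T, X i ^ 3 = (F - ∑ i ∈ T, X i ^ 3) + q by ring]
  exact Q2.add hT hq

/-- the new variable `t` -/
abbrev vt (n : ℕ) : Fin (n + 2) := Fin.natAdd n 0

/-- the new variable `w` -/
abbrev vw (n : ℕ) : Fin (n + 2) := Fin.natAdd n 1

theorem castAdd_ne_w {n : ℕ} (i : Fin n) : Fin.castAdd 2 i ≠ vw n := by
  intro h
  have := congrArg Fin.val h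
  simp at this
  omega

theorem castAdd_ne_t {n : ℕ} (i : Fin n) : Fin.castAdd 2 i ≠ vt n := by
  intro h
  have := congrArg Fin.val h
  simp at this
  omega

theorem t_ne_w {n : ℕ} : vt n ≠ vw n := by
  intro h
  have := congrArg Fin.val h
  simp at this

theorem QC.rename {n : ℕ} {F : MvPolynomial (Fin n) K} (h : QC F) :
    QC (rename (Fin.castAdd 2) F) := by
  obtain ⟨T, hT⟩ := h
  refine ⟨T.map (Fin.castAddEmb 2), ?_⟩
  have e : (MvPolynomial.rename (Fin.castAdd 2) F -
      ∑ i ∈ T.map (Fin.castAddEmb 2), X i ^ 3 : MvPolynomial (Fin (n + 2)) K) =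
      MvPolynomial.rename (Fin.castAdd 2) (F - ∑ i ∈ T, X i ^ 3) := by
    rw [Finset.sum_map, map_sub, map_sum]
    simp only [map_pow, rename_X, Fin.castAddEmb_apply]
  rw [e]
  exact Q2.rename _ hT

theorem QC.cube {n : ℕ} {F : MvPolynomial (Fin n) K} (h : QC F) :
    QC (MvPolynomial.rename (Fin.castAdd 2) F + X (vw n) ^ 3) := by
  classical
  obtain ⟨T, hT⟩ := h
  refine ⟨insert (vw n) (T.map (Fin.castAddEmb 2)), ?_⟩
  have h1 : vw n ∉ T.map (Fin.castAddEmb 2) := by
    intro h
    obtain ⟨i, -, hi⟩ := Finset.mem_map.1 h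
    exact castAdd_ne_w i hi
  have e : (MvPolynomial.rename (Fin.castAdd 2) F + X (vw n) ^ 3 -
      ∑ i ∈ insert (vw n) (T.map (Fin.castAddEmb 2)), X i ^ 3 : MvPolynomial (Fin (n + 2)) K) =
      MvPolynomial.rename (Fin.castAdd 2) (F - ∑ i ∈ T, X i ^ 3) := by
    rw [Finset.sum_insert h1, Finset.sum_map, map_sub, map_sum]
    simp only [map_pow, rename_X, Fin.castAddEmb_apply]
    ring
  rw [e]
  exact Q2.rename _ hT

/-- the variables `x`, `w` -/
def xw (n : ℕ) : Fin (n + 1) → Fin (n + 2) := Fin.lastCases (vw n) (fun i => Fin.castAdd 2 i)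

theorem xw_last (n : ℕ) : xw n (Fin.last n) = vw n := by
  unfold xw
  rw [Fin.lastCases_last]

theorem xw_castSucc {n : ℕ} (i : Fin n) : xw n (Fin.castSucc i) = Fin.castAdd 2 i := by
  unfold xw
  rw [Fin.lastCases_castSucc]

theorem xw_comp (n : ℕ) : xw n ∘ Fin.castSucc = Fin.castAdd 2 := by
  funext i
  exact xw_castSucc i

/-- `f(x) + (t + v(x, w)) (w - u(x))`, in the variables `x, t, w` -/
noncomputable def stq {n : ℕ} (f u : MvPolynomial (Fin n) K) (v : MvPolynomial (Fin (n + 1)) K) :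
    MvPolynomial (Fin (n + 2)) K :=
  rename (Fin.castAdd 2) f + (X (vt n) + rename (xw n) v) *
    (X (vw n) - rename (Fin.castAdd 2) u)

/-- every element is a sum of cubes -/
theorem sum_cubes (h6 : (6 : K) ≠ 0) (a : K) : ∃ l : List K, (l.map (· ^ 3)).sum = a := by
  refine ⟨List.replicate 36 ((a + 1) / 6) ++ List.replicate 36 ((a - 1) / 6) ++
    List.replicate 72 (-a / 6), ?_⟩
  simp only [List.map_append, List.map_replicate, List.sum_append, List.sum_replicate, nsmul_eq_mul]
  push_cast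
  have h : (216 : K) ≠ 0 := by
    have : (216 : K) = 6 ^ 3 := by norm_num
    rw [this]
    exact pow_ne_zero 3 h6
  field_simp
  ring

end

section
variable {K : Type} [Field K] (P : ∀ n : ℕ, MvPolynomial (Fin n) K → Prop)

/-- `P` holds for `G` plus a quadratic polynomial and cubes of variables, in more variables -/
def Ok {n : ℕ} (G : MvPolynomial (Fin n) K) : Prop :=
  ∀ (m : ℕ) (e : Fin n → Fin m) (S : MvPolynomial (Fin m) K), QC S → P m (rename e G + S)

variable {P}

theorem Ok.rename {n m : ℕ} {G : MvPolynomial (Fin n) K} (h : Ok P G) (e : Fin n → Fin m) :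
    Ok P (rename e G) := by
  intro k e' S hS
  rw [rename_rename]
  exact h k _ S hS

theorem Ok.quad {n : ℕ} {G q : MvPolynomial (Fin n) K} (h : Ok P G) (hq : Q2 q) :
    Ok P (G + q) := by
  intro k e' S hS
  rw [map_add, add_assoc, add_comm (MvPolynomial.rename e' q) S]
  exact h k e' _ (hS.add (hq.rename e'))

/-- adding scalar multiples of `p` and of `x_i p` is harmless -/
def AB (P : ∀ n : ℕ, MvPolynomial (Fin n) K → Prop) {n : ℕ} (p : MvPolynomial (Fin n) K) : Prop :=
  ∀ (m : ℕ) (e : Fin n → Fin m) (G : MvPolynomial (Fin m) K), Ok P G → ∀ c : K,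
    Ok P (G + C c * rename e p) ∧ ∀ i, Ok P (G + C c * (X i * rename e p))

theorem AB.rename {n m : ℕ} {p : MvPolynomial (Fin n) K} (h : AB P p) (e : Fin n → Fin m) :
    AB P (rename e p) := by
  intro k e' G hG c
  rw [rename_rename]
  exact h k _ G hG c

theorem AB.add {n : ℕ} {p q : MvPolynomial (Fin n) K} (hp : AB P p) (hq : AB P q) :
    AB P (p + q) := by
  intro k e' G hG c
  refine ⟨?_, fun i => ?_⟩
  · rw [map_add, mul_add, ← add_assoc]
    exact (hq k e' _ (hp k e' G hG c).1 c).1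
  · rw [map_add, mul_add, mul_add, ← add_assoc]
    exact (hq k e' _ ((hp k e' G hG c).2 i) c).2 i

theorem AB.smul {n : ℕ} {p : MvPolynomial (Fin n) K} (hp : AB P p) (a : K) :
    AB P (C a * p) := by
  intro k e' G hG c
  refine ⟨?_, fun i => ?_⟩
  · rw [map_mul, rename_C, ← mul_assoc, ← map_mul]
    exact (hp k e' G hG _).1
  · rw [map_mul, rename_C, mul_left_comm (X i), ← mul_assoc, ← map_mul]
    exact (hp k e' G hG _).2 i

theorem ab_X {n : ℕ} (j : Fin n) : AB P (X j) := by
  intro k e' G hG c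
  rw [rename_X]
  exact ⟨hG.quad ((q2_X _).Cmul c), fun i => hG.quad ((q2_XX _ _).Cmul c)⟩

theorem ab_C {n : ℕ} (a : K) : AB P (C a : MvPolynomial (Fin n) K) := by
  intro k e' G hG c
  rw [rename_C]
  refine ⟨hG.quad ((q2_C _).Cmul c), fun i => hG.quad ?_⟩
  rw [mul_comm (X i)]
  exact ((q2_X _).Cmul _).Cmul c

variable (hs : ∀ (n : ℕ) (f u : MvPolynomial (Fin n) K) (v : MvPolynomial (Fin (n + 1)) K),
  constantCoeff u = 0 → constantCoeff v = 0 → P (n + 2) (stq f u v) → P n f)
include hs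

theorem ok_sq {n : ℕ} {G p : MvPolynomial (Fin n) K} (hG : Ok P G) (hp : AB P p) (a : K) :
    Ok P (G + C a * p ^ 2) := by
  intro m e S hS
  set p0 := constantCoeff p with hp0
  have c0 : ∀ {k : ℕ} (e' : Fin n → Fin k), constantCoeff (rename e' p) = p0 := fun e' =>
    constantCoeff_rename _ _
  apply hs m _ (rename e p - C p0) (C a * (X (Fin.last m) + rename (Fin.castSucc ∘ e) p - C p0))
    (by rw [map_sub, c0, constantCoeff_C, sub_self])
    (by
      rw [map_mul, map_sub, map_add, constantCoeff_X, c0, constantCoeff_C, constantCoeff_C,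
        zero_add, sub_self, mul_zero])
  have h1 := ((hp (m + 2) (Fin.castAdd 2 ∘ e) _ (hG.rename (Fin.castAdd 2 ∘ e)) (-1)).2 (vt m))
  have h2 := (hp (m + 2) (Fin.castAdd 2 ∘ e) _ h1 (2 * a * p0)).1
  have hS' : QC (MvPolynomial.rename (Fin.castAdd 2) S + (X (vt m) * X (vw m) +
      C p0 * X (vt m) + C a * (X (vw m) * X (vw m)) - C (a * p0 ^ 2)) :
      MvPolynomial (Fin (m + 2)) K) :=
    hS.rename.add ((((q2_XX _ _).add ((q2_X _).Cmul _)).add ((q2_XX _ _).Cmul _)).sub (q2_C _))
  have h3 := h2 (m + 2) id _ hS'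
  rw [rename_id_apply] at h3
  convert h3 using 1
  unfold stq
  simp only [map_add, map_mul, map_pow, map_sub, rename_X, rename_C, rename_rename, xw_last,
    ← Function.comp_assoc, xw_comp, map_neg, map_one, map_ofNat]
  ring

theorem ok_cube {n : ℕ} {G p : MvPolynomial (Fin n) K} (hG : Ok P G) (hp : AB P p) :
    Ok P (G + p ^ 3) := by
  intro m e S hS
  set p0 := constantCoeff p with hp0
  have c0 : ∀ {k : ℕ} (e' : Fin n → Fin k), constantCoeff (rename e' p) = p0 := fun e' =>
    constantCoeff_rename _ _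
  apply hs m _ (rename e p - C p0) ((X (Fin.last m) + C p0) ^ 2 +
      (X (Fin.last m) + C p0) * rename (Fin.castSucc ∘ e) p + rename (Fin.castSucc ∘ e) p ^ 2 -
      C (3 * p0 ^ 2))
    (by rw [map_sub, c0, constantCoeff_C, sub_self])
    (by
      rw [map_sub, map_add, map_add, map_mul, map_pow, map_pow, map_add, constantCoeff_X, c0,
        constantCoeff_C, constantCoeff_C]
      ring)
  have h1 := ((hp (m + 2) (Fin.castAdd 2 ∘ e) _ (hG.rename (Fin.castAdd 2 ∘ e)) (-1)).2 (vt m))
  have h2 := (hp (m + 2) (Fin.castAdd 2 ∘ e) _ h1 (3 * p0 ^ 2)).1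
  have hS' : QC (MvPolynomial.rename (Fin.castAdd 2) S + X (vw m) ^ 3 +
      (X (vt m) * X (vw m) + C p0 * X (vt m) + C (3 * p0) * (X (vw m) * X (vw m)) -
        C (2 * p0 ^ 3)) : MvPolynomial (Fin (m + 2)) K) :=
    hS.cube.add ((((q2_XX _ _).add ((q2_X _).Cmul _)).add ((q2_XX _ _).Cmul _)).sub (q2_C _))
  have h3 := h2 (m + 2) id _ hS'
  rw [rename_id_apply] at h3
  convert h3 using 1
  unfold stq
  simp only [map_add, map_mul, map_pow, map_sub, rename_X, rename_C, rename_rename, xw_last,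
    ← Function.comp_assoc, xw_comp, map_neg, map_one, map_ofNat]
  ring

theorem ok_cubes {n : ℕ} {p : MvPolynomial (Fin n) K} (hp : AB P p) (l : List K) :
    ∀ {G : MvPolynomial (Fin n) K}, Ok P G → Ok P (G + C ((l.map (· ^ 3)).sum) * p ^ 3) := by
  induction l with
  | nil =>
    intro G hG
    simpa using hG
  | cons d l ih =>
    intro G hG
    have h1 := ih (ok_cube hs hG (hp.smul d))
    convert h1 using 1
    rw [List.map_cons, List.sum_cons, map_add, map_pow]
    ring

theorem ok_cube' (h6 : (6 : K) ≠ 0) {n : ℕ} {G p : MvPolynomial (Fin n) K} (hG : Ok P G)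
    (hp : AB P p) (a : K) : Ok P (G + C a * p ^ 3) := by
  obtain ⟨l, rfl⟩ := sum_cubes h6 a
  exact ok_cubes hs hp l hG

theorem ab_sq (h6 : (6 : K) ≠ 0) {n : ℕ} {p : MvPolynomial (Fin n) K} (hp : AB P p) (a : K) :
    AB P (C a * p ^ 2) := by
  intro m e G hG c
  refine ⟨?_, fun i => ?_⟩
  · rw [map_mul, rename_C, map_pow, ← mul_assoc, ← map_mul]
    exact ok_sq hs hG (hp.rename e) _
  · have hq := hp.rename e
    have h1 := ok_cube' hs h6 hG ((ab_X i).add hq) (c * a / 6)
    have h2 := ok_cube' hs h6 h1 ((ab_X i).add (hq.smul (-1))) (c * a / 6)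
    have h3 := ok_cube' hs h6 h2 (ab_X i) (-(c * a / 3))
    convert h3 using 1
    have e1 : (C (c * a) : MvPolynomial (Fin m) K) = C (c * a / 6) * 6 := by
      rw [show (6 : MvPolynomial (Fin m) K) = C (6 : K) by rw [map_ofNat], ← map_mul,
        div_mul_cancel₀ _ h6]
    have e2 : (C (c * a / 3) : MvPolynomial (Fin m) K) = C (c * a / 6) * 2 := by
      rw [show (2 : MvPolynomial (Fin m) K) = C (2 : K) by rw [map_ofNat], ← map_mul]
      congr 1
      have h2 : (2 : K) ≠ 0 := by
        intro h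
        apply h6
        rw [show (6 : K) = 2 * 3 by norm_num, h, zero_mul]
      have h3 : (3 : K) ≠ 0 := by
        intro h
        apply h6
        rw [show (6 : K) = 2 * 3 by norm_num, h, mul_zero]
      field_simp
      ring
    have e4 : (C (-(c * a / 3)) : MvPolynomial (Fin m) K) = -(C (c * a / 6) * 2) := by
      rw [map_neg, e2]
    have e5 : (C (-1) : MvPolynomial (Fin m) K) = -1 := by rw [map_neg, map_one]
    rw [e4, e5, map_mul, rename_C, map_pow]
    have e3 : (C c * (X i * (C a * MvPolynomial.rename e p ^ 2)) : MvPolynomial (Fin m) K) =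
        C (c * a) * (X i * MvPolynomial.rename e p ^ 2) := by
      rw [map_mul]
      ring
    rw [e3, e1]
    ring

/-- **The reduction principle.** -/
theorem red_cubes (h6 : (6 : K) ≠ 0)
    (hd : ∀ (n : ℕ) (F : MvPolynomial (Fin n) K), QC F → P n F)
    (n : ℕ) (f : MvPolynomial (Fin n) K) : P n f := by
  have h2 : (2 : K) ≠ 0 := by
    intro h
    apply h6
    rw [show (6 : K) = 2 * 3 by norm_num, h, zero_mul]
  have key : ∀ {n : ℕ} (p : MvPolynomial (Fin n) K), AB P p := by
    intro n p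
    have hp := ex_all h2 p
    induction hp with
    | var i => exact ab_X i
    | const c => exact ab_C c
    | add _ _ ih1 ih2 => exact ih1.add ih2
    | sq c _ ih => exact ab_sq hs h6 ih c
  have h0 : Ok P (0 : MvPolynomial (Fin n) K) := by
    intro m e S hS
    rw [map_zero, zero_add]
    exact hd m S hS
  have h3 := (key f n id 0 h0 1).1 n id 0 QC.zero
  rw [rename_id_apply, rename_id_apply, map_one, one_mul, zero_add, add_zero] at h3
  exact h3

end

end Pool.Agent.Run7.h768.CS
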