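import Mathlib

/-!
# Polynomials over a ring: reduction to a quadratic polynomial plus products of three variables

The reduction principle: a property of polynomials which descends along
`f ↦ f + (t + v(x, w)) (w - u(x))` (two more variables `t`, `w`) and which holds for the polynomials
`q + ∑_k x_k y_k z_k`, `deg q ≤ 2`, with different variables `x_k, y_k, z_k`, holds for all polynomials.
-/

set_option autoImplicit false
set_option linter.unusedSectionVars false

namespace Pool.Agent.Run7.h768.CZ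

open MvPolynomial

section
variable {R : Type} [CommRing R] [Nontrivial R]

/-- degree at most two -/
def Q2 {n : ℕ} (p : MvPolynomial (Fin n) R) : Prop := p.totalDegree ≤ 2

theorem Q2.add {n : ℕ} {p q : MvPolynomial (Fin n) R} (hp : Q2 p) (hq : Q2 q) : Q2 (p + q) :=
  (totalDegree_add p q).trans (max_le hp hq)

theorem Q2.neg {n : ℕ} {p : MvPolynomial (Fin n) R} (hp : Q2 p) : Q2 (-p) := by
  unfold Q2
  rw [totalDegree_neg]
  exact hp

theorem Q2.sub {n : ℕ} {p q : MvPolynomial (Fin n) R} (hp : Q2 p) (hq : Q2 q) : Q2 (p - q) := by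
  rw [sub_eq_add_neg]
  exact hp.add hq.neg

theorem q2_C {n : ℕ} (c : R) : Q2 (C c : MvPolynomial (Fin n) R) := by
  unfold Q2
  rw [totalDegree_C]
  exact Nat.zero_le _

theorem q2_X {n : ℕ} (i : Fin n) : Q2 (X i : MvPolynomial (Fin n) R) := by
  unfold Q2
  rw [totalDegree_X]
  norm_num

theorem q2_XX {n : ℕ} (i j : Fin n) : Q2 (X i * X j : MvPolynomial (Fin n) R) := by
  refine (totalDegree_mul _ _).trans ?_
  rw [totalDegree_X, totalDegree_X]

theorem Q2.Cmul {n : ℕ} (c : R) {p : MvPolynomial (Fin n) R} (h : Q2 p) : Q2 (C c * p) := by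
  refine (totalDegree_mul _ _).trans ?_
  rw [totalDegree_C, zero_add]
  exact h

theorem Q2.rename {n m : ℕ} (e : Fin n → Fin m) {p : MvPolynomial (Fin n) R} (h : Q2 p) :
    Q2 (rename e p) := (totalDegree_rename_le e p).trans h

/-- `F = q + ∑_k x_k y_k z_k` with a polynomial `q` of degree at most two and different variables
`x_k, y_k, z_k`, `k < r`. -/
def QT {n : ℕ} (F : MvPolynomial (Fin n) R) : Prop :=
  ∃ (r : ℕ) (e : Fin r → Fin 3 → Fin n), (∀ k j k' j', e k j = e k' j' → k = k' ∧ j = j') ∧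
    (F - ∑ k, X (e k 0) * X (e k 1) * X (e k 2)).totalDegree ≤ 2

theorem QT.zero {n : ℕ} : QT (0 : MvPolynomial (Fin n) R) :=
  ⟨0, fun k => k.elim0, fun k => k.elim0, by simp⟩

theorem QT.add {n : ℕ} {F q : MvPolynomial (Fin n) R} (h : QT F) (hq : Q2 q) : QT (F + q) := by
  obtain ⟨r, e, he, hT⟩ := h
  refine ⟨r, e, he, ?_⟩
  rw [show F + q - ∑ k, X (e k 0) * X (e k 1) * X (e k 2) =
    (F - ∑ k, X (e k 0) * X (e k 1) * X (e k 2)) + q by ring]
  exact Q2.add hT hq

theorem QT.rename {n m : ℕ} {ι : Fin n → Fin m} (hι : Function.Injective ι)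
    {F : MvPolynomial (Fin n) R} (h : QT F) : QT (rename ι F) := by
  obtain ⟨r, e, he, hT⟩ := h
  refine ⟨r, fun k j => ι (e k j), fun k j k' j' h => he k j k' j' (hι h), ?_⟩
  have e1 : (MvPolynomial.rename ι F -
      ∑ k, X (ι (e k 0)) * X (ι (e k 1)) * X (ι (e k 2)) : MvPolynomial (Fin m) R) =
      MvPolynomial.rename ι (F - ∑ k, X (e k 0) * X (e k 1) * X (e k 2)) := by
    rw [map_sub, map_sum]
    simp only [map_mul, rename_X]
  rw [e1]
  exact Q2.rename _ hT

/-- one more product of three new variables -/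
theorem QT.tri {n : ℕ} {F : MvPolynomial (Fin n) R} (h : QT F) {m : ℕ} {ι : Fin n → Fin m}
    (hι : Function.Injective ι) (a : Fin 3 → Fin m) (ha : Function.Injective a)
    (hn : ∀ i j, ι i ≠ a j) :
    QT (MvPolynomial.rename ι F + X (a 0) * X (a 1) * X (a 2)) := by
  obtain ⟨r, e, he, hT⟩ := h
  refine ⟨r + 1, Fin.lastCases a (fun k j => ι (e k j)), ?_, ?_⟩
  · intro k j k' j'
    refine Fin.lastCases ?_ (fun k => ?_) k <;> refine Fin.lastCases ?_ (fun k' => ?_) k'
    · intro h
      simp only [Fin.lastCases_last] at h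
      exact ⟨rfl, ha h⟩
    · intro h
      simp only [Fin.lastCases_last, Fin.lastCases_castSucc] at h
      exact absurd h.symm (hn _ _)
    · intro h
      simp only [Fin.lastCases_last, Fin.lastCases_castSucc] at h
      exact absurd h (hn _ _)
    · intro h
      simp only [Fin.lastCases_castSucc] at h
      obtain ⟨h1, h2⟩ := he _ _ _ _ (hι h)
      exact ⟨by rw [h1], h2⟩
  · have e1 : (MvPolynomial.rename ι F + X (a 0) * X (a 1) * X (a 2) -
        ∑ k : Fin (r + 1), X ((Fin.lastCases a (fun k j => ι (e k j)) :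
          Fin (r + 1) → Fin 3 → Fin m) k 0) *
          X ((Fin.lastCases a (fun k j => ι (e k j)) : Fin (r + 1) → Fin 3 → Fin m) k 1) *
          X ((Fin.lastCases a (fun k j => ι (e k j)) : Fin (r + 1) → Fin 3 → Fin m) k 2) :
          MvPolynomial (Fin m) R) =
        MvPolynomial.rename ι (F - ∑ k, X (e k 0) * X (e k 1) * X (e k 2)) := by
      rw [Fin.sum_univ_castSucc, map_sub, map_sum]
      simp only [Fin.lastCases_last, Fin.lastCases_castSucc, map_mul, rename_X]
      ring
    rw [e1]
    exact Q2.rename _ hT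

/-- the new variable `t` -/
abbrev vt (n : ℕ) : Fin (n + 2) := Fin.natAdd n 0

/-- the new variable `w` -/
abbrev vw (n : ℕ) : Fin (n + 2) := Fin.natAdd n 1

/-- the variables `x`, `w` -/
def xw (n : ℕ) : Fin (n + 1) → Fin (n + 2) := Fin.lastCases (vw n) (fun i => Fin.castAdd 2 i)

theorem xw_last (n : ℕ) : xw n (Fin.last n) = vw n := by
  unfold xw
  rw [Fin.lastCases_last]

theorem xw_castSucc {n : ℕ} (i : Fin n) : xw n (Fin.castSucc i) = Fin.castAdd 2 i := by
  unfold xw
  rw [Fin.lastCases_castSucc]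

theorem xw_comp (n : ℕ) : xw n ∘ Fin.castSucc = Fin.castAdd 2 := by
  funext i
  exact xw_castSucc i

/-- `f(x) + (t + v(x, w)) (w - u(x))`, in the variables `x, t, w` -/
noncomputable def stq {n : ℕ} (f u : MvPolynomial (Fin n) R) (v : MvPolynomial (Fin (n + 1)) R) :
    MvPolynomial (Fin (n + 2)) R :=
  rename (Fin.castAdd 2) f + (X (vt n) + rename (xw n) v) *
    (X (vw n) - rename (Fin.castAdd 2) u)

end

section
variable {R : Type} [CommRing R] [Nontrivial R] (P : ∀ n : ℕ, MvPolynomial (Fin n) R → Prop)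

/-- `P` holds for `G` plus a polynomial of the form `QT`, in more variables -/
def Ok {n : ℕ} (G : MvPolynomial (Fin n) R) : Prop :=
  ∀ (m : ℕ) (e : Fin n → Fin m) (S : MvPolynomial (Fin m) R), QT S → P m (rename e G + S)

variable {P}

theorem Ok.rename {n m : ℕ} {G : MvPolynomial (Fin n) R} (h : Ok P G) (e : Fin n → Fin m) :
    Ok P (rename e G) := by
  intro k e' S hS
  rw [rename_rename]
  exact h k _ S hS

theorem Ok.quad {n : ℕ} {G q : MvPolynomial (Fin n) R} (h : Ok P G) (hq : Q2 q) :
    Ok P (G + q) := by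
  intro k e' S hS
  rw [map_add, add_assoc, add_comm (MvPolynomial.rename e' q) S]
  exact h k e' _ (hS.add (hq.rename e'))

/-- adding scalar multiples of `p` and of `x_i p` is harmless -/
def AB (P : ∀ n : ℕ, MvPolynomial (Fin n) R → Prop) {n : ℕ} (p : MvPolynomial (Fin n) R) : Prop :=
  ∀ (m : ℕ) (e : Fin n → Fin m) (G : MvPolynomial (Fin m) R), Ok P G → ∀ c : R,
    Ok P (G + C c * rename e p) ∧ ∀ i, Ok P (G + C c * (X i * rename e p))

theorem AB.rename {n m : ℕ} {p : MvPolynomial (Fin n) R} (h : AB P p) (e : Fin n → Fin m) :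
    AB P (rename e p) := by
  intro k e' G hG c
  rw [rename_rename]
  exact h k _ G hG c

theorem AB.add {n : ℕ} {p q : MvPolynomial (Fin n) R} (hp : AB P p) (hq : AB P q) :
    AB P (p + q) := by
  intro k e' G hG c
  refine ⟨?_, fun i => ?_⟩
  · rw [map_add, mul_add, ← add_assoc]
    exact (hq k e' _ (hp k e' G hG c).1 c).1
  · rw [map_add, mul_add, mul_add, ← add_assoc]
    exact (hq k e' _ ((hp k e' G hG c).2 i) c).2 i

theorem AB.smul {n : ℕ} {p : MvPolynomial (Fin n) R} (hp : AB P p) (a : R) :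
    AB P (C a * p) := by
  intro k e' G hG c
  refine ⟨?_, fun i => ?_⟩
  · rw [map_mul, rename_C, ← mul_assoc, ← map_mul]
    exact (hp k e' G hG _).1
  · rw [map_mul, rename_C, mul_left_comm (X i), ← mul_assoc, ← map_mul]
    exact (hp k e' G hG _).2 i

theorem ab_X {n : ℕ} (j : Fin n) : AB P (X j) := by
  intro k e' G hG c
  rw [rename_X]
  exact ⟨hG.quad ((q2_X _).Cmul c), fun i => hG.quad ((q2_XX _ _).Cmul c)⟩

theorem ab_C {n : ℕ} (a : R) : AB P (C a : MvPolynomial (Fin n) R) := by
  intro k e' G hG c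
  rw [rename_C]
  refine ⟨hG.quad ((q2_C _).Cmul c), fun i => hG.quad ?_⟩
  rw [mul_comm (X i)]
  exact ((q2_X _).Cmul _).Cmul c

/-- `Ok` for a fixed polynomial, without the renaming -/
theorem AB.one {n : ℕ} {p G : MvPolynomial (Fin n) R} (hp : AB P p) (hG : Ok P G) (c : R) :
    Ok P (G + C c * p) := by
  have h := (hp n id G hG c).1
  rwa [rename_id_apply] at h

theorem AB.two {n : ℕ} {p G : MvPolynomial (Fin n) R} (hp : AB P p) (hG : Ok P G) (c : R)
    (i : Fin n) : Ok P (G + C c * (X i * p)) := by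
  have h := (hp n id G hG c).2 i
  rwa [rename_id_apply] at h

variable (hs : ∀ (n : ℕ) (f u : MvPolynomial (Fin n) R) (v : MvPolynomial (Fin (n + 1)) R),
  constantCoeff u = 0 → constantCoeff v = 0 → P (n + 2) (stq f u v) → P n f)
include hs

/-- products of two factors without constant terms -/
theorem ok_two {n : ℕ} {G p q : MvPolynomial (Fin n) R} (hG : Ok P G) (hp : AB P p) (hq : AB P q)
    (hp0 : constantCoeff p = 0) (hq0 : constantCoeff q = 0) : Ok P (G + p * q) := by
  intro m e S hS
  apply hs m _ (rename e p) (rename (Fin.castSucc ∘ e) q)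
    (by rw [constantCoeff_rename, hp0]) (by rw [constantCoeff_rename, hq0])
  set e' : Fin n → Fin (m + 2) := Fin.castAdd 2 ∘ e with he'
  have h1 := (hp.rename e').two (hG.rename e') (-1) (vt m)
  have h2 := (hq.rename e').two h1 1 (vw m)
  have h3 := h2 (m + 2) id _ ((hS.rename (Fin.castAdd_injective m 2)).add
    (q2_XX (R := R) (vt m) (vw m)))
  rw [rename_id_apply] at h3
  convert h3 using 1
  unfold stq
  simp only [map_add, map_mul, rename_rename,
    ← Function.comp_assoc, xw_comp, map_neg, map_one]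
  ring

/-- products of three factors without constant terms -/
theorem ok_three {n : ℕ} {G p q r : MvPolynomial (Fin n) R} (hG : Ok P G) (hp : AB P p)
    (hq : AB P q) (hr : AB P r) (hp0 : constantCoeff p = 0) (hq0 : constantCoeff q = 0)
    (hr0 : constantCoeff r = 0) : Ok P (G + p * q * r) := by
  intro m e S hS
  -- the first step: `u = p`, `v = q r`
  apply hs m _ (rename e p) (rename (Fin.castSucc ∘ e) (q * r))
    (by rw [constantCoeff_rename, hp0])
    (by rw [constantCoeff_rename, map_mul, hq0, zero_mul])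
  -- the second step: `u = q`, `v = w₁ r`
  set e1 : Fin n → Fin (m + 2) := Fin.castAdd 2 ∘ e with he1
  apply hs (m + 2) _ (rename e1 q) (X (Fin.castSucc (vw m)) * rename (Fin.castSucc ∘ e1) r)
    (by rw [constantCoeff_rename, hq0])
    (by rw [map_mul, constantCoeff_X, zero_mul])
  -- the third step: `u = r`, `v = w₁ w₂`
  set e2 : Fin n → Fin (m + 2 + 2) := Fin.castAdd 2 ∘ e1 with he2
  apply hs (m + 2 + 2) _ (rename e2 r)
    (X (Fin.castSucc (Fin.castAdd 2 (vw m))) * X (Fin.castSucc (vw (m + 2))))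
    (by rw [constantCoeff_rename, hr0])
    (by rw [map_mul, constantCoeff_X, zero_mul])
  set e3 : Fin n → Fin (m + 2 + 2 + 2) := Fin.castAdd 2 ∘ e2 with he3
  set t1 : Fin (m + 2 + 2 + 2) := Fin.castAdd 2 (Fin.castAdd 2 (vt m)) with ht1
  set w1 : Fin (m + 2 + 2 + 2) := Fin.castAdd 2 (Fin.castAdd 2 (vw m)) with hw1
  set t2 : Fin (m + 2 + 2 + 2) := Fin.castAdd 2 (vt (m + 2)) with ht2
  set w2 : Fin (m + 2 + 2 + 2) := Fin.castAdd 2 (vw (m + 2)) with hw2
  set t3 : Fin (m + 2 + 2 + 2) := vt (m + 2 + 2) with ht3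
  set w3 : Fin (m + 2 + 2 + 2) := vw (m + 2 + 2) with hw3
  have h1 := (hp.rename e3).two (hG.rename e3) (-1) t1
  have h2 := (hq.rename e3).two h1 (-1) t2
  have h3 := (hr.rename e3).two h2 (-1) t3
  set ι : Fin m → Fin (m + 2 + 2 + 2) := Fin.castAdd 2 ∘ Fin.castAdd 2 ∘ Fin.castAdd 2 with hι
  have hιi : Function.Injective ι := (Fin.castAdd_injective _ 2).comp
    ((Fin.castAdd_injective _ 2).comp (Fin.castAdd_injective _ 2))
  have hιv : ∀ i, (ι i : ℕ) = i := fun i => rfl
  have hS' := ((hS.tri hιi ![w3, w1, w2] ?_ ?_).add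
    (((q2_XX (R := R) t1 w1).add (q2_XX (R := R) t2 w2)).add (q2_XX (R := R) t3 w3)))
  · have h4 := h3 (m + 2 + 2 + 2) id _ hS'
    rw [rename_id_apply] at h4
    convert h4 using 1
    unfold stq
    simp only [map_add, map_mul, map_sub, rename_rename, rename_X,
      ← Function.comp_assoc, xw_comp, map_neg, map_one, xw_castSucc,
      Matrix.cons_val_zero, Matrix.cons_val_one, Matrix.cons_val]
    have e4 : (Fin.castAdd 2 ∘ Fin.castAdd 2 ∘ Fin.castAdd 2 : Fin m → Fin (m + 2 + 2 + 2)) = ι :=
      rfl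
    simp only [hι, he3, he2, he1, Function.comp_assoc, ht1, ht2, ht3, hw1, hw2, hw3]
    ring
  · intro a b hab
    fin_cases a <;> fin_cases b <;> first
      | rfl
      | (exfalso
         have h5 := congrArg Fin.val hab
         simp [hw1, hw2, hw3] at h5
         try omega)
  · intro i j
    fin_cases j <;>
      (intro h6
       have h5 := congrArg Fin.val h6
       have h7 := i.2
       rw [hιv] at h5
       simp [hw1, hw2, hw3] at h5
       omega)

theorem ab_mul {n : ℕ} {p q : MvPolynomial (Fin n) R} (hp : AB P p) (hq : AB P q) :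
    AB P (p * q) := by
  intro m e G hG c
  set p0 := constantCoeff p with hp0
  set q0 := constantCoeff q with hq0
  have hp' : AB P (rename e p + C (-p0)) := (hp.rename e).add (ab_C _)
  have hq' : AB P (rename e q + C (-q0)) := (hq.rename e).add (ab_C _)
  have cp : constantCoeff (rename e p + C (-p0) : MvPolynomial (Fin m) R) = 0 := by
    rw [map_add, constantCoeff_rename, constantCoeff_C, ← hp0, add_neg_cancel]
  have cq : constantCoeff (rename e q + C (-q0) : MvPolynomial (Fin m) R) = 0 := by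
    rw [map_add, constantCoeff_rename, constantCoeff_C, ← hq0, add_neg_cancel]
  refine ⟨?_, fun i => ?_⟩
  · have h1 := ok_two hs hG (hp'.smul c) hq' (by rw [map_mul, cp, mul_zero]) cq
    have h2 := hp'.one h1 (c * q0)
    have h3 := hq'.one h2 (c * p0)
    have h4 := h3.quad (q2_C (c * (p0 * q0)))
    convert h4 using 1
    simp only [map_mul, map_neg]
    ring
  · have h1 := ok_three hs hG (ab_X i) (hp'.smul c) hq' (by rw [constantCoeff_X])
      (by rw [map_mul, cp, mul_zero]) cq
    have h2 := hp'.two h1 (c * q0) i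
    have h3 := hq'.two h2 (c * p0) i
    have h4 := h3.quad ((q2_X i).Cmul (c * (p0 * q0)))
    convert h4 using 1
    simp only [map_mul, map_neg]
    ring

/-- **The reduction principle.** -/
theorem red_tri (hd : ∀ (n : ℕ) (F : MvPolynomial (Fin n) R), QT F → P n F)
    (n : ℕ) (f : MvPolynomial (Fin n) R) : P n f := by
  have key : AB P f := by
    induction f using MvPolynomial.induction_on with
    | C a => exact ab_C a
    | add p q hp hq => exact hp.add hq
    | mul_X p i hp => exact ab_mul hs hp (ab_X i)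
  have h0 : Ok P (0 : MvPolynomial (Fin n) R) := by
    intro m e S hS
    rw [map_zero, zero_add]
    exact hd m S hS
  have h3 := (key n id 0 h0 1).1 n id 0 QT.zero
  rw [rename_id_apply, rename_id_apply, map_one, one_mul, zero_add, add_zero] at h3
  exact h3

end

end Pool.Agent.Run7.h768.CZ
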