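import Pool.Agent.Run7.h768.CS.StabEq

/-!
# All the relations between `f` and `q + ∑ x_i ^ 3`
-/

set_option autoImplicit false

namespace Pool.Agent.Run7.h768.CS

open MvPolynomial Pool.Agent.W428.MOT Pool.Agent.N101.CB

section
variable {n m : ℕ} {g p : MvPolynomial (Fin n) ℂ} {i : Fin n}

theorem Rl_el (hp : Fr i p) (hp0 : constantCoeff p = 0) {F : MvPolynomial (Fin m) ℂ} {κ : ℕ}
    (h : Rl (elE i p hp g) F κ) : Rl g F κ where
  deg h1 := h.deg (el_deg hp h1)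
  const h1 := h.const (by rw [elE_apply, el_const hp0]; exact h1)
  pole s₀ h0 h1 h2 := h.pole s₀ h0 h1 (by rw [zt_el_univ hp]; exact h2)
  lpole h3 s₀ h0 h1 h2 := h.lpole (by rw [elE_apply, el_const hp0]; exact h3) s₀ h0 h1
    (by rw [zt_el_zero hp hp0]; exact h2)
  b h1 b hb := h.b (el_deg hp h1) b (b_el hp g hb)
  lb h1 h2 b hb := h.lb (el_deg hp h1) (by rw [elE_apply, el_const hp0]; exact h2) b
    (lb_el hp hp0 g hb)
  top χ hχ R hR := h.top χ hχ R (by rw [zt_el_univ hp]; exact hR)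
  ltop h1 χ hχ R hR := h.ltop (by rw [elE_apply, el_const hp0]; exact h1) χ hχ R
    (by rw [zt_el_zero hp hp0]; exact hR)

theorem Rf_el (hp : Fr i p) (hp0 : constantCoeff p = 0) {F : MvPolynomial (Fin m) ℂ} {κ : ℕ}
    (h : Rf (elE i p hp g) F κ) : Rf g F κ where
  glob := by
    have h1 := h.glob
    have h2 : Dg (elE i p hp g) = Dg g := by
      unfold Dg Zmot
      rw [zt_el_univ hp]
    rwa [h2] at h1
  loc h0 := by
    have h1 := h.loc (by rw [elE_apply, el_const hp0]; exact h0)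
    have h2 : Dl (elE i p hp g) = Dl g := by
      unfold Dl Zmot
      rw [zt_el_zero hp hp0]
    rwa [h2] at h1

end

/-- **The normal form of a polynomial.** -/
theorem exists_qc {n : ℕ} (f : MvPolynomial (Fin n) ℂ) :
    ∃ (κ m : ℕ) (F : MvPolynomial (Fin m) ℂ), m = n + 2 * κ ∧ QC F ∧ StabEq f F κ ∧ Rl f F κ ∧
      Rf f F κ := by
  have h6 : (6 : ℂ) ≠ 0 := by norm_num
  refine red_cubes (K := ℂ) (P := fun n f => ∃ (κ m : ℕ) (F : MvPolynomial (Fin m) ℂ),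
    m = n + 2 * κ ∧ QC F ∧ StabEq f F κ ∧ Rl f F κ ∧ Rf f F κ)
    (fun n f u v hu hv h => step_of (fun n f => ∃ (κ m : ℕ) (F : MvPolynomial (Fin m) ℂ),
      m = n + 2 * κ ∧ QC F ∧ StabEq f F κ ∧ Rl f F κ ∧ Rf f F κ) ?_ ?_ n f u v hu hv h) h6 ?_ n f
  · rintro n g p i hp hp0 ⟨κ, m, F, h1, h2, h5, h3, h4⟩
    exact ⟨κ, m, F, h1, h2, h5.el hp hp0, Rl_el hp hp0 h3, Rf_el hp hp0 h4⟩
  · rintro n f ⟨κ, m, F, h1, h2, h5, h3, h4⟩
    exact ⟨κ + 1, m, F, by omega, h2, h5.stp, Rl.step f 0 0 F κ (map_zero _) (map_zero _) h3,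
      Rf.step f 0 0 F κ (map_zero _) (map_zero _) h4⟩
  · intro n F hF
    exact ⟨0, n, F, rfl, hF, StabEq.refl F, Rl.refl F, Rf.refl F⟩

end Pool.Agent.Run7.h768.CS
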