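import Pool.Agent.Run7.h768.CS.VolZ
import Pool.Agent.Run7.h768.CS.Rel

/-!
# The relations between `f ∈ ℤ[x]` and its normal form
-/

set_option autoImplicit false
set_option linter.unusedSectionVars false

namespace Pool.Agent.Run7.h768.CZ

open MvPolynomial
open Pool.Agent.W427.SMC
open Pool.Agent.H628R4.TP (IsBFunction)

/-- the polynomial with complex coefficients -/
noncomputable abbrev cx {n : ℕ} (f : MvPolynomial (Fin n) ℤ) : MvPolynomial (Fin n) ℂ :=
  map (Int.castRingHom ℂ) f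

theorem cx_inj {n : ℕ} : Function.Injective (cx : MvPolynomial (Fin n) ℤ → _) :=
  map_injective _ Int.cast_injective

theorem cx_deg {n : ℕ} {f : MvPolynomial (Fin n) ℤ} (hf : f.totalDegree ≠ 0) :
    (cx f).totalDegree ≠ 0 := by
  intro h
  apply hf
  rw [totalDegree_eq_zero_iff_eq_C] at h
  have h1 : f = C (coeff 0 f) := by
    apply cx_inj
    rw [h]
    unfold cx
    rw [coeff_map, map_C]
  rw [h1, totalDegree_C]

theorem cx_aeval {n k : ℕ} (g : Fin n → MvPolynomial (Fin k) ℤ) (q : MvPolynomial (Fin n) ℤ) :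
    cx (aeval g q) = aeval (fun j => cx (g j)) (cx q) := by
  unfold cx
  induction q using MvPolynomial.induction_on with
  | C a =>
    rw [map_C, aeval_C, aeval_C]
    simp
  | add p q hp hq => rw [map_add, map_add, map_add, map_add, hp, hq]
  | mul_X q j hq => rw [map_mul, map_mul, map_mul, map_mul, hq, map_X, aeval_X, aeval_X]

theorem cx_update {n : ℕ} (i : Fin n) (r : MvPolynomial (Fin n) ℤ) :
    (fun j => cx (Function.update (X : Fin n → MvPolynomial (Fin n) ℤ) i r j)) =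
      Function.update (X : Fin n → MvPolynomial (Fin n) ℂ) i (cx r) := by
  funext j
  by_cases hj : j = i
  · subst hj
    rw [Function.update_self, Function.update_self]
  · rw [Function.update_of_ne hj, Function.update_of_ne hj]
    exact map_X _ _

theorem cx_fr {n : ℕ} {i : Fin n} {q : MvPolynomial (Fin n) ℤ} (h : Fr i q) :
    Pool.Agent.Run7.h768.CS.Fr i (cx q) := by
  have h0 : aeval (Function.update X i 0) (cx q) = cx q := by
    have h1 := congrArg cx (h 0)
    rw [cx_aeval, cx_update] at h1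
    have h2 : (cx 0 : MvPolynomial (Fin n) ℂ) = 0 := map_zero _
    rwa [h2] at h1
  intro r
  conv_lhs => rw [← h0]
  have h3 : (aeval (Function.update (X : Fin n → MvPolynomial (Fin n) ℂ) i r)).comp
      (aeval (Function.update (X : Fin n → MvPolynomial (Fin n) ℂ) i 0)) =
      aeval (Function.update (X : Fin n → MvPolynomial (Fin n) ℂ) i 0) := by
    apply MvPolynomial.algHom_ext
    intro j
    rw [AlgHom.comp_apply, aeval_X]
    by_cases hj : j = i
    · subst hj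
      rw [Function.update_self, map_zero]
    · rw [Function.update_of_ne hj, aeval_X, Function.update_of_ne hj]
  have h4 := DFunLike.congr_fun h3 (cx q)
  rw [AlgHom.comp_apply] at h4
  rw [h4, h0]

theorem cx_el {n : ℕ} {i : Fin n} {q : MvPolynomial (Fin n) ℤ} (h : Fr i q)
    (g : MvPolynomial (Fin n) ℤ) :
    cx (elE i q h g) = Pool.Agent.Run7.h768.CS.elE i (cx q) (cx_fr h) (cx g) := by
  rw [elE_apply, Pool.Agent.Run7.h768.CS.elE_apply]
  unfold elH Pool.Agent.Run7.h768.CS.elH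
  rw [cx_aeval, cx_update]
  congr 3
  unfold cx
  rw [map_add, map_X]

theorem cx_hp {n : ℕ} (f : MvPolynomial (Fin n) ℤ) :
    cx (hp1 f) = Pool.Agent.N101.CB.stp (cx f) 0 0 := by
  unfold hp1 Pool.Agent.N101.CB.stp cx
  rw [map_add, map_mul, map_X, map_X, map_rename, map_zero, add_zero, sub_zero]

/-- All the relations between `f` and `F`, in `n + 2 κ` variables. -/
structure Rz {n m : ℕ} (f : MvPolynomial (Fin n) ℤ) (F : MvPolynomial (Fin m) ℤ) (κ : ℕ) :
    Prop where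
  deg : f.totalDegree ≠ 0 → F.totalDegree ≠ 0
  b : f.totalDegree ≠ 0 → ∀ b : Polynomial ℂ, IsBFunction (cx f) b → b.eval (-1) = 0 ∧
    ∀ c : Polynomial ℂ, b = (Polynomial.X + 1) * c →
      IsBFunction (cx F) ((Polynomial.X + 1) * c.comp (Polynomial.X + Polynomial.C (κ : ℂ)))
  vol : ∀ (p : ℕ) [Fact p.Prime] (e : ℕ),
    (p : ℝ) ^ (κ * (e + 1)) * (p * cN p F (e + 1) - cN p F e) = p * cN p f (e + 1) - cN p f e

theorem Rz.refl {n : ℕ} (f : MvPolynomial (Fin n) ℤ) : Rz f f 0 where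
  deg h := h
  b hf b hb := (Pool.Agent.N101.CB.Rl.refl (cx f)).b (cx_deg hf) b hb
  vol p _ e := by rw [zero_mul, pow_zero, one_mul]

theorem Rz.el {n m : ℕ} {g q : MvPolynomial (Fin n) ℤ} {i : Fin n} (hq : Fr i q)
    {F : MvPolynomial (Fin m) ℤ} {κ : ℕ} (h : Rz (elE i q hq g) F κ) : Rz g F κ where
  deg h1 := h.deg (el_deg hq h1)
  b h1 b hb := h.b (el_deg hq h1) b (by
    rw [cx_el]
    exact Pool.Agent.Run7.h768.CS.b_el (cx_fr hq) (cx g) hb)
  vol p _ e := by
    have h1 := h.vol p e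
    rwa [cN_alg, cN_alg] at h1

theorem hp1_deg {n : ℕ} (f : MvPolynomial (Fin n) ℤ) : (hp1 f).totalDegree ≠ 0 := by
  intro h
  rw [totalDegree_eq_zero_iff_eq_C] at h
  have h1 := congrArg (eval (fun j : Fin (n + 2) => if j = vt n then (1 : ℤ) else
    if j = vw n then 1 else 0)) h
  have h2 := congrArg (eval (fun j : Fin (n + 2) => (0 : ℤ))) h
  unfold hp1 at h1 h2
  rw [eval_C, map_add, map_mul, eval_X, eval_X, eval_rename] at h1 h2
  have h3 : ((fun j : Fin (n + 2) => if j = vt n then (1 : ℤ) else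
      if j = vw n then 1 else 0) ∘ Fin.castAdd 2) = fun _ => 0 := by
    funext j
    rw [Function.comp_apply, if_neg (castAdd_ne_t j), if_neg (castAdd_ne_w j)]
  have h4 : ((fun j : Fin (n + 2) => (0 : ℤ)) ∘ Fin.castAdd 2) = fun _ => 0 := rfl
  rw [h3, if_pos rfl, if_neg t_ne_w.symm, if_pos rfl] at h1
  rw [h4] at h2
  linarith

theorem Rz.hp {n m : ℕ} {f : MvPolynomial (Fin n) ℤ} {F : MvPolynomial (Fin m) ℤ} {κ : ℕ}
    (h : Rz (hp1 f) F κ) : Rz f F (κ + 1) where
  deg _ := h.deg (hp1_deg f)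
  b hf b hb := by
    obtain ⟨h1, h2⟩ := Pool.Agent.N101.CB.bg (cx f) 0 0 (cx_deg hf) b hb
    refine ⟨h1, fun c hc => ?_⟩
    have h3 := h2 c hc
    rw [← cx_hp] at h3
    have h4 := (h.b (hp1_deg f) _ h3).2 _ rfl
    rwa [Pool.Agent.N101.CB.comp_succ] at h4
  vol p _ e := by
    have h1 := h.vol p e
    have h2 := cN_step p f e
    rw [← h2, ← h1, add_mul, pow_add, one_mul]
    ring

theorem QT.hp {n : ℕ} {F : MvPolynomial (Fin n) ℤ} (h : QT F) : QT (hp1 F) :=
  (h.rename (Fin.castAdd_injective n 2)).add (q2_XX _ _)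

/-- **The normal form of a polynomial with integral coefficients.** -/
theorem exists_qt {n : ℕ} (f : MvPolynomial (Fin n) ℤ) :
    ∃ (κ m : ℕ) (F : MvPolynomial (Fin m) ℤ), m = n + 2 * κ ∧ 2 ≤ κ ∧ QT F ∧ StabEq f F κ ∧
      Rz f F κ := by
  refine red_tri (R := ℤ) (P := fun n f => ∃ (κ m : ℕ) (F : MvPolynomial (Fin m) ℤ),
    m = n + 2 * κ ∧ 2 ≤ κ ∧ QT F ∧ StabEq f F κ ∧ Rz f F κ)
    (fun n f u v hu hv h => step_of (fun n f => ∃ (κ m : ℕ) (F : MvPolynomial (Fin m) ℤ),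
      m = n + 2 * κ ∧ 2 ≤ κ ∧ QT F ∧ StabEq f F κ ∧ Rz f F κ) ?_ ?_ n f u v hu hv h) ?_ n f
  · rintro n g p i hp hp0 ⟨κ, m, F, h1, h2, h3, h4, h5⟩
    exact ⟨κ, m, F, h1, h2, h3, h4.el hp hp0, h5.el hp⟩
  · rintro n f ⟨κ, m, F, h1, h2, h3, h4, h5⟩
    exact ⟨κ + 1, m, F, by omega, by omega, h3, h4.hp, h5.hp⟩
  · intro n F hF
    exact ⟨2, n + 2 + 2, hp1 (hp1 F), by omega, le_rfl, hF.hp.hp,
      (StabEq.refl (hp1 (hp1 F))).hp.hp, (Rz.refl (hp1 (hp1 F))).hp.hp⟩

end Pool.Agent.Run7.h768.CZ
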