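import Pool.Agent.Run7.h768.CS.CountZ
import Pool.Agent.Run7.h768.CS.AutZ
import Pool.Agent.W427.SMC.Poin4

/-!
# The numbers of solutions modulo `p ^ m` of `f(x) + t w`
-/

set_option autoImplicit false
set_option linter.unusedSectionVars false

namespace Pool.Agent.Run7.h768.CZ

open MeasureTheory MvPolynomial
open scoped ENNReal
open Pool.Agent.W427.SMC

attribute [local instance] msZ bsZ

section
variable (p : ℕ) [Fact p.Prime] {V : Type} [Fintype V]

theorem mu_pred (m : ℕ) (Q : (V → ZMod (p ^ m)) → Prop) :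
    (Measure.pi fun _ : V => mu p) {z | Q (fun i => PadicInt.toZModPow m (z i))} =
      (Nat.card {w // Q w} : ℝ≥0∞) * (((p : ℝ≥0∞)⁻¹) ^ (Fintype.card V)) ^ m := by
  classical
  have hp : NeZero (p ^ m) := ⟨pow_ne_zero _ (Fact.out : p.Prime).ne_zero⟩
  have h1 : ({z | Q (fun i => PadicInt.toZModPow m (z i))} : Set (V → ℤ_[p])) =
      ⋃ w ∈ (Finset.univ.filter fun w : V → ZMod (p ^ m) => Q w),
        Set.pi Set.univ fun i => {t : ℤ_[p] | PadicInt.toZModPow m t = w i} := by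
    ext z
    simp only [Finset.mem_filter, Finset.mem_univ, true_and, Set.mem_iUnion, Set.mem_pi,
      Set.mem_ofPred_eq, exists_prop]
    constructor
    · intro h
      exact ⟨_, h, fun _ _ => rfl⟩
    · rintro ⟨w, hw, h⟩
      have h2 : (fun i => PadicInt.toZModPow m (z i)) = w := by
        funext i
        exact h i (Set.mem_univ i)
      rw [h2]
      exact hw
  rw [h1, measure_biUnion_finset]
  · have h2 : ∀ w : V → ZMod (p ^ m), (Measure.pi fun _ : V => mu p)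
        (Set.pi Set.univ fun i => {t : ℤ_[p] | PadicInt.toZModPow m t = w i}) =
        (((p : ℝ≥0∞)⁻¹) ^ (Fintype.card V)) ^ m := by
      intro w
      rw [Measure.pi_pi]
      simp only [mu_res, Finset.prod_const, Finset.card_univ]
      rw [← pow_mul, ← pow_mul, mul_comm]
    simp only [h2, Finset.sum_const, nsmul_eq_mul]
    congr 2
    rw [Nat.card_eq_fintype_card, Fintype.card_subtype]
  · intro w _ w' _ hww'
    rw [Function.onFun, Set.disjoint_left]
    intro z hz hz'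
    apply hww'
    funext i
    have h3 := hz i (Set.mem_univ i)
    have h4 := hz' i (Set.mem_univ i)
    rw [Set.mem_ofPred_eq] at h3 h4
    rw [← h3, ← h4]
  · intro w _
    exact MeasurableSet.univ_pi fun i => meas_res p m (w i)

theorem dvd_mod (m j : ℕ) (hj : j ≤ m) (a : ℤ_[p]) :
    (p : ℤ_[p]) ^ j ∣ a ↔ (p : ZMod (p ^ m)) ^ j ∣ PadicInt.toZModPow m a := by
  constructor
  · rintro ⟨b, rfl⟩
    exact ⟨PadicInt.toZModPow m b, by rw [map_mul, map_pow, map_natCast]⟩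
  · rintro ⟨b, hb⟩
    obtain ⟨b', rfl⟩ : ∃ b' : ℤ_[p], PadicInt.toZModPow m b' = b := by
      have hp : NeZero (p ^ m) := ⟨pow_ne_zero _ (Fact.out : p.Prime).ne_zero⟩
      exact ⟨(b.val : ℤ_[p]), by rw [map_natCast, ZMod.natCast_zmod_val]⟩
    have h1 : PadicInt.toZModPow m (a - (p : ℤ_[p]) ^ j * b') = 0 := by
      rw [map_sub, hb, map_mul, map_pow, map_natCast, sub_self]
    have h2 : (p : ℤ_[p]) ^ m ∣ a - (p : ℤ_[p]) ^ j * b' := by
      rw [← Ideal.mem_span_singleton, ← PadicInt.ker_toZModPow, RingHom.mem_ker]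
      exact h1
    have h3 : (p : ℤ_[p]) ^ j ∣ a - (p : ℤ_[p]) ^ j * b' := (pow_dvd_pow _ hj).trans h2
    have h4 := dvd_add h3 (Dvd.intro b' (rfl : (p : ℤ_[p]) ^ j * b' = (p : ℤ_[p]) ^ j * b'))
    rwa [sub_add_cancel] at h4

/-- the numbers of solutions of `f ≡ 0 mod p ^ j`, counted modulo `p ^ m` -/
theorem cN_level (f : MvPolynomial V ℤ) (m j : ℕ) (hj : j ≤ m) :
    (Nat.card {w : V → ZMod (p ^ m) // (p : ZMod (p ^ m)) ^ j ∣ aeval w f} : ℝ) *
      (((p : ℝ) ^ (Fintype.card V))⁻¹) ^ m = cN p f j := by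
  rw [← cN_eq]
  have h1 : ({z | (p : ℤ_[p]) ^ j ∣ aeval z f} : Set (V → ℤ_[p])) =
      {z | (fun w : V → ZMod (p ^ m) => (p : ZMod (p ^ m)) ^ j ∣ aeval w f)
        (fun i => PadicInt.toZModPow m (z i))} := by
    ext z
    simp only [Set.mem_ofPred_eq]
    rw [dvd_mod p m j hj, toZ_aeval]
  rw [h1, mu_pred p m (fun w : V → ZMod (p ^ m) => (p : ZMod (p ^ m)) ^ j ∣ aeval w f)]
  simp [ENNReal.toReal_mul, ENNReal.toReal_pow, ENNReal.toReal_inv]

theorem solCount_alg {n : ℕ} (ψ : MvPolynomial (Fin n) ℤ ≃ₐ[ℤ] MvPolynomial (Fin n) ℤ)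
    (g : MvPolynomial (Fin n) ℤ) (m : ℕ) : solCount p m (ψ g) = solCount p m g := by
  have cmp : ∀ (φ : MvPolynomial (Fin n) ℤ ≃ₐ[ℤ] MvPolynomial (Fin n) ℤ)
      (x : Fin n → ZMod (p ^ m)) (g : MvPolynomial (Fin n) ℤ),
      aeval (fun i => aeval x (φ (X i))) g = aeval x (φ g) := by
    intro φ x g
    have h : (aeval (fun i => aeval x (φ (X i))) :
        MvPolynomial (Fin n) ℤ →ₐ[ℤ] ZMod (p ^ m)) =
        (aeval x).comp (φ : MvPolynomial (Fin n) ℤ →ₐ[ℤ] MvPolynomial (Fin n) ℤ) := by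
      apply MvPolynomial.algHom_ext
      intro i
      rw [aeval_X]
      rfl
    rw [h]
    rfl
  unfold solCount
  refine Nat.card_congr
    { toFun := fun x => ⟨fun i => aeval x.1 (ψ (X i)), ?_⟩
      invFun := fun y => ⟨fun i => aeval y.1 (ψ.symm (X i)), ?_⟩
      left_inv := ?_
      right_inv := ?_ }
  · rw [cmp]
    exact x.2
  · rw [cmp, AlgEquiv.symm_apply_apply]
    exact y.2
  · rintro ⟨x, hx⟩
    apply Subtype.ext
    funext i
    show aeval (fun i => aeval x (ψ (X i))) (ψ.symm (X i)) = x i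
    rw [cmp, AlgEquiv.apply_symm_apply, aeval_X]
  · rintro ⟨x, hx⟩
    apply Subtype.ext
    funext i
    show aeval (fun i => aeval x (ψ.symm (X i))) (ψ (X i)) = x i
    rw [cmp, AlgEquiv.symm_apply_apply, aeval_X]

theorem cN_alg {n : ℕ} (ψ : MvPolynomial (Fin n) ℤ ≃ₐ[ℤ] MvPolynomial (Fin n) ℤ)
    (g : MvPolynomial (Fin n) ℤ) (m : ℕ) : cN p (ψ g) m = cN p g m := by
  unfold cN
  rw [solCount_alg]

open Classical in
theorem solCount_hp1 {n : ℕ} (f : MvPolynomial (Fin n) ℤ) (m : ℕ) :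
    (solCount p m (hp1 f) : ℤ) = ∑ j ∈ Finset.range (m + 1),
      (if j = m then (p : ℤ) ^ m else (p : ℤ) ^ m - (p : ℤ) ^ (m - 1)) *
        (Nat.card {w : Fin n → ZMod (p ^ m) // (p : ZMod (p ^ m)) ^ j ∣ aeval w f} : ℤ) := by
  have hp : NeZero (p ^ m) := ⟨pow_ne_zero _ (Fact.out : p.Prime).ne_zero⟩
  have ev : ∀ x : Fin (n + 2) → ZMod (p ^ m), aeval x (hp1 f) =
      aeval (fun i => x (Fin.castAdd 2 i)) f + x (vt n) * x (vw n) := by
    intro x
    unfold hp1
    rw [map_add, map_mul, aeval_X, aeval_X, aeval_rename]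
    rfl
  have h1 : solCount p m (hp1 f) = ∑ x : Fin n → ZMod (p ^ m),
      Nat.card {z : ZMod (p ^ m) × ZMod (p ^ m) // z.1 * z.2 = - aeval x f} := by
    unfold solCount
    rw [← Nat.card_sigma]
    refine Nat.card_congr
      { toFun := fun x => ⟨fun i => x.1 (Fin.castAdd 2 i), (x.1 (vt n), x.1 (vw n)), ?_⟩
        invFun := fun z => ⟨Fin.addCases z.1 ![z.2.1.1, z.2.1.2], ?_⟩
        left_inv := ?_
        right_inv := ?_ }
    · have h2 := x.2
      rw [ev] at h2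
      exact eq_neg_of_add_eq_zero_right h2
    · rw [ev]
      have h2 := z.2.2
      simp only [Fin.addCases_left, Fin.addCases_right, vt, vw]
      show aeval z.1 f + z.2.1.1 * z.2.1.2 = 0
      rw [h2, add_neg_cancel]
    · rintro ⟨x, hx⟩
      apply Subtype.ext
      funext i
      refine Fin.addCases (fun i => ?_) (fun i => ?_) i
      · simp only [Fin.addCases_left]
      · simp only [Fin.addCases_right]
        fin_cases i <;> rfl
    · rintro ⟨x, ⟨a, b⟩, hx⟩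
      refine Sigma.subtype_ext ?_ ?_
      · funext i
        simp only [Fin.addCases_left]
      · simp only [vt, vw, Fin.addCases_right]
        rfl
  rw [h1]
  push_cast
  simp only [card_prod, dvd_neg]
  rw [Finset.sum_comm]
  refine Finset.sum_congr rfl fun j _ => ?_
  rw [← Finset.sum_filter, Finset.sum_const, nsmul_eq_mul, mul_comm]
  congr 2
  rw [Nat.card_eq_fintype_card, Fintype.card_subtype]

theorem cN_hp1 {n : ℕ} (f : MvPolynomial (Fin n) ℤ) (m : ℕ) :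
    (p : ℝ) ^ m * cN p (hp1 f) m = (1 - (p : ℝ)⁻¹) * ∑ j ∈ Finset.range m, cN p f j +
      cN p f m := by
  have hp0 : (p : ℝ) ≠ 0 := by exact_mod_cast (Fact.out : p.Prime).ne_zero
  have h1 := congrArg (fun x : ℤ => (x : ℝ)) (solCount_hp1 p f m)
  push_cast at h1
  have h2 : cN p (hp1 f) m = (∑ j ∈ Finset.range (m + 1),
      (if j = m then (p : ℝ) ^ m else (p : ℝ) ^ m - (p : ℝ) ^ (m - 1)) * cN p f j) *
        ((p : ℝ)⁻¹) ^ (2 * m) := by
    unfold cN
    rw [h1, Finset.sum_mul, Finset.sum_mul]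
    refine Finset.sum_congr rfl fun j hj => ?_
    have hj' : j ≤ m := by
      rw [Finset.mem_range] at hj
      omega
    have h3 := cN_level p f m j hj'
    unfold cN at h3
    rw [← h3, Fintype.card_fin, Fintype.card_fin]
    have h4 : (((p : ℝ) ^ (n + 2))⁻¹) ^ m = (((p : ℝ) ^ n)⁻¹) ^ m * ((p : ℝ)⁻¹) ^ (2 * m) := by
      rw [pow_add, mul_inv, mul_pow, pow_mul, inv_pow (p : ℝ) 2]
    rw [h4]
    ring
  rw [h2, Finset.sum_range_succ, if_pos rfl]
  have h3 : ∀ j ∈ Finset.range m, (if j = m then (p : ℝ) ^ m else (p : ℝ) ^ m -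
      (p : ℝ) ^ (m - 1)) * cN p f j = ((p : ℝ) ^ m * (1 - (p : ℝ)⁻¹)) * cN p f j := by
    intro j hj
    have hj' := Finset.mem_range.1 hj
    rw [if_neg hj'.ne]
    congr 1
    obtain ⟨k, rfl⟩ : ∃ k, m = k + 1 := ⟨m - 1, by omega⟩
    rw [Nat.add_sub_cancel, pow_succ]
    field_simp
  rw [Finset.sum_congr rfl h3, ← Finset.mul_sum]
  have h4 : (p : ℝ) ^ m * (p : ℝ) ^ m * ((p : ℝ)⁻¹) ^ (2 * m) = 1 := by
    rw [← pow_add, ← two_mul, ← mul_pow, mul_inv_cancel₀ hp0, one_pow]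
  linear_combination ((1 - (p : ℝ)⁻¹) * ∑ j ∈ Finset.range m, cN p f j + cN p f m) * h4

/-- **The volumes of `f(x) + t w`.** -/
theorem cN_step {n : ℕ} (f : MvPolynomial (Fin n) ℤ) (e : ℕ) :
    (p : ℝ) ^ (e + 1) * (p * cN p (hp1 f) (e + 1) - cN p (hp1 f) e) =
      p * cN p f (e + 1) - cN p f e := by
  have hp0 : (p : ℝ) ≠ 0 := by exact_mod_cast (Fact.out : p.Prime).ne_zero
  have h1 := cN_hp1 p f (e + 1)
  have h2 := cN_hp1 p f e
  rw [Finset.sum_range_succ] at h1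
  have h3 : (p : ℝ) * (p : ℝ)⁻¹ = 1 := mul_inv_cancel₀ hp0
  have h4 : (p : ℝ) ^ (e + 1) = (p : ℝ) ^ e * p := pow_succ _ _
  calc (p : ℝ) ^ (e + 1) * (p * cN p (hp1 f) (e + 1) - cN p (hp1 f) e)
      = p * ((p : ℝ) ^ (e + 1) * cN p (hp1 f) (e + 1)) - p * ((p : ℝ) ^ e * cN p (hp1 f) e) := by
        rw [h4]; ring
    _ = _ := by
        rw [h1, h2]
        linear_combination (-cN p f e) * h3

end

end Pool.Agent.Run7.h768.CZ
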